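import Mathlib

/-!
Locally constant maps from the Cantor set to the square, and the rays of ideal points.
-/

namespace Pool.Agent.P.MP_fa84b3_gt.Cx

open Set Filter Topology PiNat

abbrev R : Type := ℕ → Bool
abbrev Pl : Type := ℝ × ℝ
abbrev Amb : Type := R → Pl

/-- dependence on the first `m` bits only -/
def Dep {β : Type} (m : ℕ) (y : R → β) : Prop := ∀ x x', x ∈ cylinder x' m → y x = y x'

theorem Dep.mono {β : Type} {m m' : ℕ} {y : R → β} (h : Dep m y) (hm : m ≤ m') : Dep m' y :=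
  fun x x' hx => h x x' (cylinder_anti x' hm hx)

theorem cyl_mem_nhds (x : R) (m : ℕ) : cylinder x m ∈ 𝓝 x :=
  (isOpen_cylinder _ x m).mem_nhds (self_mem_cylinder x m)

theorem Dep.lc {β : Type} {m : ℕ} {y : R → β} (h : Dep m y) : IsLocallyConstant y :=
  (IsLocallyConstant.iff_eventually_eq y).2 fun x => by
    filter_upwards [cyl_mem_nhds x m] with x' hx' using h x' x hx'

theorem Dep.ev {β E : Type} {m : ℕ} {y : R → β} (h : Dep m y) {𝓛 : Filter E} {a : E → R} {r : R}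
    (ha : Tendsto a 𝓛 (𝓝 r)) : ∀ᶠ e in 𝓛, y (a e) = y r := by
  filter_upwards [ha (cyl_mem_nhds r m)] with e he using h _ _ he

theorem cyl_trans {x y z : R} {m : ℕ} (h1 : x ∈ cylinder y m) (h2 : y ∈ cylinder z m) :
    x ∈ cylinder z m := fun i hi => (h1 i hi).trans (h2 i hi)

theorem cyl_symm {x y : R} {m : ℕ} (h : x ∈ cylinder y m) : y ∈ cylinder x m :=
  fun i hi => (h i hi).symm

theorem isClopen_cyl (x : R) (m : ℕ) : IsClopen (cylinder x m) := by
  have : Dep m fun y : R => y ∈ cylinder x m := fun y y' h =>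
    propext ⟨fun h' => cyl_trans (cyl_symm h) h', fun h' => cyl_trans h h'⟩
  have h2 := this.lc.isClopen_fiber True
  simp only [eq_iff_iff, iff_true] at h2
  exact h2

theorem notMem_cyl_iff {x r : R} (h : x ≠ r) (m : ℕ) : x ∉ cylinder r m ↔ firstDiff x r < m := by
  rw [mem_cylinder_iff_le_firstDiff h, not_le]

theorem ne_of_notMem_cyl {x r : R} {m : ℕ} (h : x ∉ cylinder r m) : x ≠ r := by
  rintro rfl; exact h (self_mem_cylinder _ _)

theorem firstDiff_congr {x x' r r' : R} {m : ℕ} (h : x ∉ cylinder r m) (hx : x' ∈ cylinder x m)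
    (hr : r' ∈ cylinder r m) : firstDiff x' r' = firstDiff x r := by
  have hne := ne_of_notMem_cyl h
  have hlt := (notMem_cyl_iff hne m).1 h
  have h1 : x' (firstDiff x r) ≠ r' (firstDiff x r) := by
    rw [hx _ hlt, hr _ hlt]; exact apply_firstDiff_ne hne
  have hne' : x' ≠ r' := fun e => h1 (by rw [e])
  refine le_antisymm ?_ ?_
  · by_contra hc
    exact h1 (apply_eq_of_lt_firstDiff (not_le.1 hc))
  · by_contra hc
    have hc' := not_le.1 hc
    apply apply_firstDiff_ne hne'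
    rw [hx _ (hc'.trans hlt), hr _ (hc'.trans hlt)]
    exact apply_eq_of_lt_firstDiff hc'

theorem exists_cyl_disjoint {a : Set R} (ha : a.Finite) {r : R} (hr : r ∉ a) :
    ∃ l, ∀ x ∈ a, x ∉ cylinder r l := by
  obtain ⟨l, hl⟩ := exists_disjoint_cylinder ha.isClosed hr
  exact ⟨l, fun x hx => Set.disjoint_left.1 hl hx⟩

def IsRat (t : Pl) : Prop := ∃ p q : ℚ, t = ((p : ℝ), (q : ℝ))

def Nset : Set Amb := {y | (∀ x, ‖y x‖ ≤ 1) ∧ ∃ m, Dep m y}

def Dset : Set Amb := {y | y ∈ Nset ∧ ∀ x, IsRat (y x)}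

abbrev NN : Type := ↥Nset
abbrev DD : Type := ↥Dset

def inc (d : DD) : NN := ⟨d.1, d.2.1⟩

/-- trace on the countable set -/
def tr (f : NN → ℝ) : DD → ℝ := fun d => f (inc d)

theorem countable_Dset : Dset.Countable := by
  classical
  have : Dset ⊆ ⋃ m : ℕ, range fun (g : (Fin m → Bool) → ℚ × ℚ) (x : R) =>
      (((g fun i => x i).1 : ℝ), ((g fun i => x i).2 : ℝ)) := by
    rintro y ⟨⟨-, m, hm⟩, hr⟩
    choose p q hpq using hr
    refine mem_iUnion.2 ⟨m, fun b => (p fun i => if h : i < m then b ⟨i, h⟩ else false,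
      q fun i => if h : i < m then b ⟨i, h⟩ else false), funext fun x => ?_⟩
    simp only
    rw [← hpq]
    exact hm _ _ fun i hi => by simp [hi]
  exact (countable_iUnion fun m => countable_range _).mono this

instance : Countable DD := countable_Dset.to_subtype

theorem isCompact_Nm (m : ℕ) : IsCompact {y : NN | Dep m y.1} := by
  rw [Subtype.isCompact_iff]
  have h1 : IsCompact (Set.pi univ fun _ : R => Metric.closedBall (0 : Pl) 1) :=
    isCompact_univ_pi fun _ => isCompact_closedBall _ _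
  have h2 : IsClosed {y : Amb | Dep m y} := by
    simp only [Dep, ofPred_forall]
    exact isClosed_iInter fun x => isClosed_iInter fun x' => isClosed_iInter fun _ =>
      isClosed_eq (continuous_apply x) (continuous_apply x')
  convert h1.inter_right h2 using 1
  ext y
  constructor
  · rintro ⟨z, hz, rfl⟩
    exact ⟨fun x _ => by simpa using z.2.1 x, hz⟩
  · rintro ⟨h3, h4⟩
    exact ⟨⟨y, fun x => by simpa using h3 x trivial, m, h4⟩, h4, rfl⟩

/-! rounding -/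

noncomputable def rd1 (n : ℕ) (x : ℝ) : ℝ := (⌊x * (n + 1)⌋ : ℝ) / (n + 1)

theorem rd1_close (n : ℕ) (x : ℝ) : |rd1 n x - x| < 1 / ((n : ℝ) + 1) := by
  have hn : (0 : ℝ) < n + 1 := by positivity
  have h1 := Int.floor_le (x * (n + 1))
  have h2 := Int.lt_floor_add_one (x * (n + 1))
  have e : rd1 n x - x = ((⌊x * (n + 1)⌋ : ℝ) - x * (n + 1)) / (n + 1) := by
    unfold rd1; field_simp
  rw [e, abs_div, abs_of_pos hn]
  exact div_lt_div_of_pos_right (abs_lt.2 ⟨by linarith, by linarith⟩) hn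

theorem rd1_le (n : ℕ) {x : ℝ} (h : |x| ≤ 1) : |rd1 n x| ≤ 1 := by
  have hn : (0 : ℝ) < n + 1 := by positivity
  obtain ⟨ha, hb⟩ := abs_le.1 h
  unfold rd1
  rw [abs_div, abs_of_pos hn, div_le_one hn, abs_le]
  constructor
  · have : (-((n : ℤ) + 1)) ≤ ⌊x * (n + 1)⌋ := Int.le_floor.2 (by push_cast; nlinarith)
    exact_mod_cast this
  · have := Int.floor_le (x * (n + 1))
    nlinarith

noncomputable def rd (n : ℕ) (t : Pl) : Pl := (rd1 n t.1, rd1 n t.2)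

theorem rd_close (n : ℕ) (t : Pl) : ‖rd n t - t‖ < 1 / ((n : ℝ) + 1) := by
  rw [Prod.norm_def, max_lt_iff]
  exact ⟨rd1_close n t.1, rd1_close n t.2⟩

noncomputable def rdD (n : ℕ) (y : NN) : DD :=
  ⟨fun x => rd n (y.1 x), ⟨fun x => by
    have := y.2.1 x
    rw [Prod.norm_def, max_le_iff] at this ⊢
    exact ⟨rd1_le n this.1, rd1_le n this.2⟩, y.2.2.imp fun m hm x x' hx => by
      simp only [hm x x' hx]⟩,
    fun x => ⟨(⌊(y.1 x).1 * (n + 1)⌋ : ℚ) / (n + 1), (⌊(y.1 x).2 * (n + 1)⌋ : ℚ) / (n + 1), by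
      simp [rd, rd1]⟩⟩

theorem rdD_dep (n : ℕ) {m : ℕ} {y : NN} (h : Dep m y.1) : Dep m (rdD n y).1 :=
  fun x x' hx => by simp only [rdD, h x x' hx]

theorem tendsto_rd (t : Pl) : Tendsto (fun n => rd n t) atTop (𝓝 t) := by
  rw [tendsto_iff_norm_sub_tendsto_zero]
  exact squeeze_zero (fun _ => norm_nonneg _) (fun n => (rd_close n t).le)
    tendsto_one_div_add_atTop_nhds_zero_nat

theorem tendsto_rdD (y : NN) : Tendsto (fun n => inc (rdD n y)) atTop (𝓝 y) := by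
  rw [tendsto_subtype_rng, tendsto_pi_nhds]
  exact fun x => tendsto_rd (y.1 x)

theorem eq_of_tr_eq {f g : NN → ℝ} (hf : Continuous f) (hg : Continuous g) (h : tr f = tr g) :
    f = g := by
  funext y
  refine tendsto_nhds_unique ((hf.tendsto y).comp (tendsto_rdD y)) ?_
  exact ((hg.tendsto y).comp (tendsto_rdD y)).congr fun n => (congrFun h _).symm

/-! the rotating vector -/

def t0 : Pl := (1, 0)

noncomputable def sg (θ : ℝ) : Pl := ((1 - θ ^ 2) / (1 + θ ^ 2), 2 * θ / (1 + θ ^ 2))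

noncomputable def cl (x : ℝ) : ℝ := max 0 (min 1 x)

theorem cl_nonneg (x : ℝ) : 0 ≤ cl x := le_max_left _ _
theorem cl_le_one (x : ℝ) : cl x ≤ 1 := max_le zero_le_one (min_le_left _ _)
theorem cl_of_nonpos {x : ℝ} (h : x ≤ 0) : cl x = 0 := max_eq_left ((min_le_right _ _).trans h)
theorem cl_of_one_le {x : ℝ} (h : 1 ≤ x) : cl x = 1 := by
  unfold cl; rw [min_eq_left h, max_eq_right zero_le_one]
theorem cl_of_mem {x : ℝ} (h0 : 0 ≤ x) (h1 : x ≤ 1) : cl x = x := by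
  unfold cl; rw [min_eq_right h1, max_eq_right h0]

@[fun_prop] theorem continuous_cl : Continuous cl := by unfold cl; fun_prop

@[fun_prop] theorem continuous_sg : Continuous sg := by
  unfold sg
  refine Continuous.prodMk (Continuous.div (by fun_prop) (by fun_prop) fun x => by positivity)
    (Continuous.div (by fun_prop) (by fun_prop) fun x => by positivity)

theorem sg_zero : sg 0 = t0 := by simp [sg, t0]

theorem norm_sg_le (θ : ℝ) : ‖sg θ‖ ≤ 1 := by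
  have h : (0 : ℝ) < 1 + θ ^ 2 := by positivity
  rw [Prod.norm_def, max_le_iff]
  simp only [sg, Real.norm_eq_abs, abs_div, abs_of_pos h, div_le_one h, abs_le]
  refine ⟨⟨by nlinarith, by nlinarith⟩, by nlinarith [sq_nonneg (θ + 1)],
    by nlinarith [sq_nonneg (θ - 1)]⟩

theorem norm_t0 : ‖t0‖ ≤ 1 := sg_zero ▸ norm_sg_le 0

theorem sg_neg_inv {k : ℝ} (hk : k ≠ 0) : -sg (-k⁻¹) = sg k := by
  have h : (0 : ℝ) < 1 + k ^ 2 := by positivity
  simp only [sg, Prod.neg_mk, Prod.mk.injEq]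
  constructor <;> field_simp <;> ring

theorem isRat_sg (q : ℚ) : IsRat (sg q) :=
  ⟨(1 - q ^ 2) / (1 + q ^ 2), 2 * q / (1 + q ^ 2), by simp [sg]⟩

theorem IsRat.neg {t : Pl} (h : IsRat t) : IsRat (-t) := by
  obtain ⟨p, q, rfl⟩ := h
  exact ⟨-p, -q, by simp⟩

theorem tendsto_neg_sg : Tendsto (fun θ : ℝ => -sg θ) atTop (𝓝 t0) := by
  have h1 : Tendsto (fun θ : ℝ => sg (-θ⁻¹)) atTop (𝓝 t0) := by
    have : Tendsto (fun θ : ℝ => -θ⁻¹) atTop (𝓝 0) := by
      simpa using (tendsto_inv_atTop_zero (𝕜 := ℝ)).neg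
    exact sg_zero ▸ (continuous_sg.tendsto 0).comp this
  refine h1.congr' ?_
  filter_upwards [eventually_gt_atTop 0] with θ hθ
  rw [← sg_neg_inv hθ.ne', neg_neg]

noncomputable def cc (θ : ℝ) (j : ℕ) : Pl := sg θ + cl (θ - j) • (t0 - sg θ)

theorem continuous_cc (j : ℕ) : Continuous fun θ => cc θ j := by unfold cc; fun_prop

theorem cc_of_le {θ : ℝ} {j : ℕ} (h : θ ≤ j) : cc θ j = sg θ := by
  unfold cc; rw [cl_of_nonpos (by linarith)]; simp

theorem cc_of_ge {θ : ℝ} {j : ℕ} (h : (j : ℝ) + 1 ≤ θ) : cc θ j = t0 := by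
  unfold cc; rw [cl_of_one_le (by linarith)]; simp

theorem cc_zero (j : ℕ) : cc 0 j = t0 := by rw [cc_of_le (Nat.cast_nonneg j), sg_zero]

theorem norm_cc_le (θ : ℝ) (j : ℕ) : ‖cc θ j‖ ≤ 1 := by
  have e : cc θ j = (1 - cl (θ - j)) • sg θ + cl (θ - j) • t0 := by
    unfold cc; rw [smul_sub, sub_smul, one_smul]; abel
  have h0 := cl_nonneg (θ - j)
  have h1 := cl_le_one (θ - j)
  rw [e]
  refine (norm_add_le _ _).trans ?_
  rw [norm_smul, norm_smul, Real.norm_of_nonneg h0, Real.norm_of_nonneg (by linarith)]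
  nlinarith [norm_sg_le θ, norm_t0]

theorem isRat_cc (q : ℚ) (j : ℕ) : IsRat (cc q j) := by
  obtain ⟨a, b, h⟩ := isRat_sg q
  refine ⟨a + max 0 (min 1 (q - j)) * (1 - a), b + max 0 (min 1 (q - j)) * (0 - b), ?_⟩
  simp [cc, h, cl, t0]

theorem cc_snd (θ : ℝ) (j : ℕ) : (cc θ j).2 = (1 - cl (θ - j)) * (sg θ).2 := by
  simp [cc, t0]; ring

open Classical in
noncomputable def AA (m : ℕ) (r : R) (θ : ℝ) (t : Pl) : Amb :=
  fun x => if x ∈ cylinder r m then t else cc θ (firstDiff x r)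

theorem AA_in {m : ℕ} {r x : R} (θ : ℝ) (t : Pl) (h : x ∈ cylinder r m) : AA m r θ t x = t :=
  if_pos h

theorem AA_out {m : ℕ} {r x : R} (θ : ℝ) (t : Pl) (h : x ∉ cylinder r m) :
    AA m r θ t x = cc θ (firstDiff x r) := if_neg h

theorem AA_congr {m : ℕ} {r r' x x' : R} (θ : ℝ) (t : Pl) (hx : x' ∈ cylinder x m)
    (hr : r' ∈ cylinder r m) : AA m r' θ t x' = AA m r θ t x := by
  by_cases h : x ∈ cylinder r m
  · rw [AA_in θ t h, AA_in θ t (cyl_trans hx (cyl_trans h (cyl_symm hr)))]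
  · rw [AA_out θ t h, AA_out θ t (fun h' => h (cyl_trans (cyl_symm hx) (cyl_trans h' hr))),
      firstDiff_congr h hx hr]

theorem AA_dep (m : ℕ) (r : R) (θ : ℝ) (t : Pl) : Dep m (AA m r θ t) :=
  fun _ _ hx => AA_congr θ t hx (self_mem_cylinder _ _)

theorem AA_dep' (m : ℕ) (θ : ℝ) (t : Pl) : Dep m fun r => AA m r θ t :=
  fun _ _ hr => funext fun _ => AA_congr θ t (self_mem_cylinder _ _) hr

theorem AA_mem (m : ℕ) (r : R) (θ : ℝ) {t : Pl} (ht : ‖t‖ ≤ 1) : AA m r θ t ∈ Nset := by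
  refine ⟨fun x => ?_, m, AA_dep m r θ t⟩
  unfold AA; split_ifs
  · exact ht
  · exact norm_cc_le _ _

theorem AA_memD (m : ℕ) (r : R) (q : ℚ) {t : Pl} (ht : ‖t‖ ≤ 1) (ht' : IsRat t) :
    AA m r q t ∈ Dset := by
  refine ⟨AA_mem m r q ht, fun x => ?_⟩
  unfold AA; split_ifs
  · exact ht'
  · exact isRat_cc _ _

noncomputable def uA (r : R) (θ : ℝ) : Amb := AA ⌈θ⌉₊ r θ (sg θ)

theorem uA_self (r : R) (θ : ℝ) : uA r θ r = sg θ := AA_in _ _ (self_mem_cylinder _ _)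

theorem uA_ne {r x : R} (θ : ℝ) (h : x ≠ r) : uA r θ x = cc θ (firstDiff x r) := by
  by_cases hx : x ∈ cylinder r ⌈θ⌉₊
  · rw [uA, AA_in _ _ hx, cc_of_le]
    exact Nat.ceil_le.1 ((mem_cylinder_iff_le_firstDiff h _).1 hx)
  · exact AA_out _ _ hx

theorem uA_dep (r : R) {θ : ℝ} {m : ℕ} (h : θ ≤ m) : Dep m (uA r θ) :=
  (AA_dep _ _ _ _).mono (Nat.ceil_le.2 h)

theorem uA_zero (r : R) : uA r 0 = fun _ => t0 := by
  funext x
  by_cases h : x = r
  · rw [h, uA_self, sg_zero]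
  · rw [uA_ne _ h, cc_zero]

theorem AA_eq_uA {m : ℕ} {r x : R} (θ : ℝ) (t : Pl) (h : x ∉ cylinder r m) :
    AA m r θ t x = uA r θ x := by
  rw [AA_out _ _ h, uA_ne _ (ne_of_notMem_cyl h)]

theorem continuous_uA (r : R) : Continuous (uA r) := by
  refine continuous_pi fun x => ?_
  by_cases h : x = r
  · simp only [h, uA_self]; exact continuous_sg
  · simp only [uA_ne _ h]; exact continuous_cc _

noncomputable def uN (r : R) (θ : ℝ) : NN := ⟨uA r θ, AA_mem _ _ _ (norm_sg_le θ)⟩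

theorem continuous_uN (r : R) : Continuous (uN r) := (continuous_uA r).subtype_mk _

noncomputable def uD (r : R) (q : ℚ) : DD := ⟨uA r q, AA_memD _ _ _ (norm_sg_le q) (isRat_sg q)⟩

theorem inc_uD (r : R) (q : ℚ) : inc (uD r q) = uN r q := rfl

theorem uD_dep (q : ℚ) : Dep ⌈(q : ℝ)⌉₊ fun r => uD r q :=
  fun r r' h => Subtype.ext (AA_dep' _ _ _ r r' h)

def u0 : DD := ⟨fun _ => t0, ⟨fun _ => norm_t0, 0, fun _ _ _ => rfl⟩,
  fun _ => ⟨1, 0, by simp [t0]⟩⟩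

theorem uD_zero (r : R) : uD r 0 = u0 := Subtype.ext (by simpa [uD, u0] using uA_zero r)

theorem uN_zero (r : R) : uN r 0 = inc u0 := Subtype.ext (uA_zero r)

abbrev Dat : Type := ℕ × ℚ × ℚ

/-- the approximants of the ideal points -/
noncomputable def ap (r : R) (δ : Dat) : DD :=
  ⟨AA δ.1 r δ.2.1 (-sg δ.2.2),
    AA_memD _ _ _ (by rw [norm_neg]; exact norm_sg_le _) (isRat_sg _).neg⟩

theorem ap_dep (δ : Dat) : Dep δ.1 fun r => ap r δ :=
  fun r r' h => Subtype.ext (AA_dep' _ _ _ r r' h)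

theorem ap_self (r : R) (δ : Dat) : (ap r δ).1 r = -sg δ.2.2 := AA_in _ _ (self_mem_cylinder _ _)

theorem uD_nat (r : R) (k : ℕ) :
    uD r (k + 1 : ℕ) = ap r (k + 1, 0, -((k + 1 : ℕ) : ℚ)⁻¹) := by
  refine Subtype.ext (funext fun x => ?_)
  have hk : ((k + 1 : ℕ) : ℝ) ≠ 0 := by positivity
  show AA ⌈(((k + 1 : ℕ) : ℚ) : ℝ)⌉₊ r _ _ x = AA (k + 1) r _ _ x
  rw [Rat.cast_natCast, Nat.ceil_natCast]
  by_cases hx : x ∈ cylinder r (k + 1)
  · rw [AA_in _ _ hx, AA_in _ _ hx, ← sg_neg_inv hk]; simp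
  · rw [AA_out _ _ hx, AA_out _ _ hx, cc_of_ge, Rat.cast_zero, cc_zero]
    exact_mod_cast (notMem_cyl_iff (ne_of_notMem_cyl hx) _).1 hx

open Classical in
/-- the ideal points -/
noncomputable def xi (r : R) (θ : ℝ) : Amb := Function.update (uA r θ) r (-sg θ)

theorem xi_self (r : R) (θ : ℝ) : xi r θ r = -sg θ := by simp [xi]

theorem xi_ne {r x : R} (θ : ℝ) (h : x ≠ r) : xi r θ x = uA r θ x := by simp [xi, h]

def Box (θ : ℝ) (n : ℕ) : Set Dat :=
  {δ | n ≤ δ.1 ∧ |(δ.2.1 : ℝ) - θ| < 1 / ((n : ℝ) + 1) ∧ |(δ.2.2 : ℝ) - θ| < 1 / ((n : ℝ) + 1)}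

theorem one_div_anti {n n' : ℕ} (h : n ≤ n') : 1 / ((n' : ℝ) + 1) ≤ 1 / ((n : ℝ) + 1) :=
  Nat.one_div_le_one_div h

theorem Box_anti (θ : ℝ) : Antitone (Box θ) := fun _ _ h _ hδ =>
  ⟨h.trans hδ.1, hδ.2.1.trans_le (one_div_anti h), hδ.2.2.trans_le (one_div_anti h)⟩

theorem half_div (n : ℕ) : 1 / (((2 * n + 1 : ℕ) : ℝ) + 1) = 1 / ((n : ℝ) + 1) / 2 := by
  push_cast; field_simp; ring

theorem Box_sub {θ θ' : ℝ} {n : ℕ} (h : |θ - θ'| ≤ 1 / ((n : ℝ) + 1) / 2) :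
    Box θ (2 * n + 1) ⊆ Box θ' n := by
  rintro δ ⟨h1, h2, h3⟩
  rw [half_div] at h2 h3
  refine ⟨by omega, ?_, ?_⟩
  · linarith [abs_sub_le (δ.2.1 : ℝ) θ θ']
  · linarith [abs_sub_le (δ.2.2 : ℝ) θ θ']

theorem Box_nonempty (θ : ℝ) (n m : ℕ) (hm : n ≤ m) : ∃ δ ∈ Box θ n, δ.1 = m := by
  obtain ⟨q, hq⟩ := exists_rat_near θ (ε := 1 / ((n : ℝ) + 1)) (by positivity)
  rw [abs_sub_comm] at hq
  exact ⟨(m, q, q), ⟨hm, hq, hq⟩, rfl⟩

def Fl (θ : ℝ) : Filter Dat := ⨅ n, 𝓟 (Box θ n)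

theorem Fl_basis (θ : ℝ) : (Fl θ).HasBasis (fun _ => True) (Box θ) :=
  hasBasis_iInf_principal (Box_anti θ).directed_ge

instance Fl_neBot (θ : ℝ) : (Fl θ).NeBot :=
  (Fl_basis θ).neBot_iff.2 fun {n} _ => (Box_nonempty θ n n le_rfl).imp fun _ h => h.1

theorem Box_mem (θ : ℝ) (n : ℕ) : Box θ n ∈ Fl θ := (Fl_basis θ).mem_of_mem trivial

theorem ev_Fl {θ : ℝ} {p : Dat → Prop} : (∀ᶠ δ in Fl θ, p δ) ↔ ∃ n, ∀ δ ∈ Box θ n, p δ := by
  simpa using (Fl_basis θ).eventually_iff (q := p)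

theorem tendsto_of_lt {E : Type} {𝓛 : Filter E} {g : E → ℝ} {θ : ℝ}
    (h : ∀ n : ℕ, ∀ᶠ e in 𝓛, |g e - θ| ≤ 1 / ((n : ℝ) + 1)) : Tendsto g 𝓛 (𝓝 θ) := by
  rw [Metric.tendsto_nhds]
  intro ε hε
  obtain ⟨n, hn⟩ := exists_nat_one_div_lt hε
  filter_upwards [h n] with e he using lt_of_le_of_lt he hn

theorem ev_lt_of_tendsto {E : Type} {𝓛 : Filter E} {g : E → ℝ} {θ : ℝ} (h : Tendsto g 𝓛 (𝓝 θ))
    {ε : ℝ} (hε : 0 < ε) : ∀ᶠ e in 𝓛, |g e - θ| < ε := Metric.tendsto_nhds.1 h ε hε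

theorem tendsto_Fl_fst (θ : ℝ) : Tendsto (fun δ : Dat => δ.1) (Fl θ) atTop :=
  tendsto_atTop.2 fun n => mem_of_superset (Box_mem θ n) fun _ h => h.1

theorem tendsto_Fl_1 (θ : ℝ) : Tendsto (fun δ : Dat => (δ.2.1 : ℝ)) (Fl θ) (𝓝 θ) :=
  tendsto_of_lt fun n => mem_of_superset (Box_mem θ n) fun _ h => h.2.1.le

theorem tendsto_Fl_2 (θ : ℝ) : Tendsto (fun δ : Dat => (δ.2.2 : ℝ)) (Fl θ) (𝓝 θ) :=
  tendsto_of_lt fun n => mem_of_superset (Box_mem θ n) fun _ h => h.2.2.le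

theorem tendsto_Fl {E : Type} {𝓛 : Filter E} {g : E → Dat} {θ : ℝ}
    (h0 : Tendsto (fun e => (g e).1) 𝓛 atTop) (h1 : Tendsto (fun e => ((g e).2.1 : ℝ)) 𝓛 (𝓝 θ))
    (h2 : Tendsto (fun e => ((g e).2.2 : ℝ)) 𝓛 (𝓝 θ)) : Tendsto g 𝓛 (Fl θ) := by
  rw [(Fl_basis θ).tendsto_right_iff]
  intro n _
  filter_upwards [h0.eventually_ge_atTop n, ev_lt_of_tendsto h1 (ε := 1 / ((n : ℝ) + 1))
    (by positivity), ev_lt_of_tendsto h2 (ε := 1 / ((n : ℝ) + 1)) (by positivity)] with e a b c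
  exact ⟨a, b, c⟩

theorem tendsto_diag (q : ℚ) : Tendsto (fun m : ℕ => ((m, q, q) : Dat)) atTop (Fl q) :=
  tendsto_Fl tendsto_id tendsto_const_nhds tendsto_const_nhds

theorem tendsto_ap (r : R) (θ : ℝ) : Tendsto (fun δ => (ap r δ).1) (Fl θ) (𝓝 (xi r θ)) := by
  rw [tendsto_pi_nhds]
  intro x
  by_cases h : x = r
  · simp only [h, ap_self, xi_self]
    exact ((continuous_sg.tendsto θ).comp (tendsto_Fl_2 θ)).neg
  · rw [xi_ne _ h, uA_ne _ h]
    refine (((continuous_cc _).tendsto θ).comp (tendsto_Fl_1 θ)).congr' ?_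
    filter_upwards [(tendsto_Fl_fst θ).eventually_gt_atTop (firstDiff x r)] with δ hδ
    exact (AA_out _ _ ((notMem_cyl_iff h _).2 hδ)).symm

theorem tendsto_uD (r : R) (θ : ℝ) :
    Tendsto (fun δ : Dat => inc (uD r δ.2.1)) (Fl θ) (𝓝 (uN r θ)) :=
  ((continuous_uN r).tendsto θ).comp (tendsto_Fl_1 θ)

/-! the countable set of eventually false sequences -/

def Qset : Set R := range fun (s : Finset ℕ) (i : ℕ) => decide (i ∈ s)

theorem countable_Qset : Qset.Countable := countable_range _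

def qq (r : R) (j : ℕ) : R := fun i => if i < j then r i else if i = j then !r j else false

theorem qq_mem (r : R) (j : ℕ) : qq r j ∈ Qset := by
  refine ⟨(Finset.range (j + 1)).filter fun i => qq r j i = true, funext fun i => ?_⟩
  by_cases h : i < j + 1
  · simp [h]
  · have h1 : ¬ i < j := by omega
    have h2 : ¬ i = j := by omega
    simp [h, qq, h1, h2]

theorem qq_ne (r : R) (j : ℕ) : qq r j ≠ r := fun h => by
  have := congrFun h j
  simp [qq] at this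

theorem qq_mem_cyl {r : R} {j m : ℕ} : qq r j ∈ cylinder r m ↔ m ≤ j := by
  constructor
  · intro h
    by_contra hc
    have := h j (not_le.1 hc)
    simp [qq] at this
  · intro h i hi
    simp [qq, lt_of_lt_of_le hi h]

theorem firstDiff_qq (r : R) (j : ℕ) : firstDiff (qq r j) r = j := by
  refine le_antisymm ?_ ((mem_cylinder_iff_le_firstDiff (qq_ne r j) j).1 (qq_mem_cyl.2 le_rfl))
  exact qq_mem_cyl.1 (mem_cylinder_firstDiff _ _)

theorem qq_dep (j : ℕ) : Dep (j + 1) fun r => qq r j := fun r r' h => funext fun i => by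
  simp only [qq]
  split_ifs with h1 h2
  · exact h i (by omega)
  · rw [h j (by omega)]
  · rfl

/-! measurability of evaluation at a locally constant point -/

theorem measurable_eval {g : R → DD} {m : ℕ} (hg : Dep m g) :
    Measurable fun p : (DD → ℝ) × R => p.1 (g p.2) := by
  have h1 : ∀ d, MeasurableSet (g ⁻¹' {d}) := fun d => (hg.lc.isOpen_fiber d).measurableSet
  let : MeasurableSpace DD := ⊤
  have h2 : Measurable g := measurable_to_countable' h1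
  have h3 : Measurable fun p : (DD → ℝ) × DD => p.1 p.2 :=
    measurable_from_prod_countable_left fun d => measurable_pi_apply d
  exact h3.comp (measurable_fst.prodMk (h2.comp measurable_snd))

end Pool.Agent.P.MP_fa84b3_gt.Cx
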