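import Mathlib

/-!
A Bernstein-type diagonalisation on the Cantor set.
-/

namespace Pool.Agent.P.MP_fa84b3_gt

open Set Filter Topology

section diag
open Cardinal

theorem bern_card : #(ℕ → Bool) = 𝔠 := by simp

theorem bern_small_union {ι : Type} (h : #ι < 𝔠) (f : ι → Set (ℕ → Bool))
    (hf : ∀ i, (f i).Countable) : #(⋃ i, f i) < 𝔠 :=
  (mk_iUnion_le f).trans_lt (mul_lt_of_lt aleph0_le_continuum h
    ((ciSup_le' fun i => (hf i).le_aleph0).trans_lt aleph0_lt_continuum))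

theorem bern_diag {L : Type} (hL : #L ≤ 𝔠) (M : L → (ℕ → Bool) → Set (ℕ → Bool))
    (hM : ∀ l p, (M l p).Countable) (hM' : ∀ l r, {p | r ∈ M l p}.Countable)
    (Q : Set (ℕ → Bool)) (hQ : Q.Countable) :
    ∃ p : L → ℕ → Bool, (∀ l, Disjoint (M l (p l)) Q) ∧
      ∀ l l', l ≠ l' → Disjoint (M l (p l)) (M l' (p l')) := by
  obtain ⟨emb⟩ : Nonempty (L ↪ (𝔠 : Cardinal.{0}).ord.ToType) := by
    rw [← Cardinal.le_def]; simpa using hL
  let r : L → L → Prop := fun l l' => emb l < emb l'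
  have wf : WellFounded r := InvImage.wf emb wellFounded_lt
  have hseg : ∀ l, #{l' // r l' l} < 𝔠 := by
    intro l
    refine lt_of_le_of_lt ?_ (mk_Iio_toType_ord_lt (emb l))
    exact mk_le_of_injective (f := fun l' => ⟨emb l'.1, l'.2⟩)
      (fun a b h => Subtype.ext (emb.injective (congrArg Subtype.val h)))
  have step : ∀ (l : L) (f : (l' : L) → r l' l → ℕ → Bool), ∃ p, Disjoint (M l p) Q ∧
      ∀ l' (h : r l' l), Disjoint (M l p) (M l' (f l' h)) := by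
    intro l f
    let B : Set (ℕ → Bool) := Q ∪ ⋃ l' : {l' // r l' l}, M l'.1 (f l'.1 l'.2)
    have hB : #B < 𝔠 := (mk_union_le _ _).trans_lt (add_lt_of_lt aleph0_le_continuum
      (hQ.le_aleph0.trans_lt aleph0_lt_continuum) (bern_small_union (hseg l) _ fun _ => hM _ _))
    have hB' := bern_small_union hB (fun x : B => {p | x.1 ∈ M l p}) (fun x => hM' l x.1)
    have : (⋃ x : B, {p | x.1 ∈ M l p}) ≠ Set.univ := by
      intro e
      rw [e, mk_univ, bern_card] at hB'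
      exact lt_irrefl _ hB'
    obtain ⟨p, hp⟩ := (ne_univ_iff_exists_notMem _).1 this
    refine ⟨p, ?_, ?_⟩
    · rw [Set.disjoint_left]
      intro x hx hxQ
      exact hp (mem_iUnion.2 ⟨⟨x, Or.inl hxQ⟩, hx⟩)
    · intro l' h
      rw [Set.disjoint_left]
      intro x hx hx'
      exact hp (mem_iUnion.2 ⟨⟨x, Or.inr (mem_iUnion.2 ⟨⟨l', h⟩, hx'⟩)⟩, hx⟩)
  choose S hS1 hS2 using step
  let p : L → ℕ → Bool := wf.fix S
  have hp : ∀ l, p l = S l (fun l' _ => p l') := fun l => wf.fix_eq S l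
  have h2 : ∀ l l', r l' l → Disjoint (M l (p l)) (M l' (p l')) := by
    intro l l' h
    rw [hp l]
    exact hS2 l (fun l' _ => p l') l' h
  refine ⟨p, fun l => by rw [hp l]; exact hS1 _ _, fun l l' hne => ?_⟩
  rcases lt_or_gt_of_ne (fun e => hne (emb.injective e)) with h | h
  · exact (h2 l' l h).symm
  · exact h2 l l' h

theorem bern_card_tasks :
    #((List Bool → (ℕ → ℕ → Bool) × (ℕ → ℝ) × (ℕ → Prop)) ⊕ (ℕ → Bool)) ≤ 𝔠 := by
  simp [Cardinal.mk_real]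

end diag

/-- slot `n` moves on `A`: no single value is taken on a big part of `A` -/
def bernMv {E : Type} (𝓕 : Filter E) (a : ℕ → E → ℕ → Bool) (A : Set E) (n : ℕ) : Prop :=
  ∀ r, ∀ᶠ e in 𝓕, ¬ (e ∈ A ∧ a n e = r)

theorem bernMv.mono {E : Type} {𝓕 : Filter E} {a : ℕ → E → ℕ → Bool} {A B : Set E} {n : ℕ}
    (h : bernMv 𝓕 a A n) (hB : B ⊆ A) : bernMv 𝓕 a B n :=
  fun r => (h r).mono fun _ he h' => he ⟨hB h'.1, h'.2⟩

theorem bern_split {E : Type} (𝓕 : Filter E) [CountableInterFilter 𝓕] (a : ℕ → E → ℕ → Bool)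
    (A : Set E) (hA : ∃ᶠ e in 𝓕, e ∈ A) (t : Finset ℕ) (ht : ∀ n ∈ t, bernMv 𝓕 a A n) :
    ∃ B : Bool → Set E, (∀ b, B b ⊆ A ∧ ∃ᶠ e in 𝓕, e ∈ B b) ∧
      ∀ n ∈ t, ∃ W : Set (ℕ → Bool), IsClopen W ∧ (∀ e ∈ B false, a n e ∈ W) ∧
        ∀ e ∈ B true, a n e ∉ W := by
  have hne : (𝓕 ⊓ 𝓟 A).NeBot := frequently_mem_iff_neBot.1 hA
  let U := Ultrafilter.of (𝓕 ⊓ 𝓟 A)
  have hU : (U : Filter E) ≤ 𝓕 ⊓ 𝓟 A := Ultrafilter.of_le _
  have hlim : ∀ n, ∃ x0 : ℕ → Bool, Tendsto (a n) U (𝓝 x0) := by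
    intro n
    obtain ⟨x0, -, h⟩ := isCompact_univ.ultrafilter_le_nhds (U.map (a n)) (by simp)
    exact ⟨x0, h⟩
  choose x0 hx0 using hlim
  let W : ℕ → ℕ → Set (ℕ → Bool) := fun n l => ⋂ j ∈ Finset.range l, {y | y j = x0 n j}
  have hW : ∀ n l, IsClopen (W n l) := fun n l =>
    isClopen_biInter_finset fun j _ => (isClopen_discrete {x0 n j}).preimage (continuous_apply j)
  have h0 : ∀ l, ∃ᶠ e in 𝓕, e ∈ {e | e ∈ A ∧ ∀ n ∈ t, a n e ∈ W n l} := by
    intro l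
    have h1 : ∀ᶠ e in (U : Filter E), e ∈ A := (hU.trans inf_le_right) (mem_principal_self A)
    have h2 : ∀ᶠ e in (U : Filter E), ∀ n ∈ t, a n e ∈ W n l :=
      (eventually_all_finset t).2 fun n _ =>
        hx0 n ((hW n l).isOpen.mem_nhds (by simp [W]))
    exact ((h1.and h2).frequently).filter_mono (hU.trans inf_le_left)
  have h1 : ∃ l, ∃ᶠ e in 𝓕, e ∈ {e | e ∈ A ∧ ∀ n ∈ t, a n e ∉ W n l} := by
    by_contra hcon
    simp only [not_exists, not_frequently] at hcon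
    have a1 := eventually_countable_forall.2 hcon
    have a2 := (eventually_all_finset t).2 fun n hn => ht n hn (x0 n)
    obtain ⟨e, he, he1, he2⟩ := (hA.and_eventually (a1.and a2)).exists
    have : ∀ᶠ l in atTop, ∀ n ∈ t, a n e ∉ W n l := by
      refine (eventually_all_finset t).2 fun n hn => ?_
      obtain ⟨j, hj⟩ := Function.ne_iff.1 (fun h => he2 n hn ⟨he, h⟩)
      filter_upwards [eventually_gt_atTop j] with l hl h
      simp only [W, mem_iInter, Finset.mem_range] at h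
      exact hj (h j hl)
    obtain ⟨l, hl⟩ := this.exists
    exact he1 l ⟨he, hl⟩
  obtain ⟨l, hl⟩ := h1
  refine ⟨fun b => cond b {e | e ∈ A ∧ ∀ n ∈ t, a n e ∉ W n l}
    {e | e ∈ A ∧ ∀ n ∈ t, a n e ∈ W n l}, ?_, ?_⟩
  · intro b
    cases b
    · exact ⟨fun _ h => h.1, h0 l⟩
    · exact ⟨fun _ h => h.1, hl⟩
  · intro n hn
    exact ⟨W n l, hW n l, fun e he => he.2 n hn, fun e he => he.2 n hn⟩

theorem bern_scheme {E X : Type} [TopologicalSpace X] [SecondCountableTopology X]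
    [TopologicalSpace.IsCompletelyMetrizableSpace X] (𝓕 : Filter E) [𝓕.NeBot]
    [CountableInterFilter 𝓕] (a : ℕ → E → ℕ → Bool) (Φ : E → X) :
    ∃ I : List Bool → Set E, (∀ s, ∃ᶠ e in 𝓕, e ∈ I s) ∧ (∀ b s, I (b :: s) ⊆ I s) ∧
      (∀ b s, bernMv 𝓕 a (I (b :: s)) s.length ∨ ∃ r, ∀ e ∈ I (b :: s), a s.length e = r) ∧
      (∀ s n, n ≤ s.length → bernMv 𝓕 a (I s) n → ∃ W : Set (ℕ → Bool), IsClopen W ∧
        (∀ e ∈ I (false :: s), a n e ∈ W) ∧ ∀ e ∈ I (true :: s), a n e ∉ W) ∧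
      ∀ p : ℕ → Bool, ∃ v, Tendsto Φ (⨅ k, 𝓟 (I (PiNat.res p k))) (𝓝 v) := by
  classical
  let _ := TopologicalSpace.upgradeIsCompletelyMetrizable X
  obtain ⟨D, hDc, hD⟩ := TopologicalSpace.exists_countable_dense X
  have step : ∀ (A : Set E) (k : ℕ), ∃ B : Bool → Set E, (∃ᶠ e in 𝓕, e ∈ A) →
      (∀ b, B b ⊆ A ∧ (∃ᶠ e in 𝓕, e ∈ B b) ∧
        (bernMv 𝓕 a (B b) k ∨ ∃ r, ∀ e ∈ B b, a k e = r) ∧
        ∃ v, ∀ e ∈ B b, dist (Φ e) v < 1 / ((k : ℝ) + 1)) ∧
      ∀ n, n ≤ k → bernMv 𝓕 a A n → ∃ W : Set (ℕ → Bool), IsClopen W ∧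
        (∀ e ∈ B false, a n e ∈ W) ∧ ∀ e ∈ B true, a n e ∉ W := by
    intro A k
    by_cases hA : ∃ᶠ e in 𝓕, e ∈ A
    swap
    · exact ⟨fun _ => ∅, fun h => absurd h hA⟩
    obtain ⟨A1, s1, b1, d1⟩ : ∃ A1, A1 ⊆ A ∧ (∃ᶠ e in 𝓕, e ∈ A1) ∧
        (bernMv 𝓕 a A1 k ∨ ∃ r, ∀ e ∈ A1, a k e = r) := by
      by_cases h : bernMv 𝓕 a A k
      · exact ⟨A, Subset.rfl, hA, Or.inl h⟩
      · obtain ⟨r, hr⟩ := not_forall.1 h
        exact ⟨{e | e ∈ A ∧ a k e = r}, fun _ h => h.1, hr, Or.inr ⟨r, fun _ h => h.2⟩⟩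
    obtain ⟨v, hv⟩ : ∃ v, ∃ᶠ e in 𝓕, e ∈ {e | e ∈ A1 ∧ dist (Φ e) v < 1 / ((k : ℝ) + 1)} := by
      by_contra hcon
      simp only [not_exists, not_frequently] at hcon
      have a1 := (eventually_countable_ball hDc).2 fun v _ => hcon v
      obtain ⟨e, he, he1⟩ := (b1.and_eventually a1).exists
      obtain ⟨v, hvD, hv⟩ := hD.exists_dist_lt (Φ e) (ε := 1 / ((k : ℝ) + 1)) (by positivity)
      exact he1 v hvD ⟨he, hv⟩
    obtain ⟨B, hB1, hB2⟩ := bern_split 𝓕 a _ hv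
      ((Finset.range (k + 1)).filter (fun n => bernMv 𝓕 a A n))
      (fun n hn => (Finset.mem_filter.1 hn).2.mono fun _ h => s1 h.1)
    refine ⟨B, fun _ => ⟨fun b => ⟨fun _ h => s1 ((hB1 b).1 h).1, (hB1 b).2, ?_,
      v, fun _ h => ((hB1 b).1 h).2⟩, fun n hn h => hB2 n ?_⟩⟩
    · rcases d1 with h | ⟨r, hr⟩
      · exact Or.inl (h.mono fun _ h => ((hB1 b).1 h).1)
      · exact Or.inr ⟨r, fun e h => hr e ((hB1 b).1 h).1⟩
    · exact Finset.mem_filter.2 ⟨Finset.mem_range.2 (by omega), h⟩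
  choose S hS using step
  let I : List Bool → Set E := fun s => List.rec univ (fun b s Is => S Is s.length b) s
  have hI : ∀ b s, I (b :: s) = S (I s) s.length b := fun _ _ => rfl
  have big : ∀ s, ∃ᶠ e in 𝓕, e ∈ I s := by
    intro s
    induction s with
    | nil => exact Frequently.of_forall fun _ => mem_univ _
    | cons b s ih => exact ((hS _ _ ih).1 b).2.1
  have sub : ∀ b s, I (b :: s) ⊆ I s := fun b s => ((hS _ _ (big s)).1 b).1
  refine ⟨I, big, sub, fun b s => ((hS _ _ (big s)).1 b).2.2.1,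
    fun s n hn h => (hS _ _ (big s)).2 n hn h, fun p => ?_⟩
  have anti : Antitone fun k => I (PiNat.res p k) :=
    antitone_nat_of_succ_le fun k => sub _ _
  have hne : (⨅ k, 𝓟 (I (PiNat.res p k))).NeBot := by
    have : Nonempty E := nonempty_of_neBot 𝓕
    refine iInf_neBot_of_directed ?_ fun k => principal_neBot_iff.2 (big _).exists
    exact Antitone.directed_ge fun i j h => principal_mono.2 (anti h)
  refine cauchy_map_iff_exists_tendsto.1 (Metric.cauchy_iff.2 ⟨hne.map _, fun ε hε => ?_⟩)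
  obtain ⟨k, hk⟩ := exists_nat_one_div_lt (half_pos hε)
  obtain ⟨v, hv⟩ := ((hS _ (PiNat.res p k).length (big (PiNat.res p k))).1 (p k)).2.2.2
  rw [PiNat.res_length] at hv
  refine ⟨Metric.ball v (ε / 2), ?_, fun y hy z hz => ?_⟩
  · refine mem_map.2 (mem_iInf_of_mem (k + 1) (mem_principal.2 fun e he => ?_))
    rw [PiNat.res_succ, hI, PiNat.res_length] at he
    exact (hv e he).trans hk
  · have := dist_triangle_right y z v
    rw [Metric.mem_ball] at hy hz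
    linarith

theorem bern (Q : Set (ℕ → Bool)) (hQ : Q.Countable) :
    ∃ (Bd : Set (ℕ → Bool)) (d : (ℕ → Bool) → ℝ), (∀ r, 0 ≤ d r) ∧ Disjoint Bd Q ∧
      ¬ Bdᶜ.Countable ∧
      ∀ (E ι : Type) [Countable ι] (𝓕 : Filter E) [𝓕.NeBot] [CountableInterFilter 𝓕]
        (a : ℕ → E → ℕ → Bool) (θ : ℕ → E → ℝ) (γ : ι → E → ℕ) (x : ι → E → ℝ),
        (∀ n e, 0 ≤ θ n e) →
        ∃ (𝓛 : Filter E) (ρ : ℕ → ℕ → Bool) (Θ : ℕ → ℝ), 𝓛 ≤ 𝓕 ∧ 𝓛.NeBot ∧
          (∀ i, ∃ v, ∀ᶠ e in 𝓛, γ i e = v) ∧ (∀ i, ∃ v, Tendsto (x i) 𝓛 (𝓝 v)) ∧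
          (∀ n, Tendsto (a n) 𝓛 (𝓝 (ρ n))) ∧ (∀ n, Tendsto (θ n) 𝓛 (𝓝 (Θ n))) ∧
          ∀ n, (∀ᶠ e in 𝓛, a n e = ρ n) ∨
            (ρ n ∈ Bd ∧ ∃ n', ρ n' = ρ n ∧ d (ρ n) = Θ n') := by
  classical
  let T := List Bool → (ℕ → ℕ → Bool) × (ℕ → ℝ) × (ℕ → Prop)
  let rho : T → (ℕ → Bool) → ℕ → ℕ → Bool := fun t p n =>
    limUnder atTop (fun k => (t (PiNat.res p k)).1 n)
  let Th : T → (ℕ → Bool) → ℕ → ℝ := fun t p n =>
    limUnder atTop (fun k => (t (PiNat.res p k)).2.1 n)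
  let mov : T → (ℕ → Bool) → ℕ → Prop := fun t p n => (t (PiNat.res p (n + 1))).2.2 n
  let good : T → Prop := fun t => ∀ r, {p | ∃ n, mov t p n ∧ rho t p n = r}.Countable
  let M : T ⊕ (ℕ → Bool) → (ℕ → Bool) → Set (ℕ → Bool) := fun l p =>
    Sum.elim (fun t => {r | good t ∧ ∃ n, mov t p n ∧ rho t p n = r}) (fun _ => {p}) l
  obtain ⟨P, hPQ, hP⟩ := bern_diag bern_card_tasks M
    (by
      rintro (t | r) p
      · exact (countable_range (rho t p)).mono fun r hr => by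
          obtain ⟨-, n, -, h⟩ := hr
          exact ⟨n, h⟩
      · exact countable_singleton p)
    (by
      rintro (t | r') r
      · by_cases h : good t
        · exact (h r).mono fun p hp => hp.2
        · exact countable_empty.mono fun p hp => h hp.1
      · exact (countable_singleton r).mono fun p hp => (mem_singleton_iff.1 hp).symm)
    Q hQ
  let d : (ℕ → Bool) → ℝ := fun r =>
    if h : ∃ z : T × ℕ, good z.1 ∧ mov z.1 (P (Sum.inl z.1)) z.2 ∧
      rho z.1 (P (Sum.inl z.1)) z.2 = r then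
      max 0 (Th h.choose.1 (P (Sum.inl h.choose.1)) h.choose.2) else 0
  refine ⟨⋃ t : T, M (Sum.inl t) (P (Sum.inl t)), d, ?_, ?_, ?_, ?_⟩
  · intro r
    simp only [d]
    split_ifs
    · exact le_max_left _ _
    · exact le_rfl
  · exact disjoint_iUnion_left.2 fun t => hPQ _
  · intro hc
    have h1 : (univ : Set (ℕ → Bool)).Countable := by
      refine MapsTo.countable_of_injOn (f := fun r => P (Sum.inr r)) ?_ ?_ hc
      · intro r _ hr
        obtain ⟨t, ht⟩ := mem_iUnion.1 hr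
        exact Set.disjoint_left.1 (hP (Sum.inl t) (Sum.inr r) Sum.inl_ne_inr) ht rfl
      · intro r _ r' _ e
        by_contra hne
        exact Set.disjoint_left.1 (hP (Sum.inr r) (Sum.inr r') (by simpa using hne)) rfl e
    have h2 := h1.le_aleph0
    rw [Cardinal.mk_univ, bern_card] at h2
    exact absurd h2 (not_le.2 Cardinal.aleph0_lt_continuum)
  intro E ι _ 𝓕 _ _ a θ γ x hθ
  obtain ⟨I, big, sub, dec, sep, conv⟩ := bern_scheme
    (X := (ℕ → ℕ → Bool) × (ℕ → ℝ) × (ι → ℕ) × (ι → ℝ)) 𝓕 a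
    (fun e => (fun n => a n e, fun n => θ n e, fun i => γ i e, fun i => x i e))
  choose ee hee using fun s => (big s).exists
  let t : T := fun s => (fun n => a n (ee s), fun n => θ n (ee s), fun n => bernMv 𝓕 a (I s) n)
  have anti : ∀ p : ℕ → Bool, Antitone fun k => I (PiNat.res p k) := fun p =>
    antitone_nat_of_succ_le fun k => sub _ _
  have seq : ∀ p : ℕ → Bool, Tendsto (fun k => ee (PiNat.res p k)) atTop
      (⨅ k, 𝓟 (I (PiNat.res p k))) := fun p =>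
    tendsto_iInf.2 fun k => tendsto_principal.2
      ((eventually_ge_atTop k).mono fun j hj => anti p hj (hee _))
  have ha : ∀ p n, Tendsto (a n) (⨅ k, 𝓟 (I (PiNat.res p k))) (𝓝 (rho t p n)) := by
    intro p n
    obtain ⟨v, hv⟩ := conv p
    have h1 := tendsto_pi_nhds.1 hv.fst_nhds n
    have : rho t p n = v.1 n := (h1.comp (seq p)).limUnder_eq
    rw [this]; exact h1
  have hth : ∀ p n, Tendsto (θ n) (⨅ k, 𝓟 (I (PiNat.res p k))) (𝓝 (Th t p n)) := by
    intro p n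
    obtain ⟨v, hv⟩ := conv p
    have h1 := tendsto_pi_nhds.1 hv.snd_nhds.fst_nhds n
    have : Th t p n = v.2.1 n := (h1.comp (seq p)).limUnder_eq
    rw [this]; exact h1
  have hcl : ∀ (p : ℕ → Bool) n k (W : Set (ℕ → Bool)), IsClosed W →
      (∀ e ∈ I (PiNat.res p k), a n e ∈ W) → rho t p n ∈ W := fun p n k W hW h =>
    hW.mem_of_tendsto ((ha p n).comp (seq p))
      ((eventually_ge_atTop k).mono fun j hj => h _ (anti p hj (hee _)))
  have hgood : good t := by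
    intro r
    rw [show {p | ∃ n, mov t p n ∧ rho t p n = r} = ⋃ n, {p | mov t p n ∧ rho t p n = r} by
      ext p; simp]
    refine countable_iUnion fun n => MapsTo.countable_of_injOn
      (f := fun p => PiNat.res p (n + 1)) (mapsTo_univ _ _) ?_ countable_univ
    rintro p ⟨h1, h2⟩ p' ⟨-, h3⟩ e
    by_contra hne
    have hex := Function.ne_iff.1 hne
    set m := Nat.find hex with hm
    have hm1 : p m ≠ p' m := Nat.find_spec hex
    have hm2 : PiNat.res p m = PiNat.res p' m :=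
      PiNat.res_eq_res.2 fun j hj => not_not.1 (Nat.find_min hex hj)
    have hm3 : n + 1 ≤ m := by
      by_contra h
      exact hm1 (PiNat.res_eq_res.1 e (not_le.1 h))
    obtain ⟨W, hW, w0, w1⟩ := sep (PiNat.res p m) n (by rw [PiNat.res_length]; omega)
      (bernMv.mono h1 (anti p hm3))
    have c0 : ∀ q : ℕ → Bool, PiNat.res q m = PiNat.res p m → q m = false → rho t q n ∈ W :=
      fun q e1 e2 => hcl q n (m + 1) W hW.isClosed (by rw [PiNat.res_succ, e1, e2]; exact w0)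
    have c1 : ∀ q : ℕ → Bool, PiNat.res q m = PiNat.res p m → q m = true → rho t q n ∈ Wᶜ :=
      fun q e1 e2 => hcl q n (m + 1) Wᶜ hW.compl.isClosed
        (by rw [PiNat.res_succ, e1, e2]; exact w1)
    cases hb : p m
    · have hb' : p' m = true := by
        rw [hb] at hm1
        simpa using hm1.symm
      exact c1 p' hm2.symm hb' (by rw [h3, ← h2]; exact c0 p rfl hb)
    · have hb' : p' m = false := by
        rw [hb] at hm1
        simpa using hm1.symm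
      exact c1 p rfl hb (by rw [h2, ← h3]; exact c0 p' hm2.symm hb')
  set p := P (Sum.inl t) with hp
  have hle : (⨅ k, (𝓕 ⊓ 𝓟 (I (PiNat.res p k)))) ≤ ⨅ k, 𝓟 (I (PiNat.res p k)) :=
    iInf_mono fun k => inf_le_right
  have hne : (⨅ k, (𝓕 ⊓ 𝓟 (I (PiNat.res p k)))).NeBot := by
    have : Nonempty E := nonempty_of_neBot 𝓕
    refine iInf_neBot_of_directed ?_ fun k => frequently_mem_iff_neBot.1 (big _)
    exact Antitone.directed_ge fun i j h => inf_le_inf_left _ (principal_mono.2 (anti p h))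
  obtain ⟨v, hv⟩ := conv p
  refine ⟨⨅ k, (𝓕 ⊓ 𝓟 (I (PiNat.res p k))), rho t p, Th t p, (iInf_le _ 0).trans inf_le_left,
    hne, fun i => ⟨v.2.2.1 i, ?_⟩, fun i => ⟨v.2.2.2 i, ?_⟩, fun n => (ha p n).mono_left hle,
    fun n => (hth p n).mono_left hle, fun n => ?_⟩
  · have h1 := (tendsto_pi_nhds.1 hv.snd_nhds.snd_nhds.fst_nhds i).mono_left hle
    rw [nhds_discrete, tendsto_pure] at h1
    exact h1
  · exact (tendsto_pi_nhds.1 hv.snd_nhds.snd_nhds.snd_nhds i).mono_left hle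
  · have h0 := dec (p n) (PiNat.res p n)
    rw [PiNat.res_length, ← PiNat.res_succ] at h0
    rcases h0 with h | ⟨r, hr⟩
    · right
      have hex : ∃ z : T × ℕ, good z.1 ∧ mov z.1 (P (Sum.inl z.1)) z.2 ∧
          rho z.1 (P (Sum.inl z.1)) z.2 = rho t p n := ⟨(t, n), hgood, h, rfl⟩
      have hmem : rho t p n ∈ M (Sum.inl t) p := ⟨hgood, n, h, rfl⟩
      refine ⟨mem_iUnion.2 ⟨t, hmem⟩, ?_⟩
      have hd : d (rho t p n) =
          max 0 (Th hex.choose.1 (P (Sum.inl hex.choose.1)) hex.choose.2) := dif_pos hex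
      have hsp := hex.choose_spec
      generalize hex.choose = z at hd hsp
      obtain ⟨t', n'⟩ := z
      have ht' : t' = t := by
        by_contra hne'
        exact Set.disjoint_left.1 (hP (Sum.inl t') (Sum.inl t) (by simpa using hne'))
          ⟨hsp.1, n', hsp.2.1, hsp.2.2⟩ hmem
      subst ht'
      refine ⟨n', hsp.2.2, ?_⟩
      rw [hd]
      exact max_eq_right (ge_of_tendsto' ((hth p n').mono_left hle) (hθ n'))
    · left
      have e : rho t p n = r := hcl p n (n + 1) {r} isClosed_singleton hr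
      rw [e]
      exact hle (mem_iInf_of_mem (n + 1) (mem_principal.2 hr))

end Pool.Agent.P.MP_fa84b3_gt
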