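import Mathlib

/-!
Closed embeddings of Polish spaces into a countable power of the line, and parametrisation of
Borel sets by closed sets.
-/

namespace Pool.Agent.P.MP_fa84b3_gt.Cx

open Set Filter Topology

/-- index set of the free coordinates -/
abbrev J : Type := ℕ ⊕ ℕ

theorem exists_closedEmbedding (P : Type) [TopologicalSpace P] [PolishSpace P] :
    ∃ ι : P → (J → ℝ), IsClosedEmbedding ι := by
  rcases isEmpty_or_nonempty P with hP | hP
  · refine ⟨fun _ => 0, IsClosedEmbedding.of_continuous_injective_isClosedMap continuous_const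
      (fun x => (hP.false x).elim) (fun s _ => ?_)⟩
    rw [Set.eq_empty_of_isEmpty s]; simp
  let := TopologicalSpace.upgradeIsCompletelyMetrizable P
  set a : ℕ → P := TopologicalSpace.denseSeq P with ha
  have hd : DenseRange a := TopologicalSpace.denseRange_denseSeq P
  let t : ℕ → ℕ → P → ℝ := fun k n x => (1 / 2 : ℝ) ^ n * max 0 (1 / ((k : ℝ) + 1) - dist x (a n))
  have ht0 : ∀ k n x, 0 ≤ t k n x := fun k n x => by positivity
  have ht1 : ∀ k n x, t k n x ≤ (1 / 2 : ℝ) ^ n := fun k n x => by
    have h1 : 1 / ((k : ℝ) + 1) ≤ 1 := by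
      rw [div_le_one (by positivity)]; linarith [(Nat.cast_nonneg k : (0 : ℝ) ≤ k)]
    have : max 0 (1 / ((k : ℝ) + 1) - dist x (a n)) ≤ 1 :=
      max_le zero_le_one (by linarith [dist_nonneg (x := x) (y := a n)])
    calc t k n x ≤ (1 / 2 : ℝ) ^ n * 1 := by
          exact mul_le_mul_of_nonneg_left this (by positivity)
      _ = _ := mul_one _
  have hsum : ∀ k x, Summable fun n => t k n x := fun k x =>
    Summable.of_nonneg_of_le (fun n => ht0 k n x) (fun n => ht1 k n x) summable_geometric_two
  let f : ℕ → P → ℝ := fun k x => ∑' n, t k n x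
  have hfc : ∀ k, Continuous (f k) := fun k => by
    refine continuous_tsum (fun n => ?_) summable_geometric_two (fun n x => ?_)
    · exact continuous_const.mul (continuous_const.max (continuous_const.sub (by fun_prop)))
    · rw [Real.norm_eq_abs, abs_of_nonneg (ht0 k n x)]; exact ht1 k n x
  have hfp : ∀ k x, 0 < f k x := fun k x => by
    obtain ⟨n, hn⟩ := hd.exists_dist_lt x (ε := 1 / ((k : ℝ) + 1)) (by positivity)
    refine (hsum k x).tsum_pos (fun n => ht0 k n x) n ?_
    have : 0 < max 0 (1 / ((k : ℝ) + 1) - dist x (a n)) := lt_max_of_lt_right (by linarith)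
    positivity
  let ι : P → (J → ℝ) := fun x => Sum.elim (fun n => dist x (a n)) (fun k => (f k x)⁻¹)
  have hc : Continuous ι := by
    refine continuous_pi fun j => ?_
    rcases j with n | k
    · exact (by fun_prop : Continuous fun x => dist x (a n))
    · exact (hfc k).inv₀ fun x => (hfp k x).ne'
  have hi : Function.Injective ι := by
    intro x y hxy
    have h1 : ∀ n, dist x (a n) = dist y (a n) := fun n => congrFun hxy (Sum.inl n)
    refine eq_of_forall_dist_le fun ε hε => ?_
    obtain ⟨n, hn⟩ := hd.exists_dist_lt x (ε := ε / 2) (by positivity)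
    have := dist_triangle_right x y (a n)
    linarith [h1 n]
  have hp : IsProperMap ι := by
    rw [isProperMap_iff_ultrafilter_of_t2]
    refine ⟨hc, fun 𝒰 y hy => ?_⟩
    have hcau : Cauchy (𝒰 : Filter P) := by
      rw [Metric.cauchy_iff]
      refine ⟨𝒰.neBot, fun ε hε => ?_⟩
      obtain ⟨k, hk⟩ := exists_nat_one_div_lt (half_pos hε)
      have h1 : Tendsto (fun x => (f k x)⁻¹) 𝒰 (𝓝 (y (Sum.inr k))) :=
        ((continuous_apply (Sum.inr k)).tendsto y).comp hy
      have h2 : ∀ᶠ x in (𝒰 : Filter P), (f k x)⁻¹ < |y (Sum.inr k)| + 1 :=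
        h1.eventually (gt_mem_nhds (by linarith [le_abs_self (y (Sum.inr k))]))
      set M := |y (Sum.inr k)| + 1 with hM
      have hMp : 0 < M := by positivity
      obtain ⟨N, hN⟩ : ∃ N : ℕ, (1 / 2 : ℝ) ^ N < M⁻¹ / 2 :=
        exists_pow_lt_of_lt_one (by positivity) (by norm_num)
      have h3 : ∀ᶠ x in (𝒰 : Filter P), ∃ n ∈ Finset.range N,
          dist x (a n) < 1 / ((k : ℝ) + 1) := by
        filter_upwards [h2] with x hx
        by_contra hcon
        push Not at hcon
        have h4 : M⁻¹ < f k x := by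
          rw [inv_lt_comm₀ hMp (hfp k x)]; exact hx
        have h5 : f k x ≤ 2 * (1 / 2 : ℝ) ^ N := by
          have e1 := ((hsum k x).sum_add_tsum_nat_add N).symm
          have e2 : ∑ i ∈ Finset.range N, t k i x = 0 := Finset.sum_eq_zero fun i hi => by
            have := hcon i hi
            simp only [t]
            rw [max_eq_left (by linarith), mul_zero]
          have e3 : ∑' i, t k (i + N) x ≤ ∑' i : ℕ, (1 / 2 : ℝ) ^ N * (1 / 2 : ℝ) ^ i := by
            refine Summable.tsum_le_tsum (fun i => ?_) ((summable_nat_add_iff N).2 (hsum k x))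
              (summable_geometric_two.mul_left _)
            rw [← pow_add, add_comm N i]; exact ht1 k _ x
          rw [tsum_mul_left, tsum_geometric_two] at e3
          simp only [f]
          rw [e1, e2]; linarith
        linarith
      obtain ⟨n, -, hn⟩ := (Ultrafilter.eventually_exists_mem_iff (Finset.finite_toSet _)).1 h3
      refine ⟨_, hn, fun x hx z hz => ?_⟩
      have := dist_triangle_right x z (a n)
      simp only [mem_ofPred_eq] at hx hz
      linarith
    exact CompleteSpace.complete hcau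
  exact ⟨ι, IsClosedEmbedding.of_continuous_injective_isClosedMap hc hi hp.isClosedMap⟩

theorem exists_closed_param_aux {P W : Type} [TopologicalSpace P] [PolishSpace P]
    [Nonempty P] [TopologicalSpace W] [T2Space W] {G : P → W} {S : Set P}
    (hc : Continuous fun x => (G x, S.indicator (fun _ => (1 : ℝ)) x)) :
    ∃ (Γ : Set (W × (J → ℝ))) (π : W × (J → ℝ) → P), IsClosed Γ ∧ ContinuousOn π Γ ∧
      InjOn π Γ ∧ π '' Γ = S ∧ ∀ γ ∈ Γ, γ.1 = G (π γ) := by
  classical
  obtain ⟨ι, hι⟩ := exists_closedEmbedding P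
  have hGc : Continuous G := continuous_fst.comp hc
  have hSc : IsClosed S := by
    have h1 : Continuous (S.indicator fun _ => (1 : ℝ)) := continuous_snd.comp hc
    have h2 : S = (S.indicator fun _ => (1 : ℝ)) ⁻¹' {1} := by
      ext x; by_cases hx : x ∈ S <;> simp [hx]
    rw [h2]
    exact isClosed_singleton.preimage h1
  have hinv : ∀ x, Function.invFun ι (ι x) = x := Function.leftInverse_invFun hι.injective
  have hcl : IsClosed (ι '' S) := hι.isClosedMap S hSc
  have hco : ContinuousOn (Function.invFun ι) (ι '' S) := by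
    rw [hι.isInducing.continuousOn_iff]
    refine continuousOn_id.congr ?_
    rintro _ ⟨x, -, rfl⟩
    simp [hinv]
  refine ⟨{γ ∈ Prod.snd ⁻¹' (ι '' S) | γ.1 = G (Function.invFun ι γ.2)},
    fun γ => Function.invFun ι γ.2, ?_, ?_, ?_, ?_, fun γ hγ => hγ.2⟩
  · exact (hcl.preimage continuous_snd).isClosed_eq continuous_fst.continuousOn
      ((hGc.comp_continuousOn hco).comp continuous_snd.continuousOn fun γ hγ => hγ)
  · exact hco.comp continuous_snd.continuousOn fun γ hγ => hγ.1
  · rintro ⟨g, _⟩ ⟨⟨x, -, rfl⟩, h1⟩ ⟨g', _⟩ ⟨⟨x', -, rfl⟩, h2⟩ h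
    simp only [hinv] at h h1 h2
    rw [h1, h2, h]
  · ext x
    constructor
    · rintro ⟨⟨g, _⟩, ⟨⟨x', hx', rfl⟩, -⟩, rfl⟩
      simpa [hinv] using hx'
    · intro hx
      exact ⟨(G x, ι x), ⟨⟨x, hx, rfl⟩, by simp [hinv]⟩, hinv x⟩

theorem exists_closed_param {P W : Type} [tP : TopologicalSpace P] [PolishSpace P]
    [MeasurableSpace P] [BorelSpace P] [Nonempty P] [TopologicalSpace W] [T2Space W]
    [SecondCountableTopology W] [MeasurableSpace W] [BorelSpace W] {S : Set P}
    (hS : MeasurableSet S) {G : P → W} (hG : Measurable G) :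
    ∃ (Γ : Set (W × (J → ℝ))) (π : W × (J → ℝ) → P), IsClosed Γ ∧ ContinuousOn π Γ ∧
      InjOn π Γ ∧ π '' Γ = S ∧ ∀ γ ∈ Γ, γ.1 = G (π γ) := by
  classical
  have hm : Measurable fun x => (G x, S.indicator (fun _ => (1 : ℝ)) x) :=
    hG.prodMk (measurable_const.indicator hS)
  obtain ⟨t', ht', hc, hp⟩ := hm.exists_continuous
  obtain ⟨Γ, π, h1, h2, h3⟩ := @exists_closed_param_aux P W t' hp _ _ _ G S hc
  exact ⟨Γ, π, h1, h2.mono_rng ht', h3⟩

end Pool.Agent.P.MP_fa84b3_gt.Cx
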