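import Mathlib

/-!
Measurable enumeration of finite subsets of the Cantor set.
-/

namespace Pool.Agent.P.MP_fa84b3_gt

open Set Filter Topology

theorem hit_measurable {P ι : Type} [MeasurableSpace P] [Countable ι]
    (c : ι → P → (ℕ → Bool) → Prop) (hc : ∀ i p, IsClopen {r | c i p r})
    (hm : ∀ i r, MeasurableSet {p | c i p r}) {W : Set (ℕ → Bool)} (hW : IsClopen W) :
    MeasurableSet {p | ∃ r ∈ W, ∀ i, c i p r} := by
  obtain ⟨Q, hQ, hd⟩ := TopologicalSpace.exists_countable_dense (ℕ → Bool)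
  have : Countable Q := hQ
  have e : {p | ∃ r ∈ W, ∀ i, c i p r} =
      ⋂ t : Finset ι, ⋃ q : {q : Q // q.1 ∈ W}, ⋂ i ∈ t, {p | c i p q.1.1} := by
    ext p
    simp only [mem_ofPred_eq, mem_iInter, mem_iUnion]
    constructor
    · rintro ⟨r, hr, h⟩ t
      obtain ⟨q, hq, h1, h2⟩ := hd.exists_mem_open (U := W ∩ ⋂ i ∈ t, {r | c i p r})
        (hW.isOpen.inter (isOpen_biInter_finset fun i _ => (hc i p).isOpen))
        ⟨r, hr, mem_iInter₂.2 fun i _ => h i⟩
      exact ⟨⟨⟨q, hq⟩, h1⟩, mem_iInter₂.1 h2⟩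
    · intro h
      obtain ⟨r, h1, h2⟩ := hW.isClosed.isCompact.inter_iInter_nonempty (fun i => {r | c i p r})
        (fun i => (hc i p).isClosed) fun t => by
          obtain ⟨q, hq⟩ := h t
          exact ⟨q.1.1, q.2, mem_iInter₂.2 hq⟩
      exact ⟨r, h1, mem_iInter.1 h2⟩
  rw [e]
  exact MeasurableSet.iInter fun t => MeasurableSet.iUnion fun q =>
    MeasurableSet.biInter t.countable_toSet fun i _ => hm i _

theorem enum_cyl (x : List Bool) : IsClopen {r : ℕ → Bool | ∀ k < x.length, r k = x.getD k false} := by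
  have e : {r : ℕ → Bool | ∀ k < x.length, r k = x.getD k false} =
      ⋂ k ∈ Finset.range x.length, (fun r : ℕ → Bool => r k) ⁻¹' {x.getD k false} := by
    ext r; simp
  rw [e]
  exact isClopen_biInter_finset fun k _ =>
    (isClopen_discrete _).preimage (continuous_apply k)

theorem enum_sep {C : Set (ℕ → Bool)} (hC : C.Finite) (r : ℕ → Bool) :
    ∃ x : List Bool, (∀ k < x.length, r k = x.getD k false) ∧
      ∀ r' ∈ C, (∀ k < x.length, r' k = x.getD k false) → r' = r := by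
  have h1 : ∀ r' : ℕ → Bool, ∃ k, r' ≠ r → r' k ≠ r k := fun r' => by
    by_cases h : r' = r
    · exact ⟨0, fun h' => absurd h h'⟩
    · obtain ⟨k, hk⟩ := Function.ne_iff.1 h
      exact ⟨k, fun _ => hk⟩
  choose f hf using h1
  obtain ⟨l, hl⟩ := (hC.image f).bddAbove
  have h2 : ∀ k < ((List.range (l + 1)).map r).length,
      r k = ((List.range (l + 1)).map r).getD k false := by
    intro k hk
    have : k < l + 1 := by simpa using hk
    simp [this]
  refine ⟨(List.range (l + 1)).map r, h2, fun r' hr' h => ?_⟩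
  by_contra hne
  have a1 : f r' < ((List.range (l + 1)).map r).length := by
    simpa using Nat.lt_succ_of_le (hl ⟨r', hr', rfl⟩)
  exact hf r' hne ((h _ a1).trans (h2 _ a1).symm)

theorem enum {P ι : Type} [MeasurableSpace P] [Countable ι] (C : ι → P → Set (ℕ → Bool))
    (hj : ∀ i, MeasurableSet {q : P × (ℕ → Bool) | q.2 ∈ C i q.1})
    (hh : ∀ i W, IsClopen W → MeasurableSet {p | ∃ r ∈ W, r ∈ C i p}) :
    ∃ (a : ℕ → P → ℕ → Bool) (act : ℕ → P → Prop), (∀ j, Measurable (a j)) ∧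
      (∀ j, Measurable (act j)) ∧
      (∀ p j j', act j p → act j' p → a j p = a j' p → j = j') ∧
      ∀ p i, (C i p).Finite → ∀ r ∈ C i p, ∃ j, act j p ∧ a j p = r := by
  classical
  rcases isEmpty_or_nonempty ι with hι | hι
  · exact ⟨fun _ _ _ => false, fun _ _ => False, fun _ => measurable_const,
      fun _ => measurable_const, fun _ _ _ h => h.elim, fun _ i => hι.elim i⟩
  obtain ⟨g, hg⟩ := exists_surjective_nat (ι × List Bool)
  let a : ℕ → P → ℕ → Bool := fun j p m => decide (∃ r ∈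
    {r : ℕ → Bool | ∀ k < (g j).2.length, r k = (g j).2.getD k false} ∩ {r | r m = true},
      r ∈ C (g j).1 p)
  have ha : ∀ j, Measurable (a j) := fun j => measurable_pi_lambda _ fun m => by
    refine measurable_to_bool ?_
    have := hh (g j).1 _ ((enum_cyl (g j).2).inter
      ((isClopen_discrete {true}).preimage (continuous_apply (A := fun _ : ℕ => Bool) m)))
    convert this using 1
    ext p; simp [a]
  refine ⟨a, fun j p => ∀ j' < j, a j' p ≠ a j p, ha, fun j => ?_, fun p j j' h h' e => ?_,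
    fun p i hC r hr => ?_⟩
  · refine Measurable.forall fun j' => Measurable.forall fun _ => Measurable.not ?_
    exact measurableSet_setOfPred.1 (measurableSet_eq_fun (ha j') (ha j))
  · rcases lt_trichotomy j j' with h1 | h1 | h1
    · exact absurd e (h' j h1)
    · exact h1
    · exact absurd e.symm (h j' h1)
  · have hex : ∃ j, a j p = r := by
      obtain ⟨x, h1, h2⟩ := enum_sep hC r
      obtain ⟨j, hj'⟩ := hg (i, x)
      refine ⟨j, funext fun m => ?_⟩
      rw [Bool.eq_iff_iff]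
      simp only [a, hj', decide_eq_true_eq]
      exact ⟨fun ⟨r', ⟨b1, b2⟩, b3⟩ => h2 r' b3 b1 ▸ b2, fun h => ⟨r, ⟨h1, h⟩, hr⟩⟩
    exact ⟨Nat.find hex, fun j' h => (Nat.find_spec hex).symm ▸ Nat.find_min hex h,
      Nat.find_spec hex⟩

/-- measurability of the infimum of a measurably varying set of rationals -/
theorem measurable_sInf_rat {P : Type} [MeasurableSpace P] (c : ℚ → P → Prop)
    (hc : ∀ q, Measurable (c q)) :
    Measurable fun p => sInf {x : ℝ | ∃ q : ℚ, 0 ≤ q ∧ c q p ∧ x = q} := by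
  refine measurable_of_Iio fun y => ?_
  have e : (fun p => sInf {x : ℝ | ∃ q : ℚ, 0 ≤ q ∧ c q p ∧ x = q}) ⁻¹' Iio y =
      {p | ((∀ q : ℚ, ¬ (0 ≤ q ∧ c q p)) ∧ 0 < y) ∨ ∃ q : ℚ, 0 ≤ q ∧ c q p ∧ (q : ℝ) < y} := by
    ext p
    simp only [mem_preimage, mem_Iio, mem_ofPred_eq]
    have hb : BddBelow {x : ℝ | ∃ q : ℚ, 0 ≤ q ∧ c q p ∧ x = q} :=
      ⟨0, by rintro x ⟨q, h, -, rfl⟩; exact_mod_cast h⟩
    rcases eq_empty_or_nonempty {x : ℝ | ∃ q : ℚ, 0 ≤ q ∧ c q p ∧ x = q} with h | h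
    · have h1 : ∀ q : ℚ, ¬ (0 ≤ q ∧ c q p) := fun q hq =>
        (eq_empty_iff_forall_notMem.1 h) q ⟨q, hq.1, hq.2, rfl⟩
      rw [h, Real.sInf_empty]
      exact ⟨fun h2 => Or.inl ⟨h1, h2⟩, fun h2 => h2.elim (·.2)
        fun ⟨q, a1, a2, _⟩ => absurd ⟨a1, a2⟩ (h1 q)⟩
    · rw [csInf_lt_iff hb h]
      constructor
      · rintro ⟨x, ⟨q, a1, a2, rfl⟩, a3⟩; exact Or.inr ⟨q, a1, a2, a3⟩
      · rintro (⟨h1, -⟩ | ⟨q, a1, a2, a3⟩)
        · obtain ⟨x, q, a1, a2, -⟩ := h
          exact absurd ⟨a1, a2⟩ (h1 q)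
        · exact ⟨q, ⟨q, a1, a2, rfl⟩, a3⟩
  rw [e]
  refine measurableSet_setOfPred.2 (Measurable.or (Measurable.and (Measurable.forall fun q =>
    Measurable.not (measurable_const.and (hc q))) measurable_const) (Measurable.exists fun q =>
      measurable_const.and ((hc q).and measurable_const)))

end Pool.Agent.P.MP_fa84b3_gt
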