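import Mathlib
import Pool.Agent.P.MP_fa84b3_gt.Basic

/-!
Supports of continuous functions on the space of locally constant maps.
-/

namespace Pool.Agent.P.MP_fa84b3_gt.Cx

open Set Filter Topology PiNat Uniformity

def SatM (F : DD → ℝ) (r : R) (θ : ℝ) (k n : ℕ) : Prop :=
  ∀ δ ∈ Box θ n, |F (ap r δ) - F (uD r δ.2.1)| ≤ 1 / ((k : ℝ) + 1)

def Sat (F : DD → ℝ) (r : R) (θ : ℝ) : Prop := ∀ k, ∃ n, SatM F r θ k n

theorem sat_iff {F : DD → ℝ} {r : R} {θ : ℝ} :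
    Sat F r θ ↔ Tendsto (fun δ => F (ap r δ) - F (uD r δ.2.1)) (Fl θ) (𝓝 0) := by
  constructor
  · intro h
    refine tendsto_of_lt fun k => ?_
    obtain ⟨n, hn⟩ := h k
    exact ev_Fl.2 ⟨n, fun δ hδ => by rw [sub_zero]; exact hn δ hδ⟩
  · intro h k
    obtain ⟨n, hn⟩ := ev_Fl.1 (ev_lt_of_tendsto h (ε := 1 / ((k : ℝ) + 1)) (by positivity))
    exact ⟨n, fun δ hδ => by simpa using (hn δ hδ).le⟩

theorem tendsto_tr_uD {f : NN → ℝ} (hf : Continuous f) (r : R) (θ : ℝ) :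
    Tendsto (fun δ : Dat => tr f (uD r δ.2.1)) (Fl θ) (𝓝 (f (uN r θ))) :=
  (hf.tendsto _).comp (tendsto_uD r θ)

theorem sat_iff_cont {f : NN → ℝ} (hf : Continuous f) {r : R} {θ : ℝ} :
    Sat (tr f) r θ ↔ Tendsto (fun δ => tr f (ap r δ)) (Fl θ) (𝓝 (f (uN r θ))) := by
  rw [sat_iff]
  constructor
  · intro h
    simpa using h.add (tendsto_tr_uD hf r θ)
  · intro h
    simpa using h.sub (tendsto_tr_uD hf r θ)

def StarM (F : DD → ℝ) (a : ℕ → R) (m k w : ℕ) : Prop :=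
  ∀ d d' : DD, Dep m d.1 → (∀ n < w, ‖d.1 (a n) - d'.1 (a n)‖ < 1 / ((w : ℝ) + 1)) →
    |F d - F d'| ≤ 1 / ((k : ℝ) + 1)

def StarD (F : DD → ℝ) (a : ℕ → R) : Prop := ∀ m k, ∃ w, StarM F a m k w

def Sset (m k : ℕ) (F : DD → ℝ) : Set R :=
  {r | ∀ l, ∃ d d' : DD, Dep m d.1 ∧ (∀ x ∉ cylinder r l, d.1 x = d'.1 x) ∧
    1 / ((k : ℝ) + 1) < |F d - F d'|}

theorem star_cont {f : NN → ℝ} (hf : Continuous f) (m k : ℕ) :
    ∃ (a : Finset R) (w : ℕ), ∀ y y' : NN, Dep m y.1 →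
      (∀ x ∈ a, ‖y.1 x - y'.1 x‖ < 1 / ((w : ℝ) + 1)) → |f y - f y'| ≤ 1 / ((k : ℝ) + 1) := by
  classical
  let B : Finset R × ℕ → Set (NN × NN) :=
    fun i => {p | ∀ x ∈ i.1, ‖p.1.1 x - p.2.1 x‖ < 1 / ((i.2 : ℝ) + 1)}
  have hB : Antitone B := fun i j hij p hp x hx =>
    (hp x (hij.1 hx)).trans_le (one_div_anti hij.2)
  have hb := hasBasis_iInf_principal hB.directed_ge
  have hle : ⨅ i, 𝓟 (B i) ≤ 𝓤 NN := by
    rw [uniformity_subtype, Pi.uniformity, comap_iInf, le_iInf_iff]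
    intro x
    rw [comap_comap, ← tendsto_iff_comap, Metric.uniformity_basis_dist.tendsto_right_iff]
    intro ε hε
    obtain ⟨n, hn⟩ := exists_nat_one_div_lt hε
    refine mem_of_superset (hb.mem_of_mem (i := ({x}, n)) trivial) fun p hp => ?_
    have := hp x (Finset.mem_singleton_self x)
    show dist (p.1.1 x) (p.2.1 x) < ε
    rw [dist_eq_norm]
    exact this.trans hn
  have h1 := (isCompact_Nm m).uniformContinuousAt_of_continuousAt f
    (fun y _ => hf.continuousAt) (Metric.dist_mem_uniformity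
      (ε := 1 / ((k : ℝ) + 1)) (by positivity))
  obtain ⟨⟨a, w⟩, -, h2⟩ := hb.mem_iff.1 (hle h1)
  exact ⟨a, w, fun y y' hy h => (h2 (show (y, y') ∈ B (a, w) from h) hy).le⟩

theorem Sset_subset {F : DD → ℝ} {a : Set R} (ha : a.Finite) {m k : ℕ} {η : ℝ} (hη : 0 < η)
    (h : ∀ d d' : DD, Dep m d.1 → (∀ x ∈ a, ‖d.1 x - d'.1 x‖ < η) →
      |F d - F d'| ≤ 1 / ((k : ℝ) + 1)) : Sset m k F ⊆ a := by
  intro r hr
  by_contra hc
  obtain ⟨l, hl⟩ := exists_cyl_disjoint ha hc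
  obtain ⟨d, d', h1, h2, h3⟩ := hr l
  refine absurd (h d d' h1 fun x hx => ?_) (not_le.2 h3)
  rw [h2 x (hl x hx)]; simpa using hη

theorem finite_Sset {f : NN → ℝ} (hf : Continuous f) (m k : ℕ) : (Sset m k (tr f)).Finite := by
  obtain ⟨a, w, h⟩ := star_cont hf m k
  exact a.finite_toSet.subset (Sset_subset a.finite_toSet (η := 1 / ((w : ℝ) + 1))
    (by positivity) fun d d' hd hx => h (inc d) (inc d') hd hx)

theorem StarD.Sset_subset {F : DD → ℝ} {a : ℕ → R} (h : StarD F a) (m k : ℕ) :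
    Sset m k F ⊆ range a := by
  obtain ⟨w, hw⟩ := h m k
  refine (Cx.Sset_subset ((finite_lt_nat w).image a)
    (η := 1 / ((w : ℝ) + 1)) (by positivity) fun d d' hd hx => ?_).trans (image_subset_range _ _)
  exact hw d d' hd fun n hn => hx _ ⟨n, hn, rfl⟩

theorem sat_of_notMem {F : DD → ℝ} {r : R} (h : ∀ m k, r ∉ Sset m k F) (θ : ℝ) : Sat F r θ := by
  intro k
  have h1 := h ⌈θ + 1⌉₊ k
  simp only [Sset, mem_ofPred_eq, not_forall, not_exists, not_and, not_lt] at h1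
  obtain ⟨l, hl⟩ := h1
  refine ⟨l, fun δ hδ => ?_⟩
  rw [abs_sub_comm]
  refine hl _ _ (uA_dep r ?_) fun x hx => ?_
  · have := (abs_lt.1 hδ.2.1).2
    have h2 : 1 / ((l : ℝ) + 1) ≤ 1 := by simpa using one_div_anti (Nat.zero_le l)
    linarith [Nat.le_ceil (θ + 1)]
  · exact (AA_eq_uA _ _ fun hx' => hx (cylinder_anti r hδ.1 hx')).symm

theorem StarD.sat {F : DD → ℝ} {a : ℕ → R} (h : StarD F a) {r : R} (hr : r ∉ range a) (θ : ℝ) :
    Sat F r θ := sat_of_notMem (fun m k hm => hr (h.Sset_subset m k hm)) θ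

open Classical in
noncomputable def pw (r : R) (l : ℕ) (d d' : DD) : DD :=
  ⟨fun x => if x ∈ cylinder r l then d.1 x else d'.1 x, ⟨fun x => by
    dsimp only; split_ifs
    · exact d.2.1.1 x
    · exact d'.2.1.1 x, by
    obtain ⟨m, hm⟩ := d.2.1.2
    obtain ⟨m', hm'⟩ := d'.2.1.2
    refine ⟨max l (max m m'), fun x x' hx => ?_⟩
    have h1 : x ∈ cylinder x' l := cylinder_anti _ (le_max_left _ _) hx
    have h2 : x ∈ cylinder r l ↔ x' ∈ cylinder r l :=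
      ⟨fun h => cyl_trans (cyl_symm h1) h, fun h => cyl_trans h1 h⟩
    simp only [h2, hm x x' (cylinder_anti _ (by omega) hx),
      hm' x x' (cylinder_anti _ (by omega) hx)]⟩, fun x => by
    dsimp only; split_ifs
    · exact d.2.2 x
    · exact d'.2.2 x⟩

theorem shrink_one {F : DD → ℝ} {a : Set R} {r : R} (hr : ∀ m k, r ∉ Sset m k F) {m : ℕ}
    {η ε : ℝ} (hη : 0 < η)
    (h : ∀ d d' : DD, Dep m d.1 → (∀ x ∈ insert r a, ‖d.1 x - d'.1 x‖ < η) → |F d - F d'| ≤ ε) :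
    ∀ d d' : DD, Dep m d.1 → (∀ x ∈ a, ‖d.1 x - d'.1 x‖ < η) → |F d - F d'| ≤ ε := by
  intro d d' hd hx
  refine le_of_forall_pos_le_add fun ε' hε' => ?_
  obtain ⟨k, hk⟩ := exists_nat_one_div_lt hε'
  obtain ⟨m', hm'⟩ := d'.2.1.2
  have h1 := hr m' k
  simp only [Sset, mem_ofPred_eq, not_forall, not_exists, not_and, not_lt] at h1
  obtain ⟨l, hl⟩ := h1
  have h2 := hl d' (pw r l d d') hm' fun x hx => by simp only [pw, if_neg hx]
  have h3 := h d (pw r l d d') hd fun x hx' => by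
    by_cases hc : x ∈ cylinder r l
    · simp only [pw, if_pos hc]; simpa using hη
    · simp only [pw, if_neg hc]
      rcases hx' with rfl | hx'
      · exact absurd (self_mem_cylinder _ _) hc
      · exact hx x hx'
  rw [abs_sub_comm] at h2
  linarith [abs_sub_le (F d) (F (pw r l d d')) (F d')]

theorem shrink {F : DD → ℝ} {b : Set R} (hb : b.Finite) (c : Set R)
    (hr : ∀ r ∈ b, ∀ m k, r ∉ Sset m k F) {m : ℕ} {η ε : ℝ} (hη : 0 < η)
    (h : ∀ d d' : DD, Dep m d.1 → (∀ x ∈ b ∪ c, ‖d.1 x - d'.1 x‖ < η) → |F d - F d'| ≤ ε) :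
    ∀ d d' : DD, Dep m d.1 → (∀ x ∈ c, ‖d.1 x - d'.1 x‖ < η) → |F d - F d'| ≤ ε := by
  induction b, hb using Set.Finite.induction_on with
  | empty => simpa using h
  | @insert r b _ _ ih =>
    refine ih (fun r' hr' => hr r' (mem_insert_of_mem _ hr')) ?_
    rw [insert_union] at h
    exact shrink_one (hr r (mem_insert _ _)) hη h

theorem starD_of_cont {f : NN → ℝ} (hf : Continuous f) {a : ℕ → R}
    (ha : ∀ m k, Sset m k (tr f) ⊆ range a) : StarD (tr f) a := by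
  intro m k
  obtain ⟨b, w, h⟩ := star_cont hf m k
  have h1 := shrink (F := tr f) (b := (b : Set R) \ range a) (b.finite_toSet.subset sdiff_subset)
    ((b : Set R) ∩ range a) (fun r hr m k hm => hr.2 (ha m k hm)) (m := m)
    (η := 1 / ((w : ℝ) + 1)) (ε := 1 / ((k : ℝ) + 1)) (by positivity) (by
      rw [sdiff_union_inter]
      exact fun d d' hd hx => h (inc d) (inc d') hd hx)
  obtain ⟨t, -, ht, he⟩ := (b.finite_toSet.inter_of_left (range a)).exists_subset_finite_image_eq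
    (s := univ) (f := a) (by rw [image_univ]; exact inter_subset_right)
  obtain ⟨w', hw'⟩ := ht.bddAbove
  refine ⟨max w (w' + 1), fun d d' hd hx => h1 d d' hd fun x hx' => ?_⟩
  rw [← he] at hx'
  obtain ⟨n, hn, rfl⟩ := hx'
  have := hw' hn
  exact (hx n (by omega)).trans_le (one_div_anti (le_max_left _ _))

theorem StarM.round {F : DD → ℝ} {a : ℕ → R} {m k w : ℕ} (h : StarM F a m k w) {y y' : NN}
    (hy : Dep m y.1) (hx : ∀ n < w, ‖y.1 (a n) - y'.1 (a n)‖ < 1 / ((w : ℝ) + 1)) :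
    ∀ᶠ p : ℕ × ℕ in atTop, |F (rdD p.1 y) - F (rdD p.2 y')| ≤ 1 / ((k : ℝ) + 1) := by
  have h1 : ∀ᶠ p : ℕ × ℕ in atTop, ∀ n ∈ {n | n < w},
      ‖rd p.1 (y.1 (a n)) - rd p.2 (y'.1 (a n))‖ < 1 / ((w : ℝ) + 1) := by
    rw [eventually_all_finite (finite_lt_nat w)]
    intro n hn
    have h2 : Tendsto (fun p : ℕ × ℕ => ‖rd p.1 (y.1 (a n)) - rd p.2 (y'.1 (a n))‖) atTop
        (𝓝 ‖y.1 (a n) - y'.1 (a n)‖) := by
      rw [← prod_atTop_atTop_eq]
      exact (((tendsto_rd _).comp tendsto_fst).sub ((tendsto_rd _).comp tendsto_snd)).norm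
    exact h2.eventually (gt_mem_nhds (hx n hn))
  filter_upwards [h1] with p hp
  exact h _ _ (rdD_dep _ hy) fun n hn => hp n hn

theorem StarM.of_tendsto {F : DD → ℝ} {a : ℕ → R} {m k w : ℕ} (h : StarM F a m k w) {y y' : NN}
    (hy : Dep m y.1) (hx : ∀ n < w, ‖y.1 (a n) - y'.1 (a n)‖ < 1 / ((w : ℝ) + 1)) {u v : ℝ}
    (hu : Tendsto (fun n => F (rdD n y)) atTop (𝓝 u))
    (hv : Tendsto (fun n => F (rdD n y')) atTop (𝓝 v)) : |u - v| ≤ 1 / ((k : ℝ) + 1) := by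
  have h2 : Tendsto (fun p : ℕ × ℕ => |F (rdD p.1 y) - F (rdD p.2 y')|) atTop (𝓝 |u - v|) := by
    rw [← prod_atTop_atTop_eq]
    exact ((hu.comp tendsto_fst).sub (hv.comp tendsto_snd)).abs
  exact le_of_tendsto h2 (h.round hy hx)

theorem StarM.cont {f : NN → ℝ} (hf : Continuous f) {a : ℕ → R} {m k w : ℕ}
    (h : StarM (tr f) a m k w) {y y' : NN} (hy : Dep m y.1)
    (hx : ∀ n < w, ‖y.1 (a n) - y'.1 (a n)‖ < 1 / ((w : ℝ) + 1)) :
    |f y - f y'| ≤ 1 / ((k : ℝ) + 1) :=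
  h.of_tendsto hy hx ((hf.tendsto y).comp (tendsto_rdD y)) ((hf.tendsto y').comp (tendsto_rdD y'))

theorem StarD.extend {F : DD → ℝ} {a : ℕ → R} (h : StarD F a) :
    ∃ f : NN → ℝ, Continuous f ∧ tr f = F := by
  have h1 : ∀ y : NN, ∃ u, Tendsto (fun n => F (rdD n y)) atTop (𝓝 u) := by
    intro y
    refine cauchySeq_tendsto_of_complete (cauchySeq_iff_tendsto_dist_atTop_0.2 ?_)
    refine tendsto_of_lt fun k => ?_
    obtain ⟨m, hm⟩ := y.2.2
    obtain ⟨w, hw⟩ := h m k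
    filter_upwards [hw.round (y := y) (y' := y) hm fun n _ => by simpa using by positivity] with p hp
    rw [sub_zero, abs_of_nonneg dist_nonneg]
    exact hp
  choose f hf using h1
  refine ⟨f, continuous_iff_continuousAt.2 fun y => tendsto_of_lt fun k => ?_,
    funext fun d => tendsto_nhds_unique (hf (inc d)) (tendsto_of_lt fun k => ?_)⟩
  · obtain ⟨m, hm⟩ := y.2.2
    obtain ⟨w, hw⟩ := h m k
    have h1 : ∀ᶠ y' : NN in 𝓝 y, ∀ n ∈ {n | n < w},
        ‖y.1 (a n) - y'.1 (a n)‖ < 1 / ((w : ℝ) + 1) := by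
      rw [eventually_all_finite (finite_lt_nat w)]
      intro n _
      have h2 : Continuous fun y' : NN => ‖y.1 (a n) - y'.1 (a n)‖ :=
        (continuous_const.sub ((continuous_apply (a n)).comp continuous_subtype_val)).norm
      exact (h2.tendsto y).eventually (gt_mem_nhds (by simpa using by positivity))
    filter_upwards [h1] with y' hy'
    rw [abs_sub_comm]
    exact hw.of_tendsto hm hy' (hf y) (hf y')
  · obtain ⟨m, hm⟩ := d.2.1.2
    obtain ⟨w, hw⟩ := h m k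
    filter_upwards [eventually_ge_atTop w] with n hn
    exact hw _ _ (rdD_dep n (y := inc d) hm) fun i _ => (rd_close n _).trans_le (one_div_anti hn)

theorem exists_starD {f : NN → ℝ} (hf : Continuous f) : ∃ a, StarD (tr f) a := by
  have hc : (insert (fun _ => false) (⋃ p : ℕ × ℕ, Sset p.1 p.2 (tr f))).Countable :=
    (countable_iUnion fun p : ℕ × ℕ => (finite_Sset hf p.1 p.2).countable).insert _
  obtain ⟨a, ha⟩ := hc.exists_eq_range (insert_nonempty _ _)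
  refine ⟨a, starD_of_cont hf fun m k r hr => ?_⟩
  rw [← ha]
  exact mem_insert_of_mem _ (mem_iUnion.2 ⟨(m, k), hr⟩)

end Pool.Agent.P.MP_fa84b3_gt.Cx
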