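import Mathlib
import Pool.Agent.P.MP_fa84b3_gt.Supp
import Pool.Agent.P.MP_fa84b3_gt.Enum

/-!
Limits along the rays, the intermediate value argument and a measurable choice of the parameter.
-/

namespace Pool.Agent.P.MP_fa84b3_gt.Cx

open Set Filter Topology PiNat

def Iso (F : DD → ℝ) (r : R) : Prop :=
  ∀ θ : ℝ, 0 ≤ θ → ∃ L, Tendsto (fun δ => F (ap r δ)) (Fl θ) (𝓝 L)

def IsoM (F : DD → ℝ) (r : R) (c : ℚ) (k n : ℕ) : Prop :=
  ∀ q : ℚ, 0 ≤ q → q < c → ∀ δ ∈ Box q n, ∀ δ' ∈ Box q n,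
    |F (ap r δ) - F (ap r δ')| ≤ 1 / ((k : ℝ) + 1)

def Osc (F : DD → ℝ) (r : R) (θ : ℝ) (k : ℕ) : Prop :=
  ∀ n, ∃ δ ∈ Box θ n, ∃ δ' ∈ Box θ n, 1 / ((k : ℝ) + 1) < |F (ap r δ) - F (ap r δ')|

noncomputable def Lim (F : DD → ℝ) (r : R) (θ : ℝ) : ℝ := limUnder (Fl θ) fun δ => F (ap r δ)

noncomputable def LimQ (F : DD → ℝ) (r : R) (q : ℚ) : ℝ :=
  liminf (fun m : ℕ => F (ap r (m, q, q))) atTop

variable {F : DD → ℝ} {r : R}

theorem Iso.tendsto (h : Iso F r) {θ : ℝ} (hθ : 0 ≤ θ) :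
    Tendsto (fun δ => F (ap r δ)) (Fl θ) (𝓝 (Lim F r θ)) := tendsto_nhds_limUnder (h θ hθ)

theorem Lim_eq {θ L : ℝ} (h : Tendsto (fun δ => F (ap r δ)) (Fl θ) (𝓝 L)) : Lim F r θ = L :=
  h.limUnder_eq

theorem LimQ_eq {q : ℚ} {L : ℝ} (h : Tendsto (fun δ => F (ap r δ)) (Fl q) (𝓝 L)) :
    LimQ F r q = L := (h.comp (tendsto_diag q)).liminf_eq

theorem osc_of_not_isoM {c : ℚ} {k : ℕ} (h : ∀ n, ¬ IsoM F r c k n) :
    ∃ θ ∈ Icc (0 : ℝ) c, Osc F r θ k := by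
  simp only [IsoM, not_forall, not_le, exists_prop] at h
  choose q h0 h1 h2 using h
  obtain ⟨θ, hθ, φ, hφ, ht⟩ := (isCompact_Icc (a := (0 : ℝ)) (b := c)).tendsto_subseq
    (x := fun n => (q n : ℝ)) fun n => ⟨by exact_mod_cast h0 n, by exact_mod_cast (h1 n).le⟩
  refine ⟨θ, hθ, fun n => ?_⟩
  obtain ⟨j, hj1, hj2⟩ := ((ev_lt_of_tendsto ht (ε := 1 / ((n : ℝ) + 1) / 2) (by positivity)).and
    (hφ.tendsto_atTop.eventually_ge_atTop (2 * n + 1))).exists
  obtain ⟨δ, hδ, δ', hδ', h3⟩ := h2 (φ j)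
  exact ⟨δ, Box_sub hj1.le (Box_anti _ hj2 hδ), δ', Box_sub hj1.le (Box_anti _ hj2 hδ'), h3⟩

theorem exists_rat_box {θ : ℝ} {c : ℚ} (h0 : 0 ≤ θ) (hc : θ < c) (n : ℕ) :
    ∃ q : ℚ, 0 ≤ q ∧ q < c ∧ Box θ (2 * n + 1) ⊆ Box q n := by
  have hε : (0 : ℝ) < 1 / ((n : ℝ) + 1) / 2 := by positivity
  obtain ⟨q, h1, h2⟩ := exists_rat_btwn (lt_min hc (lt_add_of_pos_right θ hε))
  rw [lt_min_iff] at h2
  refine ⟨q, by exact_mod_cast h0.trans h1.le, by exact_mod_cast h2.1, Box_sub ?_⟩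
  rw [abs_le]; constructor <;> linarith [h2.2]

theorem Osc.not_isoM {θ : ℝ} {c : ℚ} {k : ℕ} (h : Osc F r θ k) (h0 : 0 ≤ θ) (hc : θ < c) (n : ℕ) :
    ¬ IsoM F r c k n := by
  intro hI
  obtain ⟨q, h1, h2, h3⟩ := exists_rat_box h0 hc n
  obtain ⟨δ, hδ, δ', hδ', h4⟩ := h (2 * n + 1)
  exact absurd (hI q h1 h2 δ (h3 hδ) δ' (h3 hδ')) (not_le.2 h4)

theorem Osc.not_tendsto {θ L : ℝ} {k : ℕ} (h : Osc F r θ k) :
    ¬ Tendsto (fun δ => F (ap r δ)) (Fl θ) (𝓝 L) := by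
  intro ht
  obtain ⟨n, hn⟩ := ev_Fl.1 (ev_lt_of_tendsto ht (ε := 1 / ((k : ℝ) + 1) / 2) (by positivity))
  obtain ⟨δ, hδ, δ', hδ', h4⟩ := h n
  have h1 := hn δ hδ
  have h2 := hn δ' hδ'
  rw [abs_sub_comm] at h2
  linarith [abs_sub_le (F (ap r δ)) L (F (ap r δ'))]

theorem tendsto_of_not_osc {θ : ℝ} (h : ∀ k, ¬ Osc F r θ k) :
    ∃ L, Tendsto (fun δ => F (ap r δ)) (Fl θ) (𝓝 L) := by
  rw [← cauchy_map_iff_exists_tendsto, Metric.cauchy_iff]
  refine ⟨inferInstance, fun ε hε => ?_⟩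
  obtain ⟨k, hk⟩ := exists_nat_one_div_lt hε
  have h1 := h k
  simp only [Osc, not_forall, not_exists, not_and, not_lt] at h1
  obtain ⟨n, hn⟩ := h1
  refine ⟨_, image_mem_map (Box_mem θ n), ?_⟩
  rintro _ ⟨δ, hδ, rfl⟩ _ ⟨δ', hδ', rfl⟩
  exact (hn δ hδ δ' hδ').trans_lt hk

theorem iso_iff : Iso F r ↔ ∀ c k, ∃ n, IsoM F r c k n := by
  constructor
  · intro h c k
    by_contra hc
    obtain ⟨θ, hθ, ho⟩ := osc_of_not_isoM (not_exists.1 hc)
    exact ho.not_tendsto (h.tendsto hθ.1)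
  · intro h θ hθ
    refine tendsto_of_not_osc fun k ho => ?_
    obtain ⟨c, hc⟩ := exists_rat_gt θ
    obtain ⟨n, hn⟩ := h c k
    exact ho.not_isoM hθ hc n hn

theorem IsoM.lim_close {θ L : ℝ} {c : ℚ} {k n : ℕ} (h : IsoM F r c k n) (h0 : 0 ≤ θ) (hc : θ < c)
    (ht : Tendsto (fun δ => F (ap r δ)) (Fl θ) (𝓝 L)) {δ : Dat} (hδ : δ ∈ Box θ (2 * n + 1)) :
    |L - F (ap r δ)| ≤ 1 / ((k : ℝ) + 1) := by
  obtain ⟨q, h1, h2, h3⟩ := exists_rat_box h0 hc n
  refine le_of_tendsto ((ht.sub_const _).abs) ?_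
  filter_upwards [Box_mem θ (2 * n + 1)] with δ' hδ' using h q h1 h2 δ' (h3 hδ') δ (h3 hδ)

theorem Iso.continuousOn (h : Iso F r) : ContinuousOn (Lim F r) (Ici 0) := by
  intro θ hθ
  refine tendsto_of_lt fun k => ?_
  obtain ⟨n, hn⟩ := ev_Fl.1 (ev_lt_of_tendsto (h.tendsto hθ) (ε := 1 / ((k : ℝ) + 1))
    (by positivity))
  filter_upwards [self_mem_nhdsWithin, mem_nhdsWithin_of_mem_nhds
    (ev_lt_of_tendsto (tendsto_id (x := 𝓝 θ)) (ε := 1 / ((n : ℝ) + 1) / 2) (by positivity))]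
    with θ' h1 h2
  refine le_of_tendsto (((h.tendsto h1).sub_const _).abs) ?_
  filter_upwards [Box_mem θ' (2 * n + 1)] with δ hδ using (hn δ (Box_sub h2.le hδ)).le

theorem StarM.lim_close {f : NN → ℝ} (hf : Continuous f) {a : ℕ → R} {m k w : ℕ}
    (h : StarM (tr f) a m k w) {y : NN} (hy : Dep m y.1) {θ L : ℝ}
    (hx : ∀ n < w, ‖y.1 (a n) - xi r θ (a n)‖ < 1 / ((w : ℝ) + 1))
    (ht : Tendsto (fun δ => tr f (ap r δ)) (Fl θ) (𝓝 L)) : |f y - L| ≤ 1 / ((k : ℝ) + 1) := by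
  refine le_of_tendsto ((ht.const_sub _).abs) ?_
  have h1 : ∀ᶠ δ in Fl θ, ∀ n ∈ {n | n < w},
      ‖y.1 (a n) - (ap r δ).1 (a n)‖ < 1 / ((w : ℝ) + 1) := by
    rw [eventually_all_finite (finite_lt_nat w)]
    intro n hn
    exact ((tendsto_pi_nhds.1 (tendsto_ap r θ) (a n)).const_sub _).norm.eventually
      (gt_mem_nhds (hx n hn))
  filter_upwards [h1] with δ hδ using h.cont hf hy (y' := inc (ap r δ)) hδ

theorem tendsto_xi (r : R) : Tendsto (xi r) atTop (𝓝 fun _ => t0) := by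
  rw [tendsto_pi_nhds]
  intro x
  by_cases h : x = r
  · simp only [h, xi_self]; exact tendsto_neg_sg
  · simp only [xi_ne _ h, uA_ne _ h]
    refine tendsto_const_nhds.congr' ?_
    filter_upwards [eventually_ge_atTop ((firstDiff x r : ℝ) + 1)] with θ hθ
    exact (cc_of_ge hθ).symm

theorem tendsto_Lim_atTop {f : NN → ℝ} (hf : Continuous f) (h : Iso (tr f) r) :
    Tendsto (Lim (tr f) r) atTop (𝓝 (f (inc u0))) := by
  obtain ⟨a, ha⟩ := exists_starD hf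
  refine tendsto_of_lt fun k => ?_
  obtain ⟨w, hw⟩ := ha 0 k
  have h1 : ∀ᶠ θ in atTop, ∀ n ∈ {n | n < w}, ‖t0 - xi r θ (a n)‖ < 1 / ((w : ℝ) + 1) := by
    rw [eventually_all_finite (finite_lt_nat w)]
    intro n _
    exact ((tendsto_pi_nhds.1 (tendsto_xi r) (a n)).const_sub t0).norm.eventually
      (gt_mem_nhds (by simpa using by positivity))
  filter_upwards [h1, eventually_ge_atTop 0] with θ h2 h3
  rw [abs_sub_comm]
  exact hw.lim_close hf (y := inc u0) (fun _ _ _ => rfl) h2 (h.tendsto h3)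

theorem tendsto_uD_nat (h : Iso F r) :
    Tendsto (fun k : ℕ => F (uD r (k + 1 : ℕ))) atTop (𝓝 (Lim F r 0)) := by
  simp only [uD_nat]
  refine (h.tendsto le_rfl).comp (tendsto_Fl (tendsto_add_atTop_nat 1) (by simp) ?_)
  have := (tendsto_one_div_add_atTop_nhds_zero_nat (𝕜 := ℝ)).neg
  simpa using this

noncomputable def dlt (F : DD → ℝ) (r : R) (q : ℚ) : ℝ := LimQ F r q - F (uD r q)

noncomputable def thIso (F : DD → ℝ) (r : R) : ℝ :=
  sInf {x : ℝ | ∃ q : ℚ, 0 ≤ q ∧ dlt F r q * dlt F r 0 < 0 ∧ x = q}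

noncomputable def thBad (F : DD → ℝ) (r : R) : ℝ :=
  sInf {x : ℝ | ∃ c : ℚ, 0 ≤ c ∧
    (∃ k, (∀ n, ¬ IsoM F r c k n) ∧ ∀ k' < k, ∀ c', ∃ n, IsoM F r c' k' n) ∧ x = c}

open Classical in
noncomputable def thS (F : DD → ℝ) (r : R) : ℝ := if Iso F r then thIso F r else thBad F r

theorem sInf_rat_nonneg (c : ℚ → Prop) : 0 ≤ sInf {x : ℝ | ∃ q : ℚ, 0 ≤ q ∧ c q ∧ x = q} :=
  Real.sInf_nonneg (by rintro _ ⟨q, hq, -, rfl⟩; exact_mod_cast hq)

theorem bddBelow_rat (c : ℚ → Prop) : BddBelow {x : ℝ | ∃ q : ℚ, 0 ≤ q ∧ c q ∧ x = q} :=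
  ⟨0, by rintro _ ⟨q, hq, -, rfl⟩; exact_mod_cast hq⟩

theorem thS_nonneg (F : DD → ℝ) (r : R) : 0 ≤ thS F r := by
  unfold thS; split_ifs <;> exact sInf_rat_nonneg _

theorem zero_of_sign {g : ℝ → ℝ} (hg : ContinuousOn g (Ici 0))
    (hl : Tendsto (fun k : ℕ => g ((k : ℝ) + 1)) atTop (𝓝 (-g 0))) :
    g (sInf {x : ℝ | ∃ q : ℚ, 0 ≤ q ∧ g q * g 0 < 0 ∧ x = q}) = 0 := by
  set S := {x : ℝ | ∃ q : ℚ, 0 ≤ q ∧ g q * g 0 < 0 ∧ x = q} with hS
  by_cases h0 : g 0 = 0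
  · have : S = ∅ := by
      ext x; simp [hS, h0]
    rw [this, Real.sInf_empty, h0]
  have hpos : 0 < g 0 * g 0 := mul_self_pos.2 h0
  have hne : S.Nonempty := by
    obtain ⟨k, hk⟩ := ((hl.mul_const (g 0)).eventually
      (gt_mem_nhds (show -g 0 * g 0 < 0 by linarith))).exists
    exact ⟨_, (k : ℚ) + 1, by positivity, by simpa using hk, rfl⟩
  have hb : BddBelow S := bddBelow_rat _
  have hn : 0 ≤ sInf S := sInf_rat_nonneg _
  have hc : ContinuousWithinAt (fun x => g x * g 0) (Ici 0) (sInf S) :=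
    (hg _ hn).mul continuousWithinAt_const
  have h1 : g (sInf S) * g 0 ≤ 0 := by
    have hS0 : S ⊆ Ici 0 := by
      rintro _ ⟨q, hq, -, rfl⟩; rw [mem_Ici]; exact_mod_cast hq
    have : (𝓝[S] sInf S).NeBot := mem_closure_iff_nhdsWithin_neBot.1 (csInf_mem_closure hne hb)
    refine le_of_tendsto (hc.mono hS0) ?_
    filter_upwards [self_mem_nhdsWithin]
    rintro _ ⟨q, -, hq, rfl⟩
    exact hq.le
  have hp : 0 < sInf S := lt_of_le_of_ne hn fun e => by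
    rw [← e] at h1; linarith
  have h2 : 0 ≤ g (sInf S) * g 0 := by
    by_contra hlt
    have h3 := hc.eventually (gt_mem_nhds (not_le.1 hlt))
    rw [nhdsWithin_eq_nhds.2 (Ici_mem_nhds hp)] at h3
    obtain ⟨l, u, hlu, h4⟩ := mem_nhds_iff_exists_Ioo_subset.1 h3
    obtain ⟨q, h5, h6⟩ := exists_rat_btwn (max_lt hp hlu.1)
    rw [max_lt_iff] at h5
    have : (q : ℝ) ∈ S := ⟨q, by exact_mod_cast h5.1.le, h4 ⟨h5.2, h6.trans hlu.2⟩, rfl⟩
    exact absurd (csInf_le hb this) (not_le.2 h6)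
  exact (mul_eq_zero.1 (le_antisymm h1 h2)).resolve_right h0

theorem Iso.sat_thIso {f : NN → ℝ} (hf : Continuous f) (h : Iso (tr f) r) :
    Sat (tr f) r (thIso (tr f) r) := by
  let g : ℝ → ℝ := fun θ => Lim (tr f) r θ - f (uN r θ)
  have hg : ContinuousOn g (Ici 0) :=
    h.continuousOn.sub (hf.comp (continuous_uN r)).continuousOn
  have hq : ∀ q : ℚ, 0 ≤ q → dlt (tr f) r q = g q := fun q hq => by
    unfold dlt
    rw [LimQ_eq (h.tendsto (by exact_mod_cast hq))]; rfl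
  have hl : Tendsto (fun k : ℕ => g ((k : ℝ) + 1)) atTop (𝓝 (-g 0)) := by
    have h1 := ((tendsto_Lim_atTop hf h).comp
      (tendsto_atTop_add_const_right atTop 1 (tendsto_natCast_atTop_atTop (R := ℝ)))).sub
      (tendsto_uD_nat h)
    simp only [g, neg_sub, uN_zero]
    refine h1.congr fun k => ?_
    simp [tr, inc_uD]
  have hz := zero_of_sign hg hl
  have he : thIso (tr f) r = sInf {x : ℝ | ∃ q : ℚ, 0 ≤ q ∧ g q * g 0 < 0 ∧ x = q} := by
    unfold thIso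
    congr 1
    ext x
    refine exists_congr fun q => and_congr_right fun h0 => ?_
    rw [hq q h0, hq 0 le_rfl, Rat.cast_zero]
  rw [← he] at hz
  rw [sat_iff_cont hf, ← sub_eq_zero.1 hz]
  exact h.tendsto (sInf_rat_nonneg _)

theorem osc_thBad (h : ¬ Iso F r) : ∃ k, Osc F r (thBad F r) k := by
  classical
  rw [iso_iff] at h
  have hex : ∃ k, ∃ c, ∀ n, ¬ IsoM F r c k n := by
    by_contra hc
    exact h fun c k => by
      by_contra hc'
      exact hc ⟨k, c, not_exists.1 hc'⟩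
  have hmin : ∀ k' < Nat.find hex, ∀ c', ∃ n, IsoM F r c' k' n := fun k' hk' c' => by
    by_contra hc'
    exact Nat.find_min hex hk' ⟨c', not_exists.1 hc'⟩
  have he : thBad F r =
      sInf {x : ℝ | ∃ c : ℚ, 0 ≤ c ∧ (∀ n, ¬ IsoM F r c (Nat.find hex) n) ∧ x = c} := by
    unfold thBad
    congr 1
    ext x
    refine exists_congr fun q => and_congr_right fun _ => and_congr_left fun _ =>
      ⟨?_, fun h1 => ⟨_, h1, hmin⟩⟩
    rintro ⟨k, h1, h2⟩
    have : k = Nat.find hex := by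
      refine le_antisymm (not_lt.1 fun hlt => ?_) (Nat.find_min' hex ⟨q, h1⟩)
      obtain ⟨c, hc⟩ := Nat.find_spec hex
      obtain ⟨n, hn⟩ := h2 _ hlt c
      exact hc n hn
    exact this ▸ h1
  refine ⟨Nat.find hex, fun n => ?_⟩
  obtain ⟨c, hc⟩ := Nat.find_spec hex
  generalize Nat.find hex = k at he hc
  rw [he]
  set S := {x : ℝ | ∃ c : ℚ, 0 ≤ c ∧ (∀ n, ¬ IsoM F r c k n) ∧ x = c} with hS
  have hne : S.Nonempty := by
    obtain ⟨θ, hθ, -⟩ := osc_of_not_isoM hc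
    exact ⟨c, c, by exact_mod_cast hθ.1.trans hθ.2, hc, rfl⟩
  obtain ⟨_, ⟨c', -, h1, rfl⟩, h2⟩ := Real.lt_sInf_add_pos hne
    (ε := 1 / ((n : ℝ) + 1) / 2) (by positivity)
  obtain ⟨θ, hθ, ho⟩ := osc_of_not_isoM h1
  have h3 : sInf S ≤ θ := by
    by_contra hlt
    obtain ⟨q, h4, h5⟩ := exists_rat_btwn (not_le.1 hlt)
    have : (q : ℝ) ∈ S := ⟨q, by exact_mod_cast hθ.1.trans h4.le, ho.not_isoM hθ.1 h4, rfl⟩
    exact absurd (csInf_le (bddBelow_rat _) this) (not_le.2 h5)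
  have h4 : Box θ (2 * n + 1) ⊆ Box (sInf S) n :=
    Box_sub (by rw [abs_le]; constructor <;> linarith [hθ.2])
  obtain ⟨δ, hδ, δ', hδ', h5⟩ := ho (2 * n + 1)
  exact ⟨δ, h4 hδ, δ', h4 hδ', h5⟩

theorem iso_iff_sat {f : NN → ℝ} (hf : Continuous f) :
    Iso (tr f) r ↔ Sat (tr f) r (thS (tr f) r) := by
  unfold thS
  split_ifs with h
  · exact iff_of_true h (h.sat_thIso hf)
  · refine iff_of_false h fun hs => ?_
    obtain ⟨k, hk⟩ := osc_thBad h
    exact hk.not_tendsto ((sat_iff_cont hf).1 hs)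

theorem iso_of_sat {f : NN → ℝ} (hf : Continuous f) (h : ∀ θ, Sat (tr f) r θ) : Iso (tr f) r :=
  fun θ _ => ⟨_, (sat_iff_cont hf).1 (h θ)⟩

/-! measurability -/

theorem measurable_ap (δ : Dat) : Measurable fun p : (DD → ℝ) × R => p.1 (ap p.2 δ) :=
  measurable_eval (ap_dep δ)

theorem measurable_uD (q : ℚ) : Measurable fun p : (DD → ℝ) × R => p.1 (uD p.2 q) :=
  measurable_eval (uD_dep q)

theorem measurable_isoM (c : ℚ) (k n : ℕ) :
    Measurable fun p : (DD → ℝ) × R => IsoM p.1 p.2 c k n := by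
  unfold IsoM
  refine Measurable.forall fun q => measurable_const.imp (measurable_const.imp
    (Measurable.forall fun δ => measurable_const.imp (Measurable.forall fun δ' =>
      measurable_const.imp ?_)))
  exact measurableSet_setOfPred.1
    (measurableSet_le ((measurable_ap δ).sub (measurable_ap δ')).abs measurable_const)

theorem measurable_iso : Measurable fun p : (DD → ℝ) × R => Iso p.1 p.2 := by
  simp only [iso_iff]
  exact Measurable.forall fun c => Measurable.forall fun k => Measurable.exists fun n =>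
    measurable_isoM c k n

theorem measurable_LimQ (q : ℚ) : Measurable fun p : (DD → ℝ) × R => LimQ p.1 p.2 q :=
  Measurable.liminf fun _ => measurable_ap _

theorem measurable_dlt (q : ℚ) : Measurable fun p : (DD → ℝ) × R => dlt p.1 p.2 q :=
  (measurable_LimQ q).sub (measurable_uD q)

theorem measurable_thS : Measurable fun p : (DD → ℝ) × R => thS p.1 p.2 := by
  classical
  unfold thS
  refine Measurable.ite measurable_iso.setOf ?_ ?_
  · exact measurable_sInf_rat (fun q (p : (DD → ℝ) × R) => dlt p.1 p.2 q * dlt p.1 p.2 0 < 0)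
      fun q => measurableSet_setOfPred.1
        (measurableSet_lt ((measurable_dlt q).mul (measurable_dlt 0)) measurable_const)
  · refine measurable_sInf_rat (fun c (p : (DD → ℝ) × R) => ∃ k, (∀ n, ¬ IsoM p.1 p.2 c k n) ∧
      ∀ k' < k, ∀ c', ∃ n, IsoM p.1 p.2 c' k' n) fun c => ?_
    exact Measurable.exists fun k => (Measurable.forall fun n => (measurable_isoM c k n).not).and
      (Measurable.forall fun k' => measurable_const.imp (Measurable.forall fun c' =>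
        Measurable.exists fun n => measurable_isoM c' k' n))

theorem measurable_sat : Measurable fun p : ((DD → ℝ) × R) × ℝ => Sat p.1.1 p.1.2 p.2 := by
  unfold Sat SatM
  refine Measurable.forall fun k => Measurable.exists fun n => Measurable.forall fun δ =>
    Measurable.imp ?_ ?_
  · unfold Box
    simp only [mem_ofPred_eq]
    exact measurable_const.and
      ((measurableSet_setOfPred.1 (measurableSet_lt (by fun_prop) measurable_const)).and
        (measurableSet_setOfPred.1 (measurableSet_lt (by fun_prop) measurable_const)))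
  · exact measurableSet_setOfPred.1 (measurableSet_le
      (((measurable_ap δ).sub (measurable_uD δ.2.1)).abs.comp measurable_fst) measurable_const)

end Pool.Agent.P.MP_fa84b3_gt.Cx
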