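import Mathlib
import Pool.Agent.P.MP_fa84b3_gt.Ivt
import Pool.Agent.P.MP_fa84b3_gt.Bern
import Pool.Agent.P.MP_fa84b3_gt.Embed

/-!
The space `X` and the Lindelof property of its function space.
-/

namespace Pool.Agent.P.MP_fa84b3_gt.Cx

open Set Filter Topology PiNat

def Cc (Bd : Set R) (dd : R → ℝ) : Set (NN → ℝ) :=
  {f | Continuous f ∧ (∀ r ∉ Bd, Iso (tr f) r) ∧ ∀ r ∈ Bd, Sat (tr f) r (dd r)}

theorem tendsto_of_mul {E : Type} {𝓛 : Filter E} {g : E → ℝ} {θ : ℝ} (C : ℝ)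
    (h : ∀ n : ℕ, ∀ᶠ e in 𝓛, |g e - θ| ≤ C * (1 / ((n : ℝ) + 1))) : Tendsto g 𝓛 (𝓝 θ) := by
  rw [Metric.tendsto_nhds]
  intro ε hε
  have h1 : Tendsto (fun n : ℕ => C * (1 / ((n : ℝ) + 1))) atTop (𝓝 0) := by
    simpa using (tendsto_one_div_add_atTop_nhds_zero_nat (𝕜 := ℝ)).const_mul C
  obtain ⟨n, hn⟩ := (h1.eventually (gt_mem_nhds hε)).exists
  filter_upwards [h n] with e he using lt_of_le_of_lt he hn

variable {Bd : Set R} {dd : R → ℝ}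

theorem limit_lemma {E : Type} {𝓛 : Filter E} [𝓛.NeBot] {f : E → NN → ℝ}
    (hf : ∀ e, f e ∈ Cc Bd dd) {a : ℕ → E → R} {θ : ℕ → E → ℝ} {ρ : ℕ → R} {Θ : ℕ → ℝ}
    {F : DD → ℝ} (hw : ∀ m k, ∃ w, ∀ᶠ e in 𝓛, StarM (tr (f e)) (fun n => a n e) m k w)
    (hs : ∀ n k, ∃ n₀, ∀ᶠ e in 𝓛, SatM (tr (f e)) (a n e) (θ n e) k n₀)
    (hi : ∀ n c k, ∃ n₀, ∀ᶠ e in 𝓛, a n e ∉ Bd → IsoM (tr (f e)) (a n e) c k n₀)
    (hθ : ∀ n e, a n e ∈ Bd → θ n e = dd (a n e))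
    (hF : ∀ d, Tendsto (fun e => tr (f e) d) 𝓛 (𝓝 (F d)))
    (ha : ∀ n, Tendsto (a n) 𝓛 (𝓝 (ρ n))) (hΘ : ∀ n, Tendsto (θ n) 𝓛 (𝓝 (Θ n)))
    (hd : ∀ n, (∀ᶠ e in 𝓛, a n e = ρ n) ∨ (ρ n ∈ Bd ∧ ∃ n', ρ n' = ρ n ∧ dd (ρ n) = Θ n')) :
    ∃ g ∈ Cc Bd dd, (∀ y, Tendsto (fun e => f e y) 𝓛 (𝓝 (g y))) ∧
      ∀ r ∉ Bd, ∀ t : ℝ, 0 ≤ t →
        Tendsto (fun e => Lim (tr (f e)) r t) 𝓛 (𝓝 (Lim (tr g) r t)) := by
  have hw' : ∀ m k w, (∀ᶠ e in 𝓛, StarM (tr (f e)) (fun n => a n e) m k w) →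
      StarM F ρ m k w := by
    intro m k w h d d' hd hx
    refine le_of_tendsto ((hF d).sub (hF d')).abs ?_
    obtain ⟨m', hm'⟩ := d'.2.1.2
    have h1 : ∀ᶠ e in 𝓛, ∀ n ∈ {n | n < w}, d.1 (a n e) = d.1 (ρ n) ∧ d'.1 (a n e) = d'.1 (ρ n) := by
      rw [eventually_all_finite (finite_lt_nat w)]
      exact fun n _ => (hd.ev (ha n)).and (hm'.ev (ha n))
    filter_upwards [h, h1] with e he he1
    refine he d d' hd fun n hn => ?_
    rw [(he1 n hn).1, (he1 n hn).2]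
    exact hx n hn
  have hD : StarD F ρ := fun m k => (hw m k).imp (hw' m k)
  obtain ⟨g, hg, rfl⟩ := hD.extend
  have hy : ∀ y, Tendsto (fun e => f e y) 𝓛 (𝓝 (g y)) := by
    intro y
    refine tendsto_of_mul 3 fun k => ?_
    obtain ⟨m, hm⟩ := y.2.2
    obtain ⟨w, hw⟩ := hw m k
    have hc : ∀ x, ‖y.1 x - (inc (rdD w y)).1 x‖ < 1 / ((w : ℝ) + 1) := fun x => by
      rw [norm_sub_rev]; exact rd_close w _
    have h1 := (hw' m k w hw).cont hg hm (y' := inc (rdD w y)) fun n _ => hc _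
    filter_upwards [hw, ev_lt_of_tendsto (hF (rdD w y)) (ε := 1 / ((k : ℝ) + 1)) (by positivity)]
      with e he he1
    have h2 := he.cont (hf e).1 hm (y' := inc (rdD w y)) fun n _ => hc _
    have h3 : |f e (inc (rdD w y)) - g (inc (rdD w y))| < 1 / ((k : ℝ) + 1) := he1
    rw [abs_le] at h1 h2 ⊢
    rw [abs_lt] at h3
    constructor <;> linarith [h1.1, h1.2, h2.1, h2.2, h3.1, h3.2]
  have hS : ∀ n, Sat (tr g) (ρ n) (Θ n) := by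
    intro n k
    obtain ⟨n₀, h⟩ := hs n k
    refine ⟨n₀, fun δ hδ => le_of_tendsto ((hF _).sub (hF _)).abs ?_⟩
    filter_upwards [h, (ap_dep δ).ev (ha n), (uD_dep δ.2.1).ev (ha n),
      ((hΘ n).const_sub (δ.2.1 : ℝ)).abs.eventually (gt_mem_nhds hδ.2.1),
      ((hΘ n).const_sub (δ.2.2 : ℝ)).abs.eventually (gt_mem_nhds hδ.2.2)] with e h1 h2 h3 h4 h5
    have := h1 δ ⟨hδ.1, h4, h5⟩
    rwa [h2, h3] at this
  have hI : ∀ n, ρ n ∉ Bd → ∀ c k, ∃ n₀, IsoM (tr g) (ρ n) c k n₀ ∧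
      ∀ᶠ e in 𝓛, IsoM (tr (f e)) (ρ n) c k n₀ := by
    intro n hn c k
    obtain ⟨n₀, h⟩ := hi n c k
    have h1 : ∀ᶠ e in 𝓛, IsoM (tr (f e)) (ρ n) c k n₀ := by
      filter_upwards [h, (hd n).resolve_right fun h => hn h.1] with e h1 h2
      rw [h2] at h1
      exact h1 hn
    refine ⟨n₀, fun q h0 hq δ hδ δ' hδ' => le_of_tendsto ((hF _).sub (hF _)).abs ?_, h1⟩
    filter_upwards [h1] with e he using he q h0 hq δ hδ δ' hδ'
  have hIso : ∀ r ∉ Bd, Iso (tr g) r := by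
    intro r hr
    by_cases h : r ∈ range ρ
    · obtain ⟨n, rfl⟩ := h
      exact iso_iff.2 fun c k => (hI n hr c k).imp fun _ h => h.1
    · exact iso_of_sat hg (hD.sat h)
  refine ⟨g, ⟨hg, hIso, fun r hr => ?_⟩, hy, fun r hr t ht => ?_⟩
  · by_cases h : r ∈ range ρ
    · obtain ⟨n, rfl⟩ := h
      rcases hd n with h | ⟨-, n', h1, h2⟩
      · have : Θ n = dd (ρ n) := by
          refine tendsto_nhds_unique (hΘ n) (tendsto_const_nhds.congr' ?_)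
          filter_upwards [h] with e he
          rw [hθ n e (he ▸ hr), he]
        exact this ▸ hS n
      · rw [h2, ← h1]; exact hS n'
    · exact hD.sat h _
  · by_cases h : r ∈ range ρ
    · obtain ⟨n, rfl⟩ := h
      refine tendsto_of_mul 3 fun k => ?_
      obtain ⟨c, hc⟩ := exists_rat_gt t
      obtain ⟨n₀, h1, h2⟩ := hI n hr c k
      obtain ⟨δ, hδ, -⟩ := Box_nonempty t (2 * n₀ + 1) _ le_rfl
      have h3 := h1.lim_close ht hc ((hIso _ hr).tendsto ht) hδ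
      filter_upwards [h2, ev_lt_of_tendsto (hF (ap (ρ n) δ)) (ε := 1 / ((k : ℝ) + 1))
        (by positivity)] with e he h5
      have h4 := he.lim_close ht hc (((hf e).2.1 _ hr).tendsto ht) hδ
      rw [abs_le] at h3 h4 ⊢
      rw [abs_lt] at h5
      constructor <;> linarith [h3.1, h3.2, h4.1, h4.2, h5.1, h5.2]
    · rw [Lim_eq ((sat_iff_cont hg).1 (hD.sat h t))]
      refine tendsto_of_mul 2 fun k => ?_
      obtain ⟨w, hw⟩ := hw ⌈t⌉₊ k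
      have h1 : ∀ᶠ e in 𝓛, ∀ n ∈ {n | n < w}, a n e ≠ r := by
        rw [eventually_all_finite (finite_lt_nat w)]
        exact fun n _ => (ha n).eventually_ne fun e => h ⟨n, e⟩
      filter_upwards [hw, h1, ev_lt_of_tendsto (hy (uN r t)) (ε := 1 / ((k : ℝ) + 1))
        (by positivity)] with e he h2 h3
      have h4 := he.lim_close (hf e).1 (y := uN r t) (uA_dep r (Nat.le_ceil t)) (fun n hn => by
        rw [xi_ne _ (h2 n hn)]; simpa [uN] using by positivity) (((hf e).2.1 _ hr).tendsto ht)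
      rw [abs_le] at h4 ⊢
      rw [abs_lt] at h3
      constructor <;> linarith [h3.1, h3.2, h4.1, h4.2]

variable (Bd dd)

abbrev EE : Type := ↥(Cc Bd dd) × (J → ℝ)

abbrev Idx : Type := NN ⊕ {p : R × ℝ // p.1 ∉ Bd ∧ 0 ≤ p.2} ⊕ J

noncomputable def ev : Idx Bd → EE Bd dd → ℝ :=
  Sum.elim (fun y e => e.1.1 y)
    (Sum.elim (fun p e => Lim (tr e.1.1) p.1.1 p.1.2) fun j e => e.2 j)

/-- the space -/
abbrev XX : Type := ↥(range (ev Bd dd))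

abbrev CX : Type := {g : XX Bd dd → ℝ // Continuous g}

variable {Bd}

noncomputable def pt (i : Idx Bd) : XX Bd dd := ⟨ev Bd dd i, i, rfl⟩

variable {dd}

def toC (e : EE Bd dd) : CX Bd dd :=
  ⟨fun φ => φ.1 e, (continuous_apply e).comp continuous_subtype_val⟩

noncomputable def fo (g : CX Bd dd) : NN → ℝ := fun y => g.1 (pt dd (Sum.inl y))

noncomputable def fz (g : CX Bd dd) : J → ℝ := fun j => g.1 (pt dd (Sum.inr (Sum.inr j)))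

theorem fo_toC (e : EE Bd dd) : fo (toC e) = e.1.1 := rfl

theorem fz_toC (e : EE Bd dd) : fz (toC e) = e.2 := rfl

theorem continuous_eval (x : XX Bd dd) : Continuous fun g : CX Bd dd => g.1 x :=
  (continuous_apply x).comp continuous_subtype_val

theorem continuous_fo (g : CX Bd dd) : Continuous (fo g) :=
  g.2.comp (Continuous.subtype_mk (continuous_pi fun e => e.1.2.1) _)

theorem tendsto_fo (g : CX Bd dd) {r : R} (hr : r ∉ Bd) {t : ℝ} (ht : 0 ≤ t) :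
    Tendsto (fun δ => tr (fo g) (ap r δ)) (Fl t)
      (𝓝 (g.1 (pt dd (Sum.inr (Sum.inl ⟨(r, t), hr, ht⟩))))) := by
  refine (g.2.tendsto _).comp ?_
  rw [tendsto_subtype_rng, tendsto_pi_nhds]
  exact fun e => (e.1.2.2.1 r hr).tendsto ht

theorem fo_mem (g : CX Bd dd) : fo g ∈ Cc Bd dd := by
  refine ⟨continuous_fo g, fun r hr t ht => ⟨_, tendsto_fo g hr ht⟩, fun r hr => ?_⟩
  rw [sat_iff_cont (continuous_fo g)]
  refine (g.2.tendsto _).comp ?_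
  rw [tendsto_subtype_rng, tendsto_pi_nhds]
  exact fun e => (sat_iff_cont e.1.2.1).1 (e.1.2.2.2 r hr)

theorem Lim_fo (g : CX Bd dd) {r : R} (hr : r ∉ Bd) {t : ℝ} (ht : 0 ≤ t) :
    Lim (tr (fo g)) r t = g.1 (pt dd (Sum.inr (Sum.inl ⟨(r, t), hr, ht⟩))) :=
  Lim_eq (tendsto_fo g hr ht)

theorem toC_fo (g : CX Bd dd) : toC (⟨fo g, fo_mem g⟩, fz g) = g := by
  refine Subtype.ext (funext ?_)
  rintro ⟨_, y | ⟨⟨r, t⟩, hr, ht⟩ | j, rfl⟩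
  · rfl
  · exact Lim_fo g hr ht
  · rfl

theorem lindelof (hdd : ∀ r, 0 ≤ dd r)
    (hB : ∀ (E ι : Type) [Countable ι] (𝓕 : Filter E) [𝓕.NeBot] [CountableInterFilter 𝓕]
        (a : ℕ → E → ℕ → Bool) (θ : ℕ → E → ℝ) (γ : ι → E → ℕ) (x : ι → E → ℝ),
        (∀ n e, 0 ≤ θ n e) →
        ∃ (𝓛 : Filter E) (ρ : ℕ → ℕ → Bool) (Θ : ℕ → ℝ), 𝓛 ≤ 𝓕 ∧ 𝓛.NeBot ∧
          (∀ i, ∃ v, ∀ᶠ e in 𝓛, γ i e = v) ∧ (∀ i, ∃ v, Tendsto (x i) 𝓛 (𝓝 v)) ∧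
          (∀ n, Tendsto (a n) 𝓛 (𝓝 (ρ n))) ∧ (∀ n, Tendsto (θ n) 𝓛 (𝓝 (Θ n))) ∧
          ∀ n, (∀ᶠ e in 𝓛, a n e = ρ n) ∨
            (ρ n ∈ Bd ∧ ∃ n', ρ n' = ρ n ∧ dd (ρ n) = Θ n')) :
    LindelofSpace (CX Bd dd) := by
  refine ⟨fun 𝓕 _ _ _ => ?_⟩
  choose a ha using fun g : CX Bd dd => exists_starD (continuous_fo g)
  choose w hw using ha
  have h1 : ∀ (g : CX Bd dd) (r : R), ∃ θ, 0 ≤ θ ∧ Sat (tr (fo g)) r θ ∧ (r ∈ Bd → θ = dd r) := by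
    intro g r
    by_cases hr : r ∈ Bd
    · exact ⟨dd r, hdd r, (fo_mem g).2.2 r hr, fun _ => rfl⟩
    · exact ⟨_, thS_nonneg _ _, (iso_iff_sat (continuous_fo g)).1 ((fo_mem g).2.1 r hr),
        fun h => absurd h hr⟩
  choose θ hθ0 hθ1 hθ2 using h1
  choose s hs using hθ1
  have h2 : ∀ (g : CX Bd dd) (r : R) (c : ℚ) (k : ℕ), ∃ n, r ∉ Bd → IsoM (tr (fo g)) r c k n := by
    intro g r c k
    by_cases hr : r ∈ Bd
    · exact ⟨0, fun h => absurd hr h⟩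
    · exact (iso_iff.1 ((fo_mem g).2.1 r hr) c k).imp fun _ h _ => h
  choose i hi using h2
  obtain ⟨𝓛, ρ, Θ, hle, hne, hγ, hx, hρ, hΘ, hd⟩ :=
    hB (CX Bd dd) (((ℕ × ℕ) ⊕ (ℕ × ℕ) ⊕ (ℕ × ℚ × ℕ)) ⊕ (DD ⊕ J)) 𝓕 (fun n g => a g n)
      (fun n g => θ g (a g n))
      (Sum.elim (Sum.elim (fun p g => w g p.1 p.2) (Sum.elim (fun p g => s g (a g p.1) p.2)
        fun p g => i g (a g p.1) p.2.1 p.2.2)) fun _ _ => 0)
      (Sum.elim (fun _ _ => 0) (Sum.elim (fun d g => tr (fo g) d) fun j g => fz g j))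
      fun n g => hθ0 _ _
  choose F hF using fun d => hx (Sum.inr (Sum.inl d))
  choose z hz using fun j => hx (Sum.inr (Sum.inr j))
  obtain ⟨g, hg, h3, h4⟩ := limit_lemma (𝓛 := 𝓛) (f := fo) fo_mem (F := F)
    (fun m k => (hγ (Sum.inl (Sum.inl (m, k)))).imp fun v hv => hv.mono fun e he => by
      have he' : w e m k = v := he
      exact he' ▸ hw e m k)
    (fun n k => (hγ (Sum.inl (Sum.inr (Sum.inl (n, k))))).imp fun v hv => hv.mono fun e he => by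
      have he' : s e (a e n) k = v := he
      exact he' ▸ hs e _ k)
    (fun n c k => (hγ (Sum.inl (Sum.inr (Sum.inr (n, c, k))))).imp fun v hv =>
      hv.mono fun e he => by
        have he' : i e (a e n) c k = v := he
        exact he' ▸ hi e _ c k)
    (fun n e => hθ2 e _) hF hρ hΘ hd
  have h5 : 𝓛 ≤ 𝓝 (toC (⟨g, hg⟩, z)) := by
    show Tendsto id 𝓛 _
    rw [tendsto_subtype_rng, tendsto_pi_nhds]
    rintro ⟨_, y | ⟨⟨r, t⟩, hr, ht⟩ | j, rfl⟩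
    · exact h3 y
    · exact (h4 r hr t ht).congr fun e => Lim_fo e hr ht
    · exact hz j
  exact ⟨_, mem_univ _, hne.mono (le_inf h5 hle)⟩

end Pool.Agent.P.MP_fa84b3_gt.Cx
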