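import Mathlib
import Pool.Agent.P.MP_fa84b3_gt.Space

/-!
Certificate functions.
-/

namespace Pool.Agent.P.MP_fa84b3_gt.Cx

open Set Filter Topology PiNat

def det (s t : Pl) : ℝ := s.1 * t.2 - s.2 * t.1

theorem abs_det_le {s t : Pl} (hs : ‖s‖ ≤ 1) (ht : ‖t‖ ≤ 1) : |det s t| ≤ 2 := by
  rw [Prod.norm_def, max_le_iff, Real.norm_eq_abs, Real.norm_eq_abs] at hs ht
  unfold det
  refine (abs_sub _ _).trans ?_
  rw [abs_mul, abs_mul]
  nlinarith [abs_nonneg s.1, abs_nonneg s.2, abs_nonneg t.1, abs_nonneg t.2, hs.1, hs.2, ht.1, ht.2]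

theorem det_neg (s t : Pl) : det s (-t) = -det s t := by simp [det]; ring

theorem det_self (s : Pl) : det s s = 0 := by simp [det]; ring

theorem det_sg_eq_zero {θ θ' : ℝ} (h : 0 ≤ θ) (h' : 0 ≤ θ') (h0 : det (sg θ) (sg θ') = 0) :
    θ' = θ := by
  have h1 : (0 : ℝ) < 1 + θ ^ 2 := by positivity
  have h2 : (0 : ℝ) < 1 + θ' ^ 2 := by positivity
  have e : det (sg θ) (sg θ') = 2 * (θ' - θ) * (1 + θ * θ') / ((1 + θ ^ 2) * (1 + θ' ^ 2)) := by
    simp only [det, sg]; field_simp; ring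
  rw [e, div_eq_zero_iff] at h0
  have h3 : (0 : ℝ) < 1 + θ * θ' := by positivity
  rcases h0 with h0 | h0
  · rcases mul_eq_zero.1 h0 with h0 | h0
    · linarith
    · exact absurd h0 h3.ne'
  · exact absurd h0 (by positivity)

noncomputable def gA (r : R) (θ : ℝ) (y : Amb) : ℝ := det (sg θ) (y r) - det (sg θ) t0

noncomputable def chi (θ : ℝ) (t : Pl) : ℝ := max 0 (-t.2 - 1 / 2) * |det (sg θ) t|

noncomputable def pp (t : Pl) : ℝ := cl (-4 * t.2 - 1)

noncomputable def OO (p : ℕ → ℝ) : ℝ :=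
  min 1 |∑' j, if Even j then p j * ∏ i ∈ Finset.range j, (1 - p i) else 0|

noncomputable def bA (r : R) (θ : ℝ) (y : Amb) : ℝ := chi θ (y r) * OO fun j => pp (y (qq r j))

open Classical in
noncomputable def cert (b : Prop) (r : R) (θ : ℝ) (y : Amb) : ℝ :=
  gA r θ y + if b then 0 else bA r θ y

theorem continuous_gA (r : R) (θ : ℝ) : Continuous (gA r θ) := by unfold gA det; fun_prop

theorem continuous_det : Continuous fun p : Pl × Pl => det p.1 p.2 := by unfold det; fun_prop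

theorem continuous_chi : Continuous fun p : ℝ × Pl => chi p.1 p.2 :=
  Continuous.mul (by fun_prop)
    (continuous_det.comp ((continuous_sg.comp continuous_fst).prodMk continuous_snd)).abs

theorem continuous_chi' (θ : ℝ) : Continuous (chi θ) := by unfold chi det; fun_prop

theorem continuous_pp : Continuous pp := by unfold pp; fun_prop

theorem chi_eq_zero (θ : ℝ) {t : Pl} (h : -(1 / 2) ≤ t.2) : chi θ t = 0 := by
  unfold chi; rw [max_eq_left (by linarith), zero_mul]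

theorem pp_eq_one {t : Pl} (h : t.2 < -(1 / 2)) : pp t = 1 := cl_of_one_le (by linarith)

theorem pp_eq_zero {t : Pl} (h : -(1 / 4) ≤ t.2) : pp t = 0 := cl_of_nonpos (by linarith)

theorem abs_OO_le (p : ℕ → ℝ) : |OO p| ≤ 1 := by
  rw [abs_of_nonneg (le_min zero_le_one (abs_nonneg _))]; exact min_le_left _ _

theorem OO_eq {p : ℕ → ℝ} {n : ℕ} (h : p n = 1) : OO p = min 1
    |∑ j ∈ Finset.range (n + 1), if Even j then p j * ∏ i ∈ Finset.range j, (1 - p i) else 0| := by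
  unfold OO
  rw [tsum_eq_sum]
  intro j hj
  rw [Finset.mem_range, not_lt] at hj
  rw [Finset.prod_eq_zero (i := n) (Finset.mem_range.2 (by omega)) (by rw [h, sub_self])]
  simp

theorem OO_step {p : ℕ → ℝ} {n : ℕ} (h : p n = 1) (h0 : ∀ j < n, p j = 0) :
    OO p = if Even n then 1 else 0 := by
  rw [OO_eq h, Finset.sum_range_succ, Finset.sum_eq_zero, Finset.prod_eq_one, h]
  · split_ifs <;> simp
  · intro i hi; rw [h0 i (Finset.mem_range.1 hi), sub_zero]
  · intro i hi; rw [h0 i (Finset.mem_range.1 hi)]; simp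

theorem continuousAt_bA (r : R) (θ : ℝ) {y : Amb} {n : ℕ} (h : y (qq r n) = y r) :
    ContinuousAt (bA r θ) y := by
  have hc : Continuous fun y : Amb => chi θ (y r) := (continuous_chi' θ).comp (continuous_apply r)
  by_cases h0 : chi θ (y r) = 0
  · have h1 := bdd_le_mul_tendsto_zero' (l := 𝓝 y)
      (f := fun y : Amb => OO fun j => pp (y (qq r j))) 1
      (Eventually.of_forall fun _ => abs_OO_le _) (h0 ▸ hc.tendsto y)
    unfold ContinuousAt bA
    rw [h0, zero_mul]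
    exact h1.congr fun _ => mul_comm _ _
  · have h1 : (y (qq r n)).2 < -(1 / 2) := by
      rw [h]; exact not_le.1 fun h2 => h0 (chi_eq_zero θ h2)
    have h2 : ∀ᶠ y' : Amb in 𝓝 y, (y' (qq r n)).2 < -(1 / 2) :=
      ((by fun_prop : Continuous fun y' : Amb => (y' (qq r n)).2).tendsto y).eventually
        (gt_mem_nhds h1)
    have hp : ∀ j, Continuous fun y : Amb => pp (y (qq r j)) := fun j =>
      continuous_pp.comp (continuous_apply _)
    refine hc.continuousAt.mul (ContinuousAt.congr (f := fun y : Amb => min 1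
      |∑ j ∈ Finset.range (n + 1), if Even j then pp (y (qq r j)) *
        ∏ i ∈ Finset.range j, (1 - pp (y (qq r i))) else 0|) (Continuous.continuousAt ?_) ?_)
    · refine continuous_const.min (Continuous.abs (continuous_finsetSum _ fun j _ => ?_))
      split_ifs
      · exact (hp j).mul (continuous_finsetProd _ fun i _ => continuous_const.sub (hp i))
      · exact continuous_const
    · filter_upwards [h2] with y' hy' using (OO_eq (pp_eq_one hy')).symm

theorem continuousAt_cert (b : Prop) (r : R) (θ : ℝ) {y : Amb} {n : ℕ} (h : y (qq r n) = y r) :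
    ContinuousAt (cert b r θ) y := by
  unfold cert
  refine (continuous_gA r θ).continuousAt.add ?_
  split_ifs
  · exact continuousAt_const
  · exact continuousAt_bA r θ h

theorem continuous_cert (b : Prop) (r : R) (θ : ℝ) : Continuous fun y : NN => cert b r θ y.1 := by
  refine continuous_iff_continuousAt.2 fun y => ?_
  obtain ⟨m, hm⟩ := y.2.2
  exact (continuousAt_cert b r θ (hm _ _ (qq_mem_cyl.2 le_rfl))).comp
    continuous_subtype_val.continuousAt

theorem abs_cert_le (b : Prop) (r : R) (θ : ℝ) (y : NN) : |cert b r θ y.1| ≤ 5 := by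
  have h1 := abs_det_le (norm_sg_le θ) (y.2.1 r)
  have h2 := abs_det_le (norm_sg_le θ) norm_t0
  have h3 : |gA r θ y.1| ≤ 4 := (abs_sub _ _).trans (by linarith)
  have h4 : |bA r θ y.1| ≤ 1 := by
    have h5 : |(y.1 r).2| ≤ 1 := (norm_snd_le (y.1 r)).trans (y.2.1 r)
    have h6 : max 0 (-(y.1 r).2 - 1 / 2) ≤ 1 / 2 :=
      max_le (by norm_num) (by linarith [(abs_le.1 h5).1])
    have h7 : 0 ≤ max 0 (-(y.1 r).2 - 1 / 2) := le_max_left _ _
    have h8 : |chi θ (y.1 r)| ≤ 1 := by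
      unfold chi
      rw [abs_mul, abs_abs, abs_of_nonneg h7]
      nlinarith [abs_nonneg (det (sg θ) (y.1 r))]
    unfold bA
    rw [abs_mul]
    exact mul_le_one₀ h8 (abs_nonneg _) (abs_OO_le _)
  unfold cert
  refine (abs_add_le _ _).trans ?_
  split_ifs
  · rw [abs_zero]; linarith
  · linarith

theorem cert_of_t0 (b : Prop) (r : R) (θ : ℝ) {y : Amb} (h : y r = t0) : cert b r θ y = 0 := by
  unfold cert gA bA
  rw [h, chi_eq_zero θ (by simp [t0])]
  simp

theorem tendsto_cert_ne (b : Prop) {r r' : R} (h : r ≠ r') (θ θ' : ℝ) :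
    Tendsto (fun δ => cert b r θ (ap r' δ).1) (Fl θ') (𝓝 (cert b r θ (xi r' θ'))) := by
  refine (continuousAt_cert b r θ (n := max ⌈θ'⌉₊ (firstDiff r' r + 1)) ?_).tendsto.comp
    (tendsto_ap r' θ')
  have h1 : qq r (max ⌈θ'⌉₊ (firstDiff r' r + 1)) ≠ r' := fun e => by
    have h2 : qq r (max ⌈θ'⌉₊ (firstDiff r' r + 1)) ∈ cylinder r (firstDiff r' r + 1) :=
      qq_mem_cyl.2 (le_max_right _ _)
    rw [e] at h2
    exact (notMem_cyl_iff h.symm _).2 (Nat.lt_succ_self _) h2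
  rw [xi_ne _ h1, xi_ne _ h]
  exact uA_dep r' (Nat.le_ceil θ') _ _ (qq_mem_cyl.2 (le_max_left _ _))

theorem cert_xi (b : Prop) {r r' : R} (h : r ≠ r') (hQ : r' ∉ Qset) (θ θ' : ℝ) :
    cert b r θ (xi r' θ') = cert b r θ (uA r' θ') := by
  have h1 : ∀ j, xi r' θ' (qq r j) = uA r' θ' (qq r j) := fun j =>
    xi_ne _ fun e => hQ (e ▸ qq_mem r j)
  simp only [cert, gA, bA, h1, xi_ne _ h]

theorem cert_xi_zero (b : Prop) {r r' : R} (h : r ≠ r') (θ : ℝ) : cert b r θ (xi r' 0) = 0 :=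
  cert_of_t0 b r θ (by rw [xi_ne _ h, uA_zero])

theorem sg_snd_ge {θ : ℝ} (h : -(1 / 8) ≤ θ) : -(1 / 4) ≤ (sg θ).2 := by
  have h1 : (0 : ℝ) < 1 + θ ^ 2 := by positivity
  simp only [sg]
  rw [le_div_iff₀ h1]
  nlinarith [sq_nonneg θ]

theorem bA_ap (r : R) (θ : ℝ) {δ : Dat} (h : -(1 / 8) ≤ (δ.2.1 : ℝ)) :
    bA r θ (ap r δ).1 = chi θ (-sg δ.2.2) * if Even δ.1 then 1 else 0 := by
  unfold bA
  rw [ap_self]
  by_cases h0 : chi θ (-sg δ.2.2) = 0
  · simp [h0]
  congr 1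
  refine OO_step (pp_eq_one ?_) fun j hj => pp_eq_zero ?_
  · show (AA _ _ _ _ _).2 < _
    rw [AA_in _ _ (qq_mem_cyl.2 le_rfl)]
    exact not_le.1 fun h2 => h0 (chi_eq_zero θ h2)
  · show _ ≤ (AA _ _ _ _ _).2
    rw [AA_out _ _ (fun h2 => absurd (qq_mem_cyl.1 h2) (not_le.2 hj)), cc_snd]
    have h1 := sg_snd_ge h
    have h2 := cl_nonneg ((δ.2.1 : ℝ) - (firstDiff (qq r j) r : ℕ))
    have h3 := cl_le_one ((δ.2.1 : ℝ) - (firstDiff (qq r j) r : ℕ))
    nlinarith

theorem ev_ge {θ : ℝ} (h : 0 ≤ θ) : ∀ᶠ δ : Dat in Fl θ, -(1 / 8) ≤ (δ.2.1 : ℝ) :=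
  (tendsto_Fl_1 θ).eventually (le_mem_nhds (by linarith))

theorem freq_Fl (θ : ℝ) {p : ℕ → Prop} (h : ∀ n, ∃ m, n ≤ m ∧ p m) :
    ∃ᶠ δ : Dat in Fl θ, p δ.1 := by
  rw [(Fl_basis θ).frequently_iff]
  intro n _
  obtain ⟨m, hm, hp⟩ := h n
  obtain ⟨δ, h1, h2⟩ := Box_nonempty θ n m hm
  exact ⟨δ, h1, h2 ▸ hp⟩

theorem freq_even (θ : ℝ) : ∃ᶠ δ : Dat in Fl θ, Even δ.1 :=
  freq_Fl θ fun n => ⟨2 * n, by omega, even_two_mul n⟩

theorem freq_odd (θ : ℝ) : ∃ᶠ δ : Dat in Fl θ, ¬ Even δ.1 :=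
  freq_Fl θ (p := fun m => ¬ Even m) fun n => ⟨2 * n + 1, by omega, by simp [parity_simps]⟩

theorem tendsto_gA (r : R) (θ θ' : ℝ) : Tendsto (fun δ => gA r θ (ap r δ).1) (Fl θ')
    (𝓝 (-det (sg θ) (sg θ') - det (sg θ) t0)) := by
  have := ((continuous_gA r θ).tendsto _).comp (tendsto_ap r θ')
  rwa [gA, xi_self, det_neg] at this

theorem tendsto_chi (θ θ' : ℝ) :
    Tendsto (fun δ : Dat => chi θ (-sg δ.2.2)) (Fl θ') (𝓝 (chi θ (-sg θ'))) :=
  (((continuous_chi' θ).comp continuous_sg.neg).tendsto θ').comp (tendsto_Fl_2 θ')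

theorem lim_odd {b : Prop} {r : R} {θ θ' L : ℝ} (h' : 0 ≤ θ')
    (h : Tendsto (fun δ => cert b r θ (ap r δ).1) (Fl θ') (𝓝 L)) :
    L = -det (sg θ) (sg θ') - det (sg θ) t0 := by
  refine tendsto_nhds_unique_of_frequently_eq h (tendsto_gA r θ θ') ?_
  refine ((freq_odd θ').and_eventually (ev_ge h')).mono fun δ hδ => ?_
  simp [cert, bA_ap r θ hδ.2, hδ.1]

theorem sat_cert {b : Prop} {r : R} {θ θ' : ℝ} (h : 0 ≤ θ) (h' : 0 ≤ θ') :
    Sat (tr fun y => cert b r θ y.1) r θ' ↔ θ' = θ := by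
  rw [sat_iff_cont (continuous_cert b r θ)]
  have e : cert b r θ (uN r θ').1 = det (sg θ) (sg θ') - det (sg θ) t0 := by
    have h1 : (uN r θ').1 r = sg θ' := uA_self r θ'
    simp only [cert, gA, bA, h1]
    rw [chi_eq_zero θ (by linarith [sg_snd_ge (θ := θ') (by linarith)])]
    simp
  rw [e]
  constructor
  · intro h1
    exact det_sg_eq_zero h h' (by linarith [lim_odd h' h1])
  · rintro rfl
    have h1 := tendsto_gA r θ' θ'
    rw [det_self] at h1 ⊢
    rw [neg_zero] at h1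
    have h2 : Tendsto (fun δ => bA r θ' (ap r δ).1) (Fl θ') (𝓝 0) := by
      have h3 := tendsto_chi θ' θ'
      rw [show chi θ' (-sg θ') = 0 by simp [chi, det_neg, det_self]] at h3
      refine (bdd_le_mul_tendsto_zero' (f := fun δ : Dat => if Even δ.1 then (1 : ℝ) else 0) 1
        (Eventually.of_forall fun δ => by split_ifs <;> simp) h3).congr' ?_
      filter_upwards [ev_ge h] with δ hδ
      rw [bA_ap r θ' hδ, mul_comm]
    by_cases hb : b
    · simpa [tr, inc, cert, hb] using h1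
    · simpa [tr, inc, cert, hb] using h1.add h2

theorem iso_cert {b : Prop} {r : R} {θ : ℝ} (h : 0 ≤ θ) :
    Iso (tr fun y => cert b r θ y.1) r ↔ b := by
  refine ⟨fun hI => ?_, fun hb θ' _ => ⟨_, by simpa [tr, inc, cert, hb] using tendsto_gA r θ θ'⟩⟩
  by_contra hb
  obtain ⟨θ', h0, h1, h2⟩ : ∃ θ' : ℝ, 0 ≤ θ' ∧ θ' ≠ θ ∧ 1 / 2 < (sg θ').2 := by
    by_cases h1 : θ = 1
    · exact ⟨1 / 2, by norm_num, by rw [h1]; norm_num, by simp only [sg]; norm_num⟩
    · exact ⟨1, by norm_num, Ne.symm h1, by simp only [sg]; norm_num⟩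
  obtain ⟨L, hL⟩ := hI θ' h0
  have h3 := lim_odd h0 hL
  have h4 : L = -det (sg θ) (sg θ') - det (sg θ) t0 + chi θ (-sg θ') := by
    refine tendsto_nhds_unique_of_frequently_eq hL ((tendsto_gA r θ θ').add (tendsto_chi θ θ')) ?_
    refine ((freq_even θ').and_eventually (ev_ge h0)).mono fun δ hδ => ?_
    simp [tr, inc, cert, hb, bA_ap r θ hδ.2, hδ.1]
  have h5 : 0 < chi θ (-sg θ') := by
    refine mul_pos (lt_max_of_lt_right (by simpa using h2)) (abs_pos.2 ?_)
    rw [det_neg, neg_ne_zero]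
    exact fun h6 => h1 (det_sg_eq_zero h h0 h6)
  linarith

theorem lim_cert {b : Prop} (hb : b) (r : R) (θ : ℝ) :
    Tendsto (fun δ => cert b r θ (ap r δ).1) (Fl 0) (𝓝 (2 * (sg θ).2)) := by
  have h := tendsto_gA r θ 0
  rw [sg_zero, show -det (sg θ) t0 - det (sg θ) t0 = 2 * (sg θ).2 by simp [det, t0]; ring] at h
  simpa [cert, hb] using h

theorem iso_add_iff {F G : DD → ℝ} {r : R} (h : Iso F r) {w : ℝ} (hw : w ≠ 0) :
    Iso (fun d => w * G d + F d) r ↔ Iso G r := by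
  refine forall₂_congr fun θ hθ => ?_
  obtain ⟨L, hL⟩ := h θ hθ
  constructor
  · rintro ⟨L', hL'⟩
    exact ⟨_, ((hL'.sub hL).div_const w).congr fun δ => by field_simp; ring⟩
  · rintro ⟨L', hL'⟩
    exact ⟨_, (hL'.const_mul w).add hL⟩

theorem sat_add_iff {F G : DD → ℝ} {r : R} {θ : ℝ} (h : Sat F r θ) {w : ℝ} (hw : w ≠ 0) :
    Sat (fun d => w * G d + F d) r θ ↔ Sat G r θ := by
  simp only [sat_iff] at h ⊢
  constructor
  · intro h'
    have := (h'.sub h).div_const w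
    rw [sub_zero, zero_div] at this
    exact this.congr fun δ => by field_simp; ring
  · intro h'
    have := (h'.const_mul w).add h
    rw [mul_zero, add_zero] at this
    exact this.congr fun δ => by ring

/-! sums of certificates -/

noncomputable def GG (a : ℕ → R) (b : ℕ → Prop) (x w : ℕ → ℝ) : NN → ℝ :=
  fun y => ∑' j, w j * cert (b j) (a j) (x j) y.1

variable {a : ℕ → R} {b : ℕ → Prop} {x w : ℕ → ℝ}

theorem norm_term_le (j : ℕ) (y : NN) : ‖w j * cert (b j) (a j) (x j) y.1‖ ≤ |w j| * 5 := by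
  rw [Real.norm_eq_abs, abs_mul]
  exact mul_le_mul_of_nonneg_left (abs_cert_le _ _ _ _) (abs_nonneg _)

theorem continuous_GG (hw : Summable w) : Continuous (GG a b x w) :=
  continuous_tsum (fun _ => continuous_const.mul (continuous_cert _ _ _)) (hw.abs.mul_right 5)
    norm_term_le

theorem GG_u0 : GG a b x w (inc u0) = 0 := by
  simp only [GG]
  rw [tsum_congr fun j => by rw [cert_of_t0 _ _ _ (show (inc u0).1 (a j) = t0 from rfl), mul_zero],
    tsum_zero]

theorem tendsto_GG_ne (hw : Summable w) {r : R} (hr : ∀ j, w j ≠ 0 → a j ≠ r) (θ : ℝ) :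
    Tendsto (fun δ => tr (GG a b x w) (ap r δ)) (Fl θ)
      (𝓝 (∑' j, w j * cert (b j) (a j) (x j) (xi r θ))) := by
  refine tendsto_tsum_of_dominated_convergence (hw.abs.mul_right 5) (fun j => ?_)
    (Eventually.of_forall fun δ j => norm_term_le j _)
  by_cases h : w j = 0
  · simp [h]
  · exact (tendsto_cert_ne _ (hr j h) _ _).const_mul _

theorem iso_GG_ne (hw : Summable w) {r : R} (hr : ∀ j, w j ≠ 0 → a j ≠ r) :
    Iso (tr (GG a b x w)) r := fun θ _ => ⟨_, tendsto_GG_ne hw hr θ⟩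

theorem sat_GG_ne (hw : Summable w) {r : R} (hr : ∀ j, w j ≠ 0 → a j ≠ r) (hQ : r ∉ Qset)
    (θ : ℝ) : Sat (tr (GG a b x w)) r θ := by
  rw [sat_iff_cont (continuous_GG hw)]
  convert tendsto_GG_ne hw hr θ using 2
  refine tsum_congr fun j => ?_
  by_cases h : w j = 0
  · simp [h]
  · rw [cert_xi _ (hr j h) hQ]; rfl

theorem lim_GG_ne (hw : Summable w) {r : R} (hr : ∀ j, w j ≠ 0 → a j ≠ r) :
    Tendsto (fun δ => tr (GG a b x w) (ap r δ)) (Fl 0) (𝓝 0) := by
  convert tendsto_GG_ne hw hr 0 using 2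
  refine tsum_zero.symm.trans (tsum_congr fun j => ?_)
  by_cases h : w j = 0
  · simp [h]
  · rw [cert_xi_zero _ (hr j h), mul_zero]

theorem GG_split (hw : Summable w) (j : ℕ) : tr (GG a b x w) = fun d =>
    w j * tr (fun y => cert (b j) (a j) (x j) y.1) d +
      tr (GG a b x (Function.update w j 0)) d := by
  funext d
  have hs : Summable fun j => w j * cert (b j) (a j) (x j) (inc d).1 :=
    Summable.of_norm_bounded (hw.abs.mul_right 5) fun j => norm_term_le j _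
  simp only [tr, GG]
  rw [hs.tsum_eq_add_tsum_ite j]
  congr 1
  refine tsum_congr fun i => ?_
  by_cases h : i = j <;> simp [h]

theorem update_ne (hi : ∀ j j', w j ≠ 0 → w j' ≠ 0 → a j = a j' → j = j') {j : ℕ} (hj : w j ≠ 0) :
    ∀ i, Function.update w j 0 i ≠ 0 → a i ≠ a j := by
  intro i h e
  by_cases h1 : i = j
  · simp [h1] at h
  · rw [Function.update_of_ne h1] at h
    exact h1 (hi i j h hj e)

theorem lim_GG_eq (hw : Summable w) (hi : ∀ j j', w j ≠ 0 → w j' ≠ 0 → a j = a j' → j = j')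
    {j : ℕ} (hj : w j ≠ 0) (hb : b j) :
    Tendsto (fun δ => tr (GG a b x w) (ap (a j) δ)) (Fl 0) (𝓝 (w j * (2 * (sg (x j)).2))) := by
  rw [GG_split hw j]
  have := ((lim_cert hb (a j) (x j)).const_mul (w j)).add
    (lim_GG_ne (b := b) (x := x) (hw.update j 0) (update_ne hi hj))
  rwa [add_zero] at this

theorem GG_mem_iff {Bd : Set R} {dd : R → ℝ} (hQ : Disjoint Bd Qset) (hdd : ∀ r, 0 ≤ dd r)
    (hw : Summable w) (hi : ∀ j j', w j ≠ 0 → w j' ≠ 0 → a j = a j' → j = j')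
    (hx : ∀ j, w j ≠ 0 → 0 ≤ x j) : GG a b x w ∈ Cc Bd dd ↔
      ∀ j, w j ≠ 0 → (a j ∉ Bd → b j) ∧ (a j ∈ Bd → dd (a j) = x j) := by
  have h1 : ∀ j, w j ≠ 0 → (Iso (tr (GG a b x w)) (a j) ↔ b j) := fun j hj => by
    rw [GG_split hw j, iso_add_iff (iso_GG_ne (hw.update j 0) (update_ne hi hj)) hj,
      iso_cert (hx j hj)]
  have h2 : ∀ j, w j ≠ 0 → a j ∈ Bd →
      (Sat (tr (GG a b x w)) (a j) (dd (a j)) ↔ dd (a j) = x j) := fun j hj hB => by
    rw [GG_split hw j, sat_add_iff (sat_GG_ne (hw.update j 0) (update_ne hi hj)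
      (Set.disjoint_left.1 hQ hB) _) hj, sat_cert (hx j hj) (hdd _)]
  constructor
  · rintro ⟨-, h3, h4⟩ j hj
    exact ⟨fun h => (h1 j hj).1 (h3 _ h), fun h => (h2 j hj h).1 (h4 _ h)⟩
  · intro h
    refine ⟨continuous_GG hw, fun r hr => ?_, fun r hr => ?_⟩
    · by_cases hc : ∃ j, w j ≠ 0 ∧ a j = r
      · obtain ⟨j, hj, rfl⟩ := hc
        exact (h1 j hj).2 ((h j hj).1 hr)
      · exact iso_GG_ne hw fun j hj e => hc ⟨j, hj, e⟩
    · by_cases hc : ∃ j, w j ≠ 0 ∧ a j = r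
      · obtain ⟨j, hj, rfl⟩ := hc
        exact (h2 j hj hr).2 ((h j hj).2 hr)
      · exact sat_GG_ne hw (fun j hj e => hc ⟨j, hj, e⟩) (Set.disjoint_left.1 hQ hr) _

theorem measurable_cert {P : Type} [MeasurableSpace P] {b : P → Prop} {a : P → R} {x : P → ℝ}
    (hb : Measurable b) (ha : Measurable a) (hx : Measurable x) (d : DD) :
    Measurable fun p => cert (b p) (a p) (x p) d.1 := by
  obtain ⟨m, hm⟩ := d.2.1.2
  have h1 : Measurable fun p => d.1 (a p) := hm.lc.continuous.measurable.comp ha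
  have h2 : Measurable fun p => sg (x p) := continuous_sg.measurable.comp hx
  have h3 : Dep m fun r => OO fun j => pp (d.1 (qq r j)) := by
    intro r r' h
    dsimp only
    congr 1
    funext j
    rw [hm (qq r j) (qq r' j)]
    intro i hi
    simp only [qq]
    split_ifs with h1 h2
    · exact h i hi
    · rw [h j (h2 ▸ hi)]
    · rfl
  unfold cert
  refine Measurable.add ?_ (Measurable.ite hb.setOf measurable_const ?_)
  · exact (continuous_det.measurable.comp (h2.prodMk h1)).sub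
      (continuous_det.measurable.comp (h2.prodMk measurable_const))
  · exact (continuous_chi.measurable.comp (hx.prodMk h1)).mul (h3.lc.continuous.measurable.comp ha)

end Pool.Agent.P.MP_fa84b3_gt.Cx
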