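import Mathlib
import Pool.Agent.P.MP_fa84b3_gt.Embed

/-!
Abstract hole-filling: a continuous injection with sigma-compact range.
-/

namespace Pool.Agent.P.MP_fa84b3_gt.Cx

open Set Filter Topology

section

variable (D : Type)

abbrev WW : Type := (D → ℝ) × ℝ × (J → ℝ)

abbrev Om : Type := ℕ × Option (D ⊕ Option J) → ℝ

variable {D}

noncomputable def Jh (w : WW D) : D ⊕ Option J → ℝ :=
  Sum.elim (fun d => Real.arctan (w.1 d))
    (fun o => o.elim (Real.arctan w.2.1) fun j => Real.arctan (w.2.2 j))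

theorem continuous_Jh (κ : D ⊕ Option J) : Continuous fun w : WW D => Jh w κ := by
  rcases κ with d | _ | j
  · exact Real.continuous_arctan.comp (by fun_prop)
  · exact Real.continuous_arctan.comp (by fun_prop)
  · exact Real.continuous_arctan.comp (by fun_prop)

theorem abs_arctan_le (x : ℝ) : |Real.arctan x| ≤ 2 := by
  have h1 := Real.arctan_lt_pi_div_two x
  have h2 := Real.neg_pi_div_two_lt_arctan x
  have := Real.pi_le_four
  rw [abs_le]; constructor <;> linarith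

theorem abs_Jh_le (w : WW D) (κ : D ⊕ Option J) : |Jh w κ| ≤ 2 := by
  rcases κ with d | _ | j <;> exact abs_arctan_le _

theorem Jh_injective : Function.Injective (Jh (D := D)) := by
  rintro ⟨a, b, c⟩ ⟨a', b', c'⟩ h
  have h1 : a = a' := funext fun d => Real.arctan_injective (congrFun h (Sum.inl d))
  have h2 : b = b' := Real.arctan_injective (congrFun h (Sum.inr none))
  have h3 : c = c' := funext fun j => Real.arctan_injective (congrFun h (Sum.inr (some j)))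
  rw [h1, h2, h3]

/-- the slabs -/
def Cs (x : ℝ) : Set (WW D) := {w | |w.2.1| ≤ x + 1 / 2}

theorem isClosed_Cs (x : ℝ) : IsClosed (Cs (D := D) x) :=
  isClosed_le (by fun_prop) continuous_const

noncomputable def dec (m : ℕ) (y : Om D) : D → ℝ :=
  fun d => y (m, some (Sum.inl d)) / y (m, none)

def Top (m : ℕ) : Set (Om D) :=
  {y | (∀ i, |y i| ≤ 2) ∧ (∀ k, m < k → ∀ o, y (k, o) = 0) ∧ 0 < y (m, none)}

def Ktop {H : Type} (K : Set ((D → ℝ) × H)) (m : ℕ) : Set (Om D × H) :=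
  {p | p.1 ∈ Top m ∧ (dec m p.1, p.2) ∈ K}

structure Inv (m : ℕ) (Φ : WW D → Om D) (Γ : Set (WW D)) : Prop where
  cont : Continuous Φ
  closed : IsClosed Γ
  bdd : ∀ w i, |Φ w i| ≤ 2
  van : ∀ w k, m < k → ∀ o, Φ w (k, o) = 0
  nonneg : ∀ w, 0 ≤ Φ w (m, none)
  zero : ∀ w, Φ w (m, none) = 0 ↔ w ∈ Cs ((m : ℝ) - 1) ∪ Γ
  cone : ∀ w κ, Φ w (m, some κ) = Φ w (m, none) * Jh w κ

def Sh (m : ℕ) (Φ : WW D → Om D) : Set (WW D) := {w | w ∈ Cs (m : ℝ) ∧ Φ w (m, none) ≠ 0}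

theorem Inv.injOn {m : ℕ} {Φ : WW D → Om D} {Γ : Set (WW D)} (h : Inv m Φ Γ) :
    InjOn Φ (Sh m Φ) := by
  intro w hw w' _ he
  refine Jh_injective (funext fun κ => ?_)
  have h1 := h.cone w κ
  have h2 := h.cone w' κ
  rw [he, h2] at h1
  have h3 : Φ w' (m, none) ≠ 0 := he ▸ hw.2
  exact (mul_left_cancel₀ h3 h1).symm

theorem Inv.dec_eq {m : ℕ} {Φ : WW D → Om D} {Γ : Set (WW D)} (h : Inv m Φ Γ) {w : WW D}
    (hw : w ∈ Sh m Φ) : dec m (Φ w) = fun d => Real.arctan (w.1 d) := by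
  funext d
  simp only [dec, h.cone]
  rw [mul_div_cancel_left₀ _ hw.2]; rfl

theorem exists_zero_fun {W : Type} [TopologicalSpace W] [TopologicalSpace.MetrizableSpace W]
    {s : Set W} (hs : IsClosed s) (hne : s.Nonempty) :
    ∃ μ : W → ℝ, Continuous μ ∧ (∀ w, 0 ≤ μ w) ∧ (∀ w, μ w ≤ 1) ∧ ∀ w, μ w = 0 ↔ w ∈ s := by
  let := TopologicalSpace.metrizableSpaceMetric W
  refine ⟨fun w => min 1 (Metric.infDist w s),
    continuous_const.min (Metric.continuous_infDist_pt s),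
    fun w => le_min zero_le_one Metric.infDist_nonneg, fun w => min_le_left _ _, fun w => ?_⟩
  rw [hs.mem_iff_infDist_zero hne]
  constructor
  · intro h
    rcases min_choice 1 (Metric.infDist w s) with h1 | h1
    · simp only [h1] at h; exact absurd h one_ne_zero
    · simpa only [h1] using h
  · intro h; simp [h]

variable [Countable D] {H S₀ : Type} [TopologicalSpace S₀] [PolishSpace S₀] [MeasurableSpace S₀]
  [BorelSpace S₀] [Nonempty S₀]

/-- the data of a universal parametrisation -/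
structure Par (V : Set (D → ℝ)) (η : (D → ℝ) → H) (K : Set ((D → ℝ) × H))
    (F G : S₀ → D → ℝ) (Dom Good : Set S₀) : Prop where
  mF : Measurable F
  mG : Measurable G
  mDom : MeasurableSet Dom
  mGood : MeasurableSet Good
  bij : BijOn (fun c => (F c, η (G c))) {c | c ∈ Dom ∧ G c ∈ V} K
  good : ∀ c ∈ Dom, G c ∈ V →
    (c ∈ Good ↔ ∃ v ∈ V, (fun d => Real.arctan (v d)) = F c ∧ η v = η (G c))

theorem step {V : Set (D → ℝ)} {η : (D → ℝ) → H} {K : Set ((D → ℝ) × H)}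
    {F G : S₀ → D → ℝ} {Dom Good : Set S₀} (hP : Par V η K F G Dom Good)
    {m : ℕ} {Φ : WW D → Om D} {Γp : Set (WW D)} (h : Inv m Φ Γp) :
    ∃ (Φ' : WW D → Om D) (Γ : Set (WW D)), Inv (m + 1) Φ' Γ ∧ EqOn Φ' Φ (Cs m) ∧
      (∀ w ∈ Γ, w.2.1 = m + 1) ∧
      BijOn (fun w => (Φ' w, η w.1)) {w | w ∈ Γ ∧ w.1 ∈ V}
        (Ktop K m \ (fun w => (Φ w, η w.1)) '' {w | w ∈ Sh m Φ ∧ w.1 ∈ V}) := by
  classical
  have hShm : MeasurableSet (Sh m Φ) := by
    refine (isClosed_Cs (m : ℝ)).measurableSet.inter ?_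
    exact (isOpen_ne_fun ((continuous_apply _).comp h.cont) continuous_const).measurableSet
  have hR : MeasurableSet (Φ '' Sh m Φ) :=
    hShm.image_of_continuousOn_injOn h.cont.continuousOn h.injOn
  have hTop : MeasurableSet (Top (D := D) m) := by
    unfold Top
    refine Measurable.setOf ?_
    refine Measurable.and (Measurable.forall fun i => ?_) (Measurable.and
      (Measurable.forall fun k => measurable_const.imp (Measurable.forall fun o => ?_)) ?_)
    · exact measurableSet_setOfPred.1 (measurableSet_le (by fun_prop) measurable_const)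
    · exact measurableSet_setOfPred.1 (measurableSet_eq_fun (by fun_prop) measurable_const)
    · exact measurableSet_setOfPred.1 (measurableSet_lt measurable_const (by fun_prop))
  have hdec : Measurable (dec (D := D) m) := by
    refine measurable_pi_lambda _ fun d => ?_
    unfold dec
    fun_prop
  let S : Set (Om D × S₀) := (Prod.fst ⁻¹' Top m ∩ Prod.snd ⁻¹' Dom ∩
    {p | F p.2 = dec m p.1}) \ (Prod.fst ⁻¹' (Φ '' Sh m Φ) ∩ Prod.snd ⁻¹' Good)
  have hS : MeasurableSet S := by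
    refine (((measurable_fst hTop).inter (measurable_snd hP.mDom)).inter ?_).diff
      ((measurable_fst hR).inter (measurable_snd hP.mGood))
    exact measurableSet_eq_fun (hP.mF.comp measurable_snd) (hdec.comp measurable_fst)
  obtain ⟨Γ₀, π, hΓc, hπc, hπi, hπS, hπG⟩ :=
    exists_closed_param hS (hP.mG.comp measurable_snd)
  let pr : WW D → (D → ℝ) × (J → ℝ) := fun w => (w.1, w.2.2)
  have hpr : Continuous pr := by fun_prop
  let Γ : Set (WW D) := {w | w.2.1 = m + 1} ∩ pr ⁻¹' Γ₀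
  have hΓ : IsClosed Γ := (isClosed_eq (by fun_prop) continuous_const).inter (hΓc.preimage hpr)
  have hdis : ∀ w ∈ Γ, w ∉ Cs (D := D) (m : ℝ) := by
    intro w hw hc
    have h1 : w.2.1 = m + 1 := hw.1
    have h2 : |w.2.1| ≤ m + 1 / 2 := hc
    rw [h1] at h2
    linarith [le_abs_self ((m : ℝ) + 1)]
  have hπS' : ∀ w ∈ Γ, π (pr w) ∈ S := fun w hw => hπS ▸ mem_image_of_mem π hw.2
  let g : WW D → Om D := fun w => if w ∈ Cs (D := D) (m : ℝ) then Φ w else (π (pr w)).1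
  have hg1 : EqOn g Φ (Cs m) := fun w hw => if_pos hw
  have hg2 : EqOn g (fun w => (π (pr w)).1) Γ := fun w hw => if_neg (hdis w hw)
  have hgc : ContinuousOn g (Cs m ∪ Γ) := by
    refine ContinuousOn.union_of_isClosed (h.cont.continuousOn.congr hg1)
      (ContinuousOn.congr ?_ hg2) (isClosed_Cs _) hΓ
    exact continuous_fst.comp_continuousOn (hπc.comp hpr.continuousOn fun w hw => hw.2)
  have hcl : IsClosed (Cs (D := D) (m : ℝ) ∪ Γ) := (isClosed_Cs _).union hΓ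
  have hT : ∀ i, ∃ Ψ : C(WW D, ℝ), (∀ w, Ψ w ∈ Icc (-2 : ℝ) 2) ∧
      ∀ w ∈ Cs (D := D) (m : ℝ) ∪ Γ, Ψ w = g w i := by
    intro i
    let f : C((Cs (D := D) (m : ℝ) ∪ Γ : Set (WW D)), ℝ) :=
      ⟨fun w => g w i, (continuous_apply i).comp (continuousOn_iff_continuous_domRestrict.1 hgc)⟩
    obtain ⟨Ψ, h1, h2⟩ := f.exists_restrict_eq_forall_mem_of_closed (t := Icc (-2 : ℝ) 2)
      (fun w => by
        rw [mem_Icc, ← abs_le]
        rcases w.2 with hw | hw
        · show |g w i| ≤ 2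
          rw [hg1 hw]; exact h.bdd _ _
        · show |g w i| ≤ 2
          rw [hg2 hw]; exact (hπS' w hw).1.1.1.1 i)
      ⟨0, by norm_num⟩ hcl
    exact ⟨Ψ, h1, fun w hw => congrArg (fun u : C(_, ℝ) => u ⟨w, hw⟩) h2⟩
  choose Ψ hΨ1 hΨ2 using hT
  obtain ⟨μ, hμc, hμ0, hμ1, hμz⟩ := exists_zero_fun hcl
    ⟨0, Or.inl (by show |(0 : ℝ)| ≤ m + 1 / 2; rw [abs_zero]; positivity)⟩
  let Φ' : WW D → Om D := fun w i => if i.1 ≤ m then Ψ i w else if i.1 = m + 1 then
    i.2.elim (μ w) (fun κ => μ w * Jh w κ) else 0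
  have hΦ'g : ∀ w ∈ Cs (D := D) (m : ℝ) ∪ Γ, (∀ k, m < k → ∀ o, g w (k, o) = 0) →
      Φ' w = g w := by
    intro w hw hv
    funext ⟨k, o⟩
    by_cases hk : k ≤ m
    · simp only [Φ', if_pos hk]; exact hΨ2 _ w hw
    · rw [hv k (by omega) o]
      have := (hμz w).2 hw
      simp only [Φ', if_neg hk]
      split_ifs
      · rcases o with _ | κ <;> simp [this]
      · rfl
  have hΦ'1 : EqOn Φ' Φ (Cs m) := fun w hw => by
    rw [hΦ'g w (Or.inl hw) (by rw [hg1 hw]; exact h.van w), hg1 hw]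
  have hΦ'2 : ∀ w ∈ Γ, Φ' w = (π (pr w)).1 := fun w hw => by
    rw [hΦ'g w (Or.inr hw) (by rw [hg2 hw]; exact (hπS' w hw).1.1.1.2.1), hg2 hw]
  refine ⟨Φ', Γ, ⟨?_, hΓ, ?_, ?_, ?_, ?_, ?_⟩, hΦ'1, fun w hw => hw.1, ?_, ?_, ?_⟩
  · refine continuous_pi fun ⟨k, o⟩ => ?_
    simp only [Φ']
    split_ifs
    · exact (Ψ _).continuous
    · rcases o with _ | κ
      · exact hμc
      · exact hμc.mul (continuous_Jh κ)
    · exact continuous_const
  · rintro w ⟨k, o⟩
    simp only [Φ']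
    split_ifs
    · exact abs_le.2 (hΨ1 _ w)
    · rcases o with _ | κ
      · show |μ w| ≤ 2
        rw [abs_of_nonneg (hμ0 w)]; linarith [hμ1 w]
      · show |μ w * Jh w κ| ≤ 2
        rw [abs_mul, abs_of_nonneg (hμ0 w)]
        nlinarith [hμ0 w, hμ1 w, abs_Jh_le w κ, abs_nonneg (Jh w κ)]
    · simp
  · intro w k hk o
    simp only [Φ']
    rw [if_neg (by omega), if_neg (by omega)]
  · intro w
    simpa [Φ'] using hμ0 w
  · intro w
    have : ((m + 1 : ℕ) : ℝ) - 1 = m := by push_cast; ring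
    rw [this, ← hμz w]
    simp [Φ']
  · intro w κ
    simp [Φ']
  · rintro w ⟨hw, hwV⟩
    obtain ⟨⟨⟨hT, hD⟩, hF⟩, hn⟩ := hπS' w hw
    have hG : w.1 = G (π (pr w)).2 := hπG _ hw.2
    have hGV : G (π (pr w)).2 ∈ V := hG ▸ hwV
    have hK := hP.bij.mapsTo ⟨hD, hGV⟩
    simp only [hΦ'2 w hw]
    refine ⟨⟨hT, ?_⟩, ?_⟩
    · have hF' : F (π (pr w)).2 = dec m (π (pr w)).1 := hF
      simp only
      rw [← hF', hG]; exact hK
    · rintro ⟨w', ⟨hw', hw'V⟩, he⟩
      simp only [Prod.mk.injEq] at he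
      refine hn ⟨⟨w', hw', he.1⟩, (hP.good _ hD hGV).2 ⟨w'.1, hw'V, ?_, ?_⟩⟩
      · have hF' : F (π (pr w)).2 = dec m (π (pr w)).1 := hF
        rw [hF', ← he.1, h.dec_eq hw']
      · rw [he.2, hG]
  · rintro w ⟨hw, hwV⟩ w' ⟨hw', hw'V⟩ he
    simp only [hΦ'2 w hw, hΦ'2 w' hw', Prod.mk.injEq] at he
    obtain ⟨⟨⟨-, hD⟩, hF⟩, -⟩ := hπS' w hw
    obtain ⟨⟨⟨-, hD'⟩, hF'⟩, -⟩ := hπS' w' hw'
    have hG : w.1 = G (π (pr w)).2 := hπG _ hw.2
    have hG' : w'.1 = G (π (pr w')).2 := hπG _ hw'.2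
    have e1 : F (π (pr w)).2 = dec m (π (pr w)).1 := hF
    have e2 : F (π (pr w')).2 = dec m (π (pr w')).1 := hF'
    have hc : (π (pr w)).2 = (π (pr w')).2 := by
      refine hP.bij.injOn ⟨hD, hG ▸ hwV⟩ ⟨hD', hG' ▸ hw'V⟩ ?_
      rw [e1, e2, ← hG, ← hG', he.1, he.2]
    have hpp : pr w = pr w' := hπi hw.2 hw'.2 (Prod.ext he.1 hc)
    simp only [pr, Prod.mk.injEq] at hpp
    have z1 : w.2.1 = m + 1 := hw.1
    have z2 : w'.2.1 = m + 1 := hw'.1
    exact Prod.ext hpp.1 (Prod.ext (z1.trans z2.symm) hpp.2)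
  · rintro ⟨y, e⟩ ⟨⟨hT, hK⟩, hn⟩
    obtain ⟨c, ⟨hD, hGV⟩, hc⟩ := hP.bij.surjOn hK
    simp only [Prod.mk.injEq] at hc
    have hyc : (y, c) ∈ S := by
      refine ⟨⟨⟨hT, hD⟩, hc.1⟩, ?_⟩
      rintro ⟨⟨w', hw', he⟩, hgood⟩
      obtain ⟨v, hv, hv1, hv2⟩ := (hP.good _ hD hGV).1 hgood
      have he' : Φ w' = y := he
      have hvw : v = w'.1 := by
        funext d
        refine Real.arctan_injective ?_
        have h1 := congrFun hv1 d
        have h2 := congrFun (h.dec_eq hw') d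
        rw [he'] at h2
        rw [h1, hc.1, h2]
      exact hn ⟨w', ⟨hw', hvw ▸ hv⟩, by simp only; rw [he', ← hvw, hv2, hc.2]⟩
    rw [← hπS] at hyc
    obtain ⟨γ, hγ, hγe⟩ := hyc
    have hw : ((γ.1, (m : ℝ) + 1, γ.2) : WW D) ∈ Γ := ⟨rfl, hγ⟩
    have hG : γ.1 = G c := by
      have := hπG γ hγ
      rw [hγe] at this; exact this
    refine ⟨_, ⟨hw, hG ▸ hGV⟩, ?_⟩
    simp only [hΦ'2 _ hw]
    have : pr (γ.1, (m : ℝ) + 1, γ.2) = γ := rfl
    rw [this, hγe, hG, hc.2]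

omit [Countable D] in
theorem inv_zero : Inv (D := D) 0
    (fun w i => if i.1 = 0 then i.2.elim 1 (fun κ => Jh w κ) else 0) ∅ := by
  refine ⟨?_, isClosed_empty, ?_, ?_, ?_, ?_, ?_⟩
  · refine continuous_pi fun ⟨k, o⟩ => ?_
    simp only
    split_ifs
    · rcases o with _ | κ
      · exact continuous_const
      · exact continuous_Jh κ
    · exact continuous_const
  · rintro w ⟨k, o⟩
    simp only
    split_ifs
    · rcases o with _ | κ
      · simp
      · exact abs_Jh_le w κ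
    · simp
  · intro w k hk o
    simp only
    rw [if_neg (by omega)]
  · intro w; simp
  · intro w
    have : ¬ |w.2.1| ≤ -1 + 1 / 2 := by
      have := abs_nonneg w.2.1
      linarith
    simpa [Cs] using this
  · intro w κ; simp

omit [Countable D] in
theorem isSigmaCompact_Ktop [TopologicalSpace H] [T2Space H] {K : ℕ → Set ((D → ℝ) × H)}
    (hK : ∀ n, IsCompact (K n)) (m : ℕ) : IsSigmaCompact (Ktop (⋃ n, K n) m) := by
  let Z : ℕ × ℕ → Set (Om D × H) := fun q =>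
    {p | (∀ i, |p.1 i| ≤ 2) ∧ (∀ k, m < k → ∀ o, p.1 (k, o) = 0) ∧
      1 / ((q.1 : ℝ) + 1) ≤ p.1 (m, none) ∧
      ((fun d => p.1 (m, some (Sum.inl d)) / max (p.1 (m, none)) (1 / ((q.1 : ℝ) + 1))), p.2)
        ∈ K q.2}
  have hZ : ∀ q, IsCompact (Z q) := by
    intro q
    have hc : IsCompact ((Set.pi univ fun _ => Icc (-2 : ℝ) 2 : Set (Om D)) ×ˢ
        (Prod.snd '' K q.2)) :=
      (isCompact_univ_pi fun _ => isCompact_Icc).prod ((hK _).image continuous_snd)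
    refine hc.of_isClosed_subset ?_ ?_
    · simp only [Z, ofPred_and, ofPred_forall]
      refine (isClosed_iInter fun i => isClosed_le (by fun_prop) continuous_const).inter
        ((isClosed_iInter fun k => isClosed_iInter fun _ => isClosed_iInter fun o =>
          isClosed_eq (by fun_prop) continuous_const).inter
        ((isClosed_le continuous_const (by fun_prop)).inter ?_))
      refine (hK q.2).isClosed.preimage (f := fun p : Om D × H =>
        ((fun d => p.1 (m, some (Sum.inl d)) / max (p.1 (m, none)) (1 / ((q.1 : ℝ) + 1))), p.2))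
        (Continuous.prodMk (continuous_pi fun d => ?_) continuous_snd)
      refine Continuous.div (by fun_prop) (by fun_prop) fun p => ?_
      exact (lt_max_of_lt_right (by positivity)).ne'
    · rintro p ⟨h1, -, -, h4⟩
      exact ⟨fun i _ => abs_le.1 (h1 i), _, h4, rfl⟩
  have : Ktop (⋃ n, K n) m = ⋃ q, Z q := by
    ext p
    simp only [Ktop, Top, mem_iUnion, mem_ofPred_eq, Z, Prod.exists]
    constructor
    · rintro ⟨⟨h1, h2, h3⟩, n, hn⟩
      obtain ⟨a, ha⟩ := exists_nat_one_div_lt h3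
      refine ⟨a, n, h1, h2, ha.le, ?_⟩
      rw [max_eq_left ha.le]; exact hn
    · rintro ⟨a, n, h1, h2, h3, h4⟩
      rw [max_eq_left h3] at h4
      exact ⟨⟨h1, h2, lt_of_lt_of_le (by positivity) h3⟩, n, h4⟩
  rw [this]
  exact isSigmaCompact_iUnion_of_isCompact _ hZ

theorem condense [TopologicalSpace H] [T2Space H] {V : Set (D → ℝ)} {η : (D → ℝ) → H}
    {K : ℕ → Set ((D → ℝ) × H)} (hK : ∀ n, IsCompact (K n))
    (hV : ∀ v ∈ V, ((fun d => Real.arctan (v d)), η v) ∈ ⋃ n, K n)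
    {F G : S₀ → D → ℝ} {Dom Good : Set S₀} (hP : Par V η (⋃ n, K n) F G Dom Good) :
    ∃ Φ : WW D → Om D, Continuous Φ ∧ InjOn (fun w => (Φ w, η w.1)) {w | w.1 ∈ V} ∧
      IsSigmaCompact ((fun w => (Φ w, η w.1)) '' {w | w.1 ∈ V}) := by
  classical
  let St : ℕ → Type := fun m => {x : (WW D → Om D) × Set (WW D) // Inv m x.1 x.2}
  have hstep : ∀ m (x : St m), ∃ y : St (m + 1), EqOn y.1.1 x.1.1 (Cs m) ∧
      (∀ w ∈ y.1.2, w.2.1 = m + 1) ∧
      BijOn (fun w => (y.1.1 w, η w.1)) {w | w ∈ y.1.2 ∧ w.1 ∈ V}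
        (Ktop (⋃ n, K n) m \ (fun w => (x.1.1 w, η w.1)) '' {w | w ∈ Sh m x.1.1 ∧ w.1 ∈ V}) := by
    intro m x
    obtain ⟨Φ', Γ, h1, h2⟩ := step hP x.2
    exact ⟨⟨(Φ', Γ), h1⟩, h2⟩
  choose nx hnx using hstep
  let s : ∀ m, St m := fun m => Nat.rec (motive := St) ⟨(_, ∅), inv_zero⟩ nx m
  have hs : ∀ m, s (m + 1) = nx m (s m) := fun m => rfl
  let Φ : ℕ → WW D → Om D := fun m => (s m).1.1
  let Γ : ℕ → Set (WW D) := fun m => (s m).1.2
  have hI : ∀ m, Inv m (Φ m) (Γ m) := fun m => (s m).2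
  have hΓ0 : Γ 0 = ∅ := rfl
  have h1 : ∀ m, EqOn (Φ (m + 1)) (Φ m) (Cs (m : ℝ)) := fun m => (hnx m (s m)).1
  have h2 : ∀ m, ∀ w ∈ Γ (m + 1), w.2.1 = m + 1 := fun m => (hnx m (s m)).2.1
  have h3 : ∀ m, BijOn (fun w => (Φ (m + 1) w, η w.1)) {w | w ∈ Γ (m + 1) ∧ w.1 ∈ V}
      (Ktop (⋃ n, K n) m \ (fun w => (Φ m w, η w.1)) '' {w | w ∈ Sh m (Φ m) ∧ w.1 ∈ V}) :=
    fun m => (hnx m (s m)).2.2
  have hmono : ∀ (m m' : ℕ), m ≤ m' → ∀ w ∈ Cs (D := D) (m : ℝ), w ∈ Cs (D := D) (m' : ℝ) := by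
    intro m m' hm w hw
    have : (m : ℝ) ≤ m' := by exact_mod_cast hm
    have hw' : |w.2.1| ≤ (m : ℝ) + 1 / 2 := hw
    show |w.2.1| ≤ (m' : ℝ) + 1 / 2
    linarith
  have h4 : ∀ (m m' : ℕ), m ≤ m' → ∀ w ∈ Cs (D := D) (m : ℝ), Φ m' w = Φ m w := by
    intro m m' hm w hw
    induction hm with
    | refl => rfl
    | @step k hk ih => rw [h1 k (hmono _ _ hk w hw), ih]
  have hex : ∀ w : WW D, ∃ m : ℕ, w ∈ Cs (D := D) (m : ℝ) := fun w =>
    ⟨⌈|w.2.1|⌉₊, show |w.2.1| ≤ (⌈|w.2.1|⌉₊ : ℝ) + 1 / 2 by linarith [Nat.le_ceil |w.2.1|]⟩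
  let Ψ : WW D → Om D := fun w => Φ (Nat.find (hex w)) w
  have h5 : ∀ (m : ℕ), ∀ w ∈ Cs (D := D) (m : ℝ), Ψ w = Φ m w := fun m w hw =>
    (h4 _ _ (Nat.find_min' _ hw) w (Nat.find_spec (hex w))).symm
  have hc : Continuous Ψ := by
    rw [continuous_iff_continuousAt]
    intro w
    obtain ⟨m, hm⟩ := hex w
    refine ((hI (m + 1)).cont.continuousAt).congr ?_
    have ho : IsOpen {w : WW D | |w.2.1| < (m : ℝ) + 1} :=
      isOpen_lt (by fun_prop) continuous_const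
    have hm' : |w.2.1| ≤ m + 1 / 2 := hm
    filter_upwards [ho.mem_nhds (show |w.2.1| < (m : ℝ) + 1 by linarith)] with w' hw'
    refine (h5 (m + 1) w' ?_).symm
    have : |w'.2.1| < (m : ℝ) + 1 := hw'
    show |w'.2.1| ≤ ((m + 1 : ℕ) : ℝ) + 1 / 2
    push_cast; linarith
  let φ : WW D → Om D × H := fun w => (Ψ w, η w.1)
  let A : ℕ → Set (WW D) := fun m => {w | w ∈ Sh m (Φ m) ∧ w.1 ∈ V}
  let B : ℕ → Set (WW D) := fun m => {w | w ∈ Γ (m + 1) ∧ w.1 ∈ V}
  have hA : ∀ m, EqOn φ (fun w => (Φ m w, η w.1)) (A m) := fun m w hw => by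
    simp only [φ]; rw [h5 m w hw.1.1]
  have hB : ∀ m, EqOn φ (fun w => (Φ (m + 1) w, η w.1)) (B m) := fun m w hw => by
    simp only [φ]
    rw [h5 (m + 1) w]
    show |w.2.1| ≤ ((m + 1 : ℕ) : ℝ) + 1 / 2
    rw [h2 m w hw.1, abs_of_nonneg (by positivity)]
    push_cast; linarith
  have hA' : ∀ m, MapsTo φ (A m) (Ktop (⋃ n, K n) m) := fun m w hw => by
    rw [hA m hw]
    refine ⟨⟨(hI m).bdd w, (hI m).van w, lt_of_le_of_ne ((hI m).nonneg w) hw.1.2.symm⟩, ?_⟩
    simp only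
    rw [(hI m).dec_eq hw.1]
    exact hV _ hw.2
  have hB' : ∀ m, BijOn φ (B m) (Ktop (⋃ n, K n) m \ φ '' A m) := fun m => by
    rw [(hA m).image_eq]
    exact (h3 m).congr (hB m).symm
  have hAB : ∀ m, BijOn φ (A m ∪ B m) (Ktop (⋃ n, K n) m) := by
    intro m
    refine ⟨?_, ?_, ?_⟩
    · rintro w (hw | hw)
      · exact hA' m hw
      · exact ((hB' m).mapsTo hw).1
    · rintro w (hw | hw) w' (hw' | hw') he
      · rw [hA m hw, hA m hw'] at he
        exact (hI m).injOn hw.1 hw'.1 (congrArg Prod.fst he)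
      · exact absurd ⟨w, hw, he⟩ ((hB' m).mapsTo hw').2
      · exact absurd ⟨w', hw', he.symm⟩ ((hB' m).mapsTo hw).2
      · exact (hB' m).injOn hw hw' he
    · intro p hp
      by_cases h : p ∈ φ '' A m
      · exact image_mono subset_union_left h
      · exact image_mono subset_union_right ((hB' m).surjOn ⟨hp, h⟩)
  have hU : {w : WW D | w.1 ∈ V} = ⋃ m, (A m ∪ B m) := by
    ext w
    simp only [mem_iUnion, mem_ofPred_eq]
    constructor
    · intro hw
      by_cases hz : Φ (Nat.find (hex w)) w (Nat.find (hex w), none) = 0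
      · have hsp := Nat.find_spec (hex w)
        have hmin := fun k => Nat.find_min (hex w) (m := k)
        generalize Nat.find (hex w) = m at hz hsp hmin
        rcases m with _ | m
        · rcases ((hI 0).zero w).1 hz with h | h
          · exfalso
            have h' : |w.2.1| ≤ ((0 : ℕ) : ℝ) - 1 + 1 / 2 := h
            have := abs_nonneg w.2.1
            push_cast at h'; linarith
          · rw [hΓ0] at h; exact h.elim
        · rcases ((hI (m + 1)).zero w).1 hz with h | h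
          · exfalso
            have : ((m + 1 : ℕ) : ℝ) - 1 = m := by push_cast; ring
            rw [this] at h
            exact hmin m (Nat.lt_succ_self m) h
          · exact ⟨m, Or.inr ⟨h, hw⟩⟩
      · exact ⟨_, Or.inl ⟨⟨Nat.find_spec (hex w), hz⟩, hw⟩⟩
    · rintro ⟨m, h | h⟩ <;> exact h.2
  refine ⟨Ψ, hc, ?_, ?_⟩
  · rw [hU]
    intro w hw w' hw' he
    obtain ⟨m, hm⟩ := mem_iUnion.1 hw
    obtain ⟨m', hm'⟩ := mem_iUnion.1 hw'
    have k1 := ((hAB m).mapsTo hm).1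
    have k2 := ((hAB m').mapsTo hm').1
    have he' : φ w = φ w' := he
    rw [← he'] at k2
    have : m = m' := by
      rcases lt_trichotomy m m' with h | h | h
      · exact absurd (k1.2.1 m' h none) k2.2.2.ne'
      · exact h
      · exact absurd (k2.2.1 m h none) k1.2.2.ne'
    subst this
    exact (hAB m).injOn hm hm' he
  · rw [hU, image_iUnion]
    refine isSigmaCompact_iUnion _ fun m => ?_
    have := (hAB m).image_eq
    simp only [φ] at this
    rw [this]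
    exact isSigmaCompact_Ktop hK m

end

end Pool.Agent.P.MP_fa84b3_gt.Cx
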