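import Mathlib
import Pool.Agent.P.MP_fa84b3_gt.Cert
import Pool.Agent.P.MP_fa84b3_gt.Cond

/-!
Candidate branches and the compact sets.
-/

namespace Pool.Agent.P.MP_fa84b3_gt.Cx

open Set Filter Topology PiNat Real

noncomputable def tn (F : DD → ℝ) : DD → ℝ := fun d => tan (F d)

noncomputable def atn (F : DD → ℝ) : DD → ℝ := fun d => arctan (F d)

theorem tn_atn (F : DD → ℝ) : tn (atn F) = F := funext fun _ => tan_arctan _

theorem measurable_tn : Measurable tn := measurable_pi_lambda _ fun d => by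
  simp only [tn, tan_eq_sin_div_cos]; fun_prop

theorem measurable_atn : Measurable atn := measurable_pi_lambda _ fun d =>
  measurable_arctan.comp (measurable_pi_apply d)

def VV (Bd : Set R) (dd : R → ℝ) : Set (DD → ℝ) :=
  {v | ∃ f ∈ Cc Bd dd, f (inc u0) = 0 ∧ tr f = v}

noncomputable def eh (v : DD → ℝ) (r : R) : ℝ := cl (LimQ v r 0 - 1)

open Classical in
noncomputable def eta (Bd : Set R) (v : DD → ℝ) : R → ℝ := fun r => if r ∈ Bd then 0 else eh v r

theorem eh_mem (v : DD → ℝ) (r : R) : eh v r ∈ Icc (0 : ℝ) 1 := ⟨cl_nonneg _, cl_le_one _⟩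

theorem eta_mem (Bd : Set R) (v : DD → ℝ) (r : R) : eta Bd v r ∈ Icc (0 : ℝ) 1 := by
  unfold eta; split_ifs
  · exact ⟨le_rfl, zero_le_one⟩
  · exact eh_mem v r

theorem eh_eq {v : DD → ℝ} {r : R} {L : ℝ} (h : Tendsto (fun δ => v (ap r δ)) (Fl 0) (𝓝 L)) :
    eh v r = cl (L - 1) := by
  unfold eh
  rw [LimQ_eq (q := 0) (by rwa [Rat.cast_zero])]

def Wid (n : ℕ) : Set (DD → ℝ) :=
  {F | ∀ (l : ℕ) (r : Fin (n + 1) → R), (∀ i j, i ≠ j → r i ∉ cylinder (r j) l) →
    ∃ i, F (ap (r i) (l, 0, 0)) ≤ arctan (1 / 2)}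

def Cand (n : ℕ) (F : DD → ℝ) : Set R :=
  {r | ∀ δ ∈ Box 0 n, arctan 1 ≤ F (ap r δ) ∧ F (uD r δ.2.1) ≤ arctan (1 / 2)}

def IsC (F : DD → ℝ) (r : R) : Prop := ∃ n, r ∈ Cand n F

theorem Cand_mono {n n' : ℕ} (h : n ≤ n') (F : DD → ℝ) : Cand n F ⊆ Cand n' F :=
  fun _ hr δ hδ => hr δ (Box_anti 0 h hδ)

theorem Wid_mono {n n' : ℕ} (h : n ≤ n') : Wid n ⊆ Wid n' := by
  intro F hF l r hr
  obtain ⟨i, hi⟩ := hF l (fun i => r (Fin.castLE (by omega) i)) fun i j hij =>
    hr _ _ fun e => hij (Fin.castLE_injective _ e)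
  exact ⟨_, hi⟩

theorem isClosed_Wid (n : ℕ) : IsClosed (Wid n) := by
  simp only [Wid, ofPred_forall, ofPred_exists]
  exact isClosed_iInter fun l => isClosed_iInter fun r => isClosed_iInter fun _ =>
    isClosed_iUnion_of_finite fun i => isClosed_le (continuous_apply _) continuous_const

theorem isClosed_Cand (n : ℕ) (r : R) : IsClosed {F | r ∈ Cand n F} := by
  show IsClosed {F : DD → ℝ | ∀ δ ∈ Box 0 n,
    arctan 1 ≤ F (ap r δ) ∧ F (uD r δ.2.1) ≤ arctan (1 / 2)}
  simp only [ofPred_forall, ofPred_and]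
  exact isClosed_iInter fun δ => isClosed_iInter fun _ =>
    (isClosed_le continuous_const (continuous_apply _)).inter
      (isClosed_le (continuous_apply _) continuous_const)

theorem finite_IsC {n : ℕ} {F : DD → ℝ} (h : F ∈ Wid n) : {r | IsC F r}.Finite := by
  by_contra hc
  let e := Set.Infinite.natEmbedding _ hc
  let r : Fin (n + 1) → R := fun i => (e i).1
  have hr : Function.Injective r := fun i j hij =>
    Fin.val_injective (e.injective (Subtype.ext hij))
  have h1 : ∀ᶠ l in atTop, ∀ i j, i ≠ j → r i ∉ cylinder (r j) l := by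
    refine eventually_all.2 fun i => eventually_all.2 fun j => ?_
    filter_upwards [eventually_gt_atTop (firstDiff (r i) (r j))] with l hl hij
    exact (notMem_cyl_iff (hr.ne hij) l).2 hl
  have h2 : ∀ᶠ l in atTop, ∀ i, r i ∈ Cand l F := by
    refine eventually_all.2 fun i => ?_
    obtain ⟨k, hk⟩ := (e i).2
    filter_upwards [eventually_ge_atTop k] with l hl using Cand_mono hl F hk
  obtain ⟨l, h3, h4⟩ := (h1.and h2).exists
  obtain ⟨i, hi⟩ := h l r h3
  have h5 := (h4 i (l, 0, 0) ⟨le_rfl, by simpa using by positivity,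
    by simpa using by positivity⟩).1
  have := arctan_strictMono (show (1 / 2 : ℝ) < 1 by norm_num)
  linarith

theorem not_sat_of_cand {n : ℕ} {F : DD → ℝ} {r : R} (h : r ∈ Cand n (atn F)) {θ : ℝ}
    (h0 : 0 ≤ θ) (hs : Sat F r θ) : 1 / ((n : ℝ) + 1) ≤ θ := by
  by_contra hc
  have h1 : |θ - 0| < 1 / ((n : ℝ) + 1) := by rw [sub_zero, abs_of_nonneg h0]; exact not_le.1 hc
  have h2 : ∀ᶠ δ : Dat in Fl θ, δ ∈ Box 0 n := by
    filter_upwards [(tendsto_Fl_fst θ).eventually_ge_atTop n,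
      ((tendsto_Fl_1 θ).sub_const 0).abs.eventually (gt_mem_nhds h1),
      ((tendsto_Fl_2 θ).sub_const 0).abs.eventually (gt_mem_nhds h1)] with δ a b c using ⟨a, b, c⟩
  obtain ⟨δ, h3, h4⟩ := (h2.and ((sat_iff.1 hs).eventually
    (gt_mem_nhds (show (0 : ℝ) < 1 / 2 by norm_num)))).exists
  have h5 := arctan_strictMono.le_iff_le.1 (h δ h3).1
  have h6 := arctan_strictMono.le_iff_le.1 (h δ h3).2
  linarith

theorem isC_of_eh {f : NN → ℝ} (hf : Continuous f) (h0 : f (inc u0) = 0) {r : R}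
    (hI : Iso (tr f) r) (h : eh (tr f) r ≠ 0) : IsC (atn (tr f)) r := by
  have h1 := hI.tendsto le_rfl
  rw [eh_eq h1] at h
  have h2 : 1 < Lim (tr f) r 0 := not_le.1 fun h3 => h (cl_of_nonpos (by linarith))
  have h3 := tendsto_tr_uD hf r 0
  rw [uN_zero, h0] at h3
  obtain ⟨n, hn⟩ := ev_Fl.1 ((h1.eventually (lt_mem_nhds h2)).and
    (h3.eventually (gt_mem_nhds (show (0 : ℝ) < 1 / 2 by norm_num))))
  exact ⟨n, fun δ hδ => ⟨arctan_strictMono.monotone (hn δ hδ).1.le,
    arctan_strictMono.monotone (hn δ hδ).2.le⟩⟩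

theorem wid_of_cont {f : NN → ℝ} (hf : Continuous f) (h0 : f (inc u0) = 0) :
    ∃ n, atn (tr f) ∈ Wid n := by
  obtain ⟨a, w, h⟩ := star_cont hf 0 1
  refine ⟨a.card, fun l r hr => ?_⟩
  have h1 : ∃ i, ∀ x ∈ a, x ∉ cylinder (r i) l := by
    by_contra hc
    push Not at hc
    choose x hx1 hx2 using hc
    have h2 : Function.Injective fun i => (⟨x i, hx1 i⟩ : a) := by
      intro i j hij
      by_contra hne
      have e : x i = x j := congrArg Subtype.val hij
      exact hr i j hne (cyl_trans (cyl_symm (hx2 i)) (e ▸ hx2 j))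
    have := Fintype.card_le_of_injective _ h2
    simp at this
  obtain ⟨i, hi⟩ := h1
  refine ⟨i, arctan_strictMono.monotone ?_⟩
  have h2 := h (inc u0) (inc (ap (r i) (l, 0, 0))) (fun _ _ _ => rfl) fun x hx => by
    have : (inc (ap (r i) (l, 0, 0))).1 x = t0 := by
      show AA _ _ _ _ _ = _
      rw [AA_out _ _ (hi x hx), Rat.cast_zero, cc_zero]
    rw [this]
    simpa [inc, u0] using by positivity
  rw [h0, zero_sub, abs_neg] at h2
  norm_num at h2 ⊢
  exact (abs_le.1 h2).2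

def KK (Bd : Set R) (n : ℕ) : Set ((DD → ℝ) × (R → ℝ)) :=
  {p | (∀ d, |p.1 d| ≤ 2) ∧ p.1 ∈ Wid n ∧ (∀ r, p.2 r ∈ Icc (0 : ℝ) 1) ∧
    ∀ r, p.2 r = 0 ∨ (r ∉ Bd ∧ r ∈ Cand n p.1)}

theorem isCompact_KK (Bd : Set R) (n : ℕ) : IsCompact (KK Bd n) := by
  have hc : IsCompact ((Set.pi univ fun _ => Icc (-2 : ℝ) 2 : Set (DD → ℝ)) ×ˢ
      (Set.pi univ fun _ => Icc (0 : ℝ) 1 : Set (R → ℝ))) :=
    (isCompact_univ_pi fun _ => isCompact_Icc).prod (isCompact_univ_pi fun _ => isCompact_Icc)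
  refine hc.of_isClosed_subset ?_ ?_
  · simp only [KK, ofPred_and, ofPred_forall, ofPred_or]
    refine (isClosed_iInter fun d => isClosed_le (by fun_prop) continuous_const).inter
      (((isClosed_Wid n).preimage continuous_fst).inter ((isClosed_iInter fun r =>
        isClosed_Icc.preimage (f := fun p : (DD → ℝ) × (R → ℝ) => p.2 r) (by fun_prop)).inter
        (isClosed_iInter fun r => (isClosed_eq (by fun_prop) continuous_const).union
          ((isClosed_iInter fun _ => isClosed_const).inter ((isClosed_Cand n r).preimage continuous_fst)))))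
  · rintro p ⟨h1, -, h2, -⟩
    exact ⟨fun d _ => abs_le.1 (h1 d), fun r _ => h2 r⟩

theorem mem_KK {Bd : Set R} {p : (DD → ℝ) × (R → ℝ)} : p ∈ ⋃ n, KK Bd n ↔
    (∀ d, |p.1 d| ≤ 2) ∧ (∃ n, p.1 ∈ Wid n) ∧ (∀ r, p.2 r ∈ Icc (0 : ℝ) 1) ∧
      ∀ r, p.2 r = 0 ∨ (r ∉ Bd ∧ IsC p.1 r) := by
  rw [mem_iUnion]
  constructor
  · rintro ⟨n, h1, h2, h3, h4⟩
    exact ⟨h1, ⟨n, h2⟩, h3, fun r => (h4 r).imp_right fun h => ⟨h.1, n, h.2⟩⟩
  · rintro ⟨h1, ⟨n, h2⟩, h3, h4⟩
    have h5 : ∀ᶠ l in atTop, ∀ r ∈ {r | IsC p.1 r}, r ∈ Cand l p.1 := by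
      rw [eventually_all_finite (finite_IsC h2)]
      rintro r ⟨k, hk⟩
      filter_upwards [eventually_ge_atTop k] with l hl using Cand_mono hl _ hk
    obtain ⟨l, h6, h7⟩ := (h5.and (eventually_ge_atTop n)).exists
    exact ⟨l, h1, Wid_mono h7 h2, h3, fun r => (h4 r).imp_right fun h => ⟨h.1, h6 r h.2⟩⟩

theorem isC_of_eta {Bd : Set R} {dd : R → ℝ} {v : DD → ℝ} (hv : v ∈ VV Bd dd) (r : R) :
    eta Bd v r = 0 ∨ (r ∉ Bd ∧ IsC (atn v) r) := by
  obtain ⟨f, hf, h0, rfl⟩ := hv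
  by_cases hr : r ∈ Bd
  · exact Or.inl (if_pos hr)
  · refine or_iff_not_imp_left.2 fun h => ⟨hr, isC_of_eh hf.1 h0 (hf.2.1 r hr) ?_⟩
    rwa [eta, if_neg hr] at h

theorem VV_mem_KK {Bd : Set R} {dd : R → ℝ} {v : DD → ℝ} (hv : v ∈ VV Bd dd) :
    (atn v, eta Bd v) ∈ ⋃ n, KK Bd n := by
  refine mem_KK.2 ⟨fun d => abs_arctan_le _, ?_, eta_mem Bd v, isC_of_eta hv⟩
  obtain ⟨f, hf, h0, rfl⟩ := hv
  exact wid_of_cont hf.1 h0

/-! measurable slots -/

theorem Dep.isClopen {m : ℕ} {p : R → Prop} (h : Dep m p) : IsClopen {r | p r} := by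
  have h2 := h.lc.isClopen_fiber True
  simpa only [eq_iff_iff, iff_true] using h2

theorem measurable_cand (n : ℕ) : Measurable fun p : (DD → ℝ) × R => p.2 ∈ Cand n p.1 := by
  simp only [Cand, mem_ofPred_eq]
  exact Measurable.forall fun δ => measurable_const.imp
    ((measurableSet_setOfPred.1 (measurableSet_le measurable_const (measurable_ap δ))).and
      (measurableSet_setOfPred.1 (measurableSet_le (measurable_uD _) measurable_const)))

theorem dep_agree (l : ℕ) (d d' : DD) : Dep l fun r => ∀ x ∉ cylinder r l, d.1 x = d'.1 x :=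
  fun r r' h => by simp only [mem_cylinder_iff_eq.1 h]

theorem measurable_lt_abs (k : ℕ) (d d' : DD) :
    Measurable fun F : DD → ℝ => 1 / ((k : ℝ) + 1) < |tn F d - tn F d'| :=
  measurableSet_setOfPred.1 (measurableSet_lt measurable_const
    (((measurable_pi_apply d).comp measurable_tn).sub
      ((measurable_pi_apply d').comp measurable_tn)).abs)

theorem exists_slots : ∃ (a : ℕ → (DD → ℝ) → R) (act : ℕ → (DD → ℝ) → Prop),
    (∀ j, Measurable (a j)) ∧ (∀ j, Measurable (act j)) ∧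
    (∀ F j j', act j F → act j' F → a j F = a j' F → j = j') ∧
    (∀ F r, (∃ n, F ∈ Wid n) → IsC F r → ∃ j, act j F ∧ a j F = r) ∧
    ∀ F m k, (Sset m k (tn F)).Finite → ∀ r ∈ Sset m k (tn F), ∃ j, act j F ∧ a j F = r := by
  obtain ⟨a, act, h1, h2, h3, h4⟩ := enum (P := DD → ℝ) (ι := ℕ ⊕ ℕ × ℕ)
    (Sum.elim Cand fun p F => Sset p.1 p.2 (tn F)) (by
      rintro (n | ⟨m, k⟩)
      · exact (measurable_cand n).setOf
      · refine Measurable.setOf ?_
        simp only [Sum.elim_inr, Sset, mem_ofPred_eq]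
        refine Measurable.forall fun l => Measurable.exists fun d => Measurable.exists fun d' =>
          measurable_const.and (Measurable.and ?_ ((measurable_lt_abs k d d').comp measurable_fst))
        exact (measurableSet_setOfPred.1
          (dep_agree l d d').isClopen.isOpen.measurableSet).comp measurable_snd) (by
      rintro (n | ⟨m, k⟩) W hW
      · refine hit_measurable (fun (δ : Dat) (F : DD → ℝ) (r : R) => δ ∈ Box 0 n →
          arctan 1 ≤ F (ap r δ) ∧ F (uD r δ.2.1) ≤ arctan (1 / 2)) (fun δ F => ?_)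
          (fun δ r => ?_) hW
        · refine Dep.isClopen (m := max δ.1 ⌈(δ.2.1 : ℝ)⌉₊) fun r r' h => ?_
          have e1 : ap r δ = ap r' δ := (ap_dep δ).mono (le_max_left _ _) r r' h
          have e2 : uD r δ.2.1 = uD r' δ.2.1 := (uD_dep _).mono (le_max_right _ _) r r' h
          simp only [e1, e2]
        · exact (measurable_const.imp ((measurableSet_setOfPred.1
            (measurableSet_le measurable_const (measurable_pi_apply _))).and
            (measurableSet_setOfPred.1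
              (measurableSet_le (measurable_pi_apply _) measurable_const)))).setOf
      · refine hit_measurable (fun (l : ℕ) (F : DD → ℝ) (r : R) => ∃ d d' : DD, Dep m d.1 ∧
          (∀ x ∉ cylinder r l, d.1 x = d'.1 x) ∧ 1 / ((k : ℝ) + 1) < |tn F d - tn F d'|)
          (fun l F => ?_) (fun l r => ?_) hW
        · exact Dep.isClopen (m := l) fun r r' h => by simp only [mem_cylinder_iff_eq.1 h]
        · exact (Measurable.exists fun d => Measurable.exists fun d' => measurable_const.and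
            (measurable_const.and (measurable_lt_abs k d d'))).setOf)
  refine ⟨a, act, h1, h2, h3, ?_, fun F m k => h4 F (Sum.inr (m, k))⟩
  rintro F r ⟨n, hn⟩ ⟨k, hk⟩
  exact h4 F (Sum.inl k) ((finite_IsC hn).subset fun r hr => ⟨k, hr⟩) r hk

/-! coding of amplitudes by parameters -/

noncomputable def be (n : ℕ) (a : ℝ) : ℝ := (1 + a) / (3 * ((n : ℝ) + 1))

noncomputable def thN (n : ℕ) (e t : ℝ) : ℝ := if 1 / ((n : ℝ) + 1) ≤ t then t else be n e

def IsgC (n : ℕ) (e t x : ℝ) : Prop := x = thN n e t ∨ (be n 0 ≤ x ∧ x ≤ be n 1 ∧ x ≠ be n e)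

noncomputable def amp (n : ℕ) (e t x : ℝ) : ℝ :=
  if x = thN n e t then e else 3 * ((n : ℝ) + 1) * x - 1

theorem be_inv (n : ℕ) (a : ℝ) : 3 * ((n : ℝ) + 1) * be n a - 1 = a := by
  unfold be; field_simp; ring

theorem be_inv' (n : ℕ) (x : ℝ) : be n (3 * ((n : ℝ) + 1) * x - 1) = x := by
  unfold be; field_simp; ring

theorem be_le_be {n : ℕ} {a b : ℝ} : be n a ≤ be n b ↔ a ≤ b := by
  unfold be; rw [div_le_div_iff_of_pos_right (by positivity), add_le_add_iff_left]

theorem be_one_lt (n : ℕ) : be n 1 < 1 / ((n : ℝ) + 1) := by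
  unfold be
  rw [div_lt_div_iff₀ (by positivity) (by positivity)]
  linarith [(Nat.cast_nonneg n : (0 : ℝ) ≤ n)]

theorem be_zero_pos (n : ℕ) : 0 < be n 0 := by unfold be; positivity

variable {n : ℕ} {e t x x' : ℝ}

theorem IsgC.pos (he : e ∈ Icc (0 : ℝ) 1) (h : IsgC n e t x) : 0 < x := by
  rcases h with rfl | h
  · unfold thN; split_ifs with h
    · exact lt_of_lt_of_le (by positivity) h
    · exact (be_zero_pos n).trans_le (be_le_be.2 he.1)
  · exact (be_zero_pos n).trans_le h.1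

theorem IsgC.amp_mem (he : e ∈ Icc (0 : ℝ) 1) (h : IsgC n e t x) : amp n e t x ∈ Icc (0 : ℝ) 1 := by
  unfold amp; split_ifs with h1
  · exact he
  · obtain ⟨h2, h3, -⟩ := h.resolve_left h1
    rw [← be_inv' n x, be_le_be] at h2 h3
    exact ⟨h2, h3⟩

theorem IsgC.amp_eq (h : IsgC n e t x) (h1 : amp n e t x = e) : x = thN n e t := by
  by_contra h2
  rw [amp, if_neg h2] at h1
  exact (h.resolve_left h2).2.2 (by rw [← h1, be_inv'])

theorem IsgC.amp_inj (h : IsgC n e t x) (h' : IsgC n e t x') (h1 : amp n e t x = amp n e t x') :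
    x = x' := by
  by_cases h2 : x = thN n e t
  · rw [amp, if_pos h2] at h1
    rw [h2, h'.amp_eq h1.symm]
  by_cases h3 : x' = thN n e t
  · rw [amp.eq_1 n e t x', if_pos h3] at h1
    exact absurd (h.amp_eq h1) h2
  · rw [amp, amp, if_neg h2, if_neg h3] at h1
    rw [← be_inv' n x, h1, be_inv']

theorem amp_surj (n : ℕ) (e t : ℝ) {a : ℝ} (ha : a ∈ Icc (0 : ℝ) 1) :
    ∃ x, IsgC n e t x ∧ amp n e t x = a := by
  by_cases h : a = e
  · exact ⟨thN n e t, Or.inl rfl, by rw [amp, if_pos rfl, h]⟩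
  have h1 : be n a ≠ be n e := fun h1 => h (by rw [← be_inv n a, h1, be_inv])
  refine ⟨be n a, Or.inr ⟨be_le_be.2 ha.1, be_le_be.2 ha.2, h1⟩, ?_⟩
  rw [amp, if_neg, be_inv]
  unfold thN; split_ifs with h2
  · exact (((be_le_be.2 ha.2).trans_lt (be_one_lt n)).trans_le h2).ne
  · exact h1

theorem IsgC.of_ge (he : e ∈ Icc (0 : ℝ) 1) (h : IsgC n e t x) (h1 : 1 / ((n : ℝ) + 1) ≤ x) :
    x = t ∧ amp n e t x = e := by
  have h2 : x = thN n e t := h.resolve_right fun h2 => by linarith [h2.2.1, be_one_lt n]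
  refine ⟨?_, if_pos h2⟩
  rw [h2] at h1 ⊢
  unfold thN at h1 ⊢; split_ifs at h1 ⊢ with h3
  · rfl
  · linarith [be_le_be (n := n).2 he.2, be_one_lt n]

end Pool.Agent.P.MP_fa84b3_gt.Cx
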