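import Mathlib
import Pool.Agent.P.MP_8fd369_lc.Line

set_option autoImplicit false
set_option linter.unusedSectionVars false

open Set

namespace Pool.Agent.P.MP_fa84b3_gt

/-- A covering criterion for failing the Lindelöf property. -/
theorem not_isLindelof {Z ι : Type*} [TopologicalSpace Z] [Uncountable ι] (S : Set Z)
    (V : ι → ℕ → Set Z) (hopen : ∀ i m, IsOpen (V i m)) (hmono : ∀ i, Monotone (V i))
    (hcov : ∀ z ∈ S, ∀ i, ∃ m, z ∈ V i m)
    (hesc : ∀ J : Set ι, J.Countable → ∃ e : ι → ℕ, InjOn e J ∧ ∃ z ∈ S, ∀ i ∈ J, z ∉ V i (e i)) :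
    ¬ IsLindelof S := by
  classical
  intro hS
  let T := {p : ℕ × Finset ι // p.2.card = p.1 + 1}
  let U : T → Set Z := fun p => ⋂ i ∈ p.1.2, V i p.1.1
  have hUo : ∀ p, IsOpen (U p) := fun p => isOpen_biInter_finset fun i _ => hopen i _
  have hUc : S ⊆ ⋃ p, U p := by
    intro z hz
    choose m hm using hcov z hz
    have : ∃ k, (m ⁻¹' {k}).Infinite := by
      by_contra hcon
      push Not at hcon
      have : (univ : Set ι).Countable := by
        refine (countable_iUnion fun k => (hcon k).countable).mono ?_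
        intro i _
        exact mem_iUnion.mpr ⟨m i, rfl⟩
      exact not_countable_univ this
    obtain ⟨k, hk⟩ := this
    obtain ⟨s, hs, hcard⟩ := hk.exists_subset_card_eq (k + 1)
    refine mem_iUnion.mpr ⟨⟨(k, s), hcard⟩, ?_⟩
    refine mem_iInter₂.mpr fun i hi => ?_
    have : m i = k := hs hi
    exact this ▸ hm i
  obtain ⟨r, hr, hsub⟩ := hS.elim_countable_subcover U hUo hUc
  obtain ⟨e, he, z, hz, hz'⟩ := hesc (⋃ p ∈ r, (p.1.2 : Set ι))
    (hr.biUnion fun p _ => p.1.2.countable_toSet)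
  obtain ⟨p, hp, hzp⟩ := mem_iUnion₂.mp (hsub hz)
  have hJ : ∀ i ∈ p.1.2, i ∈ ⋃ p ∈ r, (p.1.2 : Set ι) := fun i hi => mem_biUnion hp hi
  have : ∃ i ∈ p.1.2, p.1.1 ≤ e i := by
    by_contra hcon
    push Not at hcon
    have h1 : p.1.2.card ≤ (Finset.range p.1.1).card := by
      refine Finset.card_le_card_of_injOn e (fun i hi => ?_) fun i hi j hj hij =>
        he (hJ i hi) (hJ j hj) hij
      simpa using hcon i hi
    rw [p.2, Finset.card_range] at h1
    omega
  obtain ⟨i, hi, hle⟩ := this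
  exact hz' i (hJ i hi) (hmono i hle (mem_iInter₂.mp hzp i hi))

/-- Dependent well-founded recursion with an invariant. -/
theorem exists_rec {I D : Type*} [LinearOrder I] [WellFoundedLT I] [Nonempty D]
    (R : I → (I → D) → D → Prop)
    (hloc : ∀ a d d' y, (∀ x, x < a → d x = d' x) → R a d y → R a d' y)
    (step : ∀ a d, (∀ x, x < a → R x d (d x)) → ∃ y, R a d y) :
    ∃ d : I → D, ∀ a, R a d (d a) := by
  classical
  let F : ∀ a : I, (∀ x, x < a → D) → D := fun a ih =>
    Classical.epsilon (R a fun x => if h : x < a then ih x h else Classical.arbitrary D)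
  let d : I → D := (wellFounded_lt (α := I)).fix F
  have hd : ∀ a, d a = Classical.epsilon
      (R a fun x => if x < a then d x else Classical.arbitrary D) := by
    intro a
    have : d a = F a fun x _ => d x := WellFounded.fix_eq _ _ _
    rw [this]
    simp only [F, dite_eq_ite]
  refine ⟨d, fun a => ?_⟩
  induction a using WellFoundedLT.induction with
  | ind a ih =>
    obtain ⟨y, hy⟩ := step a d ih
    have h1 : R a (fun x => if x < a then d x else Classical.arbitrary D) y :=
      hloc a d _ y (fun x hx => by simp [hx]) hy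
    have h2 := Classical.epsilon_spec ⟨y, h1⟩
    rw [← hd a] at h2
    exact hloc a _ d _ (fun x hx => by simp [hx]) h2

section TreeSec

variable {I : Type} [LinearOrder I] [WellFoundedLT I]

open Classical in
/-- Restriction of a function to the initial segment up to `a`. -/
noncomputable def res (a : I) (t : I → ℕ) : I → ℕ := fun x => if x ≤ a then t x else 0

lemma res_res {a b : I} (h : a ≤ b) (t : I → ℕ) : res a (res b t) = res a t := by
  funext x
  by_cases hx : x ≤ a
  · simp [res, hx, hx.trans h]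
  · simp [res, hx]

lemma res_self (a : I) (t : I → ℕ) : res a t a = t a := by simp [res]

/-- A family of injections whose restrictions form a tree with countable levels. -/
theorem exists_tree [Uncountable I] (hc : ∀ a : I, (Iio a).Countable) :
    ∃ e : I → I → ℕ, (∀ b, InjOn (e b) (Iio b)) ∧
      ∀ a, {t | ∃ b, a < b ∧ t = res a (e b)}.Countable := by
  classical
  obtain ⟨e, hfin, hcoh⟩ := MP_8fd369_lc.exists_coherent hc
  let lab : (I → ℕ) → I → ℕ := fun t x => Nat.pair (t x) {y | y < x ∧ t y = t x}.ncard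
  refine ⟨fun b => lab (e b), ?_, ?_⟩
  · intro b
    have key : ∀ x y, x < b → y < b → x < y → lab (e b) x ≠ lab (e b) y := by
      intro x y hx hy hxy h
      simp only [lab, Nat.pair_eq_pair] at h
      have hf : {z | z < y ∧ e b z = e b y}.Finite :=
        (hfin b (e b y)).subset fun z hz => ⟨hz.1.trans hy, hz.2.le⟩
      have : {z | z < x ∧ e b z = e b x} ⊂ {z | z < y ∧ e b z = e b y} := by
        refine ⟨fun z hz => ⟨hz.1.trans hxy, hz.2.trans h.1⟩, fun hh => ?_⟩
        exact lt_irrefl x (hh (show x ∈ {z | z < y ∧ e b z = e b y} from ⟨hxy, h.1⟩)).1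
      exact (ncard_lt_ncard this hf).ne h.2
    intro x hx y hy hxy
    rcases lt_trichotomy x y with h | h | h
    · exact absurd hxy (key x y hx hy h)
    · exact h
    · exact absurd hxy.symm (key y x hy hx h)
  · intro a
    obtain ⟨b₀, hb₀⟩ := MP_8fd369_lc.exists_bound hc (countable_singleton a)
    have hab : a < b₀ := hb₀ a rfl
    have hIic : (Iic a).Countable := ((hc a).insert a).mono fun x hx => by
      rcases (mem_Iic.mp hx).eq_or_lt with h | h
      · exact Or.inl h
      · exact Or.inr h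
    have h1 : {t | ∃ b, a < b ∧ t = res a (e b)}.Countable := by
      have hcc : ((Iic a) ×ˢ (univ : Set ℕ)).Countable := hIic.prod countable_univ
      refine countable_of_injective_of_countable_image
        (f := fun t : I → ℕ => (fun x => (x, t x)) '' {x | x ≤ a ∧ t x ≠ e b₀ x}) ?_
        ((countable_ofPred_finite_subset hcc).mono ?_)
      · rintro s ⟨b, -, rfl⟩ t ⟨b', -, rfl⟩ hst
        simp only at hst
        funext x
        by_cases hx : x ≤ a
        · by_cases h1 : res a (e b) x = e b₀ x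
          · by_cases h2 : res a (e b') x = e b₀ x
            · rw [h1, h2]
            · have : (x, res a (e b') x) ∈ (fun x => (x, res a (e b) x)) ''
                  {x | x ≤ a ∧ res a (e b) x ≠ e b₀ x} := by
                rw [hst]; exact ⟨x, ⟨hx, h2⟩, rfl⟩
              obtain ⟨y, -, hy⟩ := this
              simp only [Prod.mk.injEq] at hy
              rw [← hy.2, hy.1]
          · have : (x, res a (e b) x) ∈ (fun x => (x, res a (e b') x)) ''
                {x | x ≤ a ∧ res a (e b') x ≠ e b₀ x} := by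
              rw [← hst]; exact ⟨x, ⟨hx, h1⟩, rfl⟩
            obtain ⟨y, -, hy⟩ := this
            simp only [Prod.mk.injEq] at hy
            rw [← hy.2, hy.1]
        · simp [res, hx]
      · rintro _ ⟨_, ⟨b, hb, rfl⟩, rfl⟩
        refine ⟨Finite.image _ ?_, ?_⟩
        · rcases le_total b b₀ with h | h
          · refine (hcoh b b₀ h).subset fun x hx => ⟨hx.1.trans_lt hb, ?_⟩
            have := hx.2
            simpa [res, hx.1] using this
          · refine (hcoh b₀ b h).subset fun x hx => ⟨hx.1.trans_lt hab, ?_⟩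
            have := hx.2
            simp only [res, hx.1, if_true] at this
            exact fun h => this h.symm
        · rintro _ ⟨x, hx, rfl⟩
          exact ⟨hx.1, trivial⟩
    refine (h1.image fun t => res a (lab t)).mono ?_
    rintro _ ⟨b, hb, rfl⟩
    refine ⟨res a (e b), ⟨b, hb, rfl⟩, ?_⟩
    funext x
    by_cases hx : x ≤ a
    · have : {y | y < x ∧ res a (e b) y = res a (e b) x} = {y | y < x ∧ e b y = e b x} := by
        ext y
        simp only [mem_ofPred_eq, and_congr_right_iff]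
        intro hy
        simp [res, hx, hy.le.trans hx]
      simp only [res, hx, if_true, lab] at this ⊢
      rw [this]
    · simp [res, hx]

/-- The thread construction along the tree. `Cl A f` is an abstract closure property. -/
theorem threads [Uncountable I] (hc : ∀ a : I, (Iio a).Countable) {X B : Type*} [Nonempty B]
    (E : Set X → B → B → Prop)
    (Etrans : ∀ A f g h, E A f g → E A g h → E A f h)
    (Emono : ∀ A A' f g, A ⊆ A' → E A' f g → E A f g)
    (Cl : Set X → B → Prop) (Good : Set B → Prop)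
    (P1 : ∀ A : Set X, A.Countable → ∀ S : Set B, S.Countable →
      ∃ A', A ⊆ A' ∧ A'.Countable ∧ ∀ f ∈ S, Cl A' f)
    (P2 : ∀ (a : I) (A : I → Set X) (f : I → B), (∀ j j', j < j' → j' < a → A j ⊆ A j') →
      (∀ j j', j < j' → j' < a → E (A j) (f j') (f j)) → (∀ j, j < a → Cl (A j) (f j)) →
      ∃ g, ∀ j, j < a → E (A j) g (f j))
    (P3 : ∀ A : Set X, A.Countable → ∃ (C : Set X) (V : ℕ → Set B), C.Countable ∧
      (∀ m, Good (V m)) ∧ Monotone V ∧ (∀ f, ∃ m, f ∈ V m) ∧
      (∀ m f g, E C f g → f ∈ V m → g ∈ V m) ∧ ∀ f m, ∃ g, E A g f ∧ g ∉ V m) :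
    ∃ V : I → ℕ → Set B, (∀ i m, Good (V i m)) ∧ (∀ i, Monotone (V i)) ∧
      (∀ f i, ∃ m, f ∈ V i m) ∧
      ∀ J : Set I, J.Countable → ∃ e : I → ℕ, InjOn e J ∧ ∃ z, ∀ i ∈ J, z ∉ V i (e i) := by
  classical
  obtain ⟨e, hinj, hlev⟩ := exists_tree hc
  let N : I → Set (I → ℕ) := fun a => {t | ∃ b, a < b ∧ t = res a (e b)}
  have hN : ∀ a a' t, a' < a → t ∈ N a → res a' t ∈ N a' := by
    rintro a a' _ h ⟨b, hb, rfl⟩
    exact ⟨b, h.trans hb, res_res h.le _⟩
  let D := Set X × (ℕ → Set B) × ((I → ℕ) → B)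
  let R : I → (I → D) → D → Prop := fun a d y =>
    y.1.Countable ∧ (∀ j, j < a → (d j).1 ⊆ y.1) ∧ (∀ m, Good (y.2.1 m)) ∧ Monotone y.2.1 ∧
      (∀ f, ∃ m, f ∈ y.2.1 m) ∧ (∀ m f g, E y.1 f g → f ∈ y.2.1 m → g ∈ y.2.1 m) ∧
      ∀ t ∈ N a, Cl y.1 (y.2.2 t) ∧ y.2.2 t ∉ y.2.1 (t a) ∧
        ∀ j, j < a → E (d j).1 (y.2.2 t) ((d j).2.2 (res j t))
  have chain : ∀ a (d : I → D), (∀ x, x < a → R x d (d x)) → ∀ t : I → ℕ,
      (∀ j, j < a → res j t ∈ N j) → ∃ g, ∀ j, j < a → E (d j).1 g ((d j).2.2 (res j t)) := by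
    intro a d ih t ht
    refine P2 a (fun j => (d j).1) (fun j => (d j).2.2 (res j t)) ?_ ?_ ?_
    · intro j j' h1 h2
      exact (ih j' h2).2.1 j h1
    · intro j j' h1 h2
      have := ((ih j' h2).2.2.2.2.2.2 _ (ht j' h2)).2.2 j h1
      rwa [res_res h1.le] at this
    · intro j h
      exact ((ih j h).2.2.2.2.2.2 _ (ht j h)).1
  have hloc : ∀ a d d' y, (∀ x, x < a → d x = d' x) → R a d y → R a d' y := by
    rintro a d d' y h ⟨h1, h2, h3, h4, h5, h6, h7⟩
    refine ⟨h1, fun j hj => h j hj ▸ h2 j hj, h3, h4, h5, h6, fun t ht => ⟨(h7 t ht).1,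
      (h7 t ht).2.1, fun j hj => h j hj ▸ (h7 t ht).2.2 j hj⟩⟩
  have hstep : ∀ a d, (∀ x, x < a → R x d (d x)) → ∃ y, R a d y := by
    intro a d ih
    have hA : (⋃ j ∈ Iio a, (d j).1).Countable := (hc a).biUnion fun j hj => (ih j hj).1
    obtain ⟨C, V, hC, hV1, hV2, hV3, hV4, hV5⟩ := P3 _ hA
    have hex : ∀ t : I → ℕ, ∃ g : B, t ∈ N a → g ∉ V (t a) ∧
        ∀ j, j < a → E (d j).1 g ((d j).2.2 (res j t)) := by
      intro t
      by_cases ht : t ∈ N a
      · obtain ⟨k, hk⟩ := chain a d ih t fun j hj => hN a j t hj ht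
        obtain ⟨g, hg1, hg2⟩ := hV5 k (t a)
        refine ⟨g, fun _ => ⟨hg2, fun j hj => Etrans _ _ _ _ (Emono _ _ _ _ ?_ hg1) (hk j hj)⟩⟩
        exact subset_biUnion_of_mem (u := fun j => (d j).1) (show j ∈ Iio a from hj)
      · exact ⟨Classical.arbitrary B, fun h => absurd h ht⟩
    choose g hg using hex
    obtain ⟨A', hA1, hA2, hA3⟩ := P1 _ (hA.union hC) (g '' N a) ((hlev a).image g)
    refine ⟨(A', V, g), hA2, fun j hj => ?_, hV1, hV2, hV3, fun m f f' h => ?_,
      fun t ht => ⟨hA3 _ ⟨t, ht, rfl⟩, (hg t ht).1, (hg t ht).2⟩⟩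
    · exact ((subset_biUnion_of_mem (u := fun j => (d j).1) (show j ∈ Iio a from hj)).trans
        subset_union_left).trans hA1
    · exact hV4 m f f' (Emono _ _ _ _ (subset_union_right.trans hA1) h)
  obtain ⟨d, hd⟩ := exists_rec R hloc hstep
  · refine ⟨fun i => (d i).2.1, fun i => (hd i).2.2.1, fun i => (hd i).2.2.2.1,
      fun f i => (hd i).2.2.2.2.1 f, fun J hJ => ?_⟩
    obtain ⟨b, hb⟩ := MP_8fd369_lc.exists_bound hc hJ
    obtain ⟨g, hg⟩ := chain b d (fun x _ => hd x) (e b) fun j hj => ⟨b, hj, rfl⟩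
    refine ⟨e b, (hinj b).mono hb, g, fun i hi hgi => ?_⟩
    have h1 := ((hd i).2.2.2.2.2.2 (res i (e b)) ⟨b, hb i hi, rfl⟩).2.1
    rw [res_self] at h1
    exact h1 ((hd i).2.2.2.2.2.1 _ _ _ (hg i (hb i hi)) hgi)

end TreeSec

end Pool.Agent.P.MP_fa84b3_gt
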