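import Mathlib
import Pool.Agent.P.MP_fa84b3_gt.Tree

set_option autoImplicit false
set_option linter.unusedSectionVars false

open Set Topology

namespace Pool.Agent.P.MP_fa84b3_gt

universe u v

/-- The space of continuous real functions with the topology of pointwise convergence. -/
abbrev Cp (X : Type u) [TopologicalSpace X] : Type u := {f : X → ℝ // Continuous f}

variable {X : Type u} [TopologicalSpace X] {Y : Type v} [TopologicalSpace Y]

lemma continuous_ev (x : X) : Continuous fun f : Cp X => f.1 x :=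
  (continuous_apply x).comp continuous_subtype_val

/-- A continuous real function on a Lindelöf `Cp X` depends on countably many points. -/
lemma exists_dep [LindelofSpace (Cp X)] (θ : Cp X → ℝ) (hθ : Continuous θ) :
    ∃ A : Set X, A.Countable ∧ ∀ g g' : Cp X, EqOn g.1 g'.1 A → θ g = θ g' := by
  have h1 : ∀ (n : ℕ) (f : Cp X), ∃ (N : Set (Cp X)) (E : Finset X), N ∈ 𝓝 f ∧
      (∀ g ∈ N, |θ g - θ f| < 1 / ((n : ℝ) + 1)) ∧
      ∀ g g' : Cp X, EqOn g.1 g'.1 E → g ∈ N → g' ∈ N := by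
    intro n f
    have ho : IsOpen {g : Cp X | |θ g - θ f| < 1 / ((n : ℝ) + 1)} :=
      isOpen_lt (by fun_prop) continuous_const
    obtain ⟨W, hW, hWe⟩ := isOpen_induced_iff.mp ho
    have hf : f.1 ∈ W := by
      have : f ∈ Subtype.val ⁻¹' W := by
        rw [hWe]
        simp only [mem_ofPred_eq, sub_self, abs_zero]
        positivity
      exact this
    obtain ⟨E, w, hw, hsub⟩ := isOpen_pi_iff.mp hW f.1 hf
    refine ⟨Subtype.val ⁻¹' ((E : Set X).pi w), E, ?_, ?_, ?_⟩
    · refine IsOpen.mem_nhds ?_ fun a ha => (hw a ha).2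
      exact (isOpen_set_pi E.finite_toSet fun a ha => (hw a ha).1).preimage continuous_subtype_val
    · intro g hg
      have : g ∈ Subtype.val ⁻¹' W := hsub hg
      rw [hWe] at this
      exact this
    · intro g g' h hg a ha
      rw [← h ha]
      exact hg a ha
  choose N E hN1 hN2 hN3 using h1
  choose s hs1 hs2 using fun n => LindelofSpace.elim_nhds_subcover (N n) (hN1 n)
  refine ⟨⋃ n, ⋃ f ∈ s n, (E n f : Set X),
    countable_iUnion fun n => (hs1 n).biUnion fun f _ => (E n f).countable_toSet, ?_⟩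
  intro g g' h
  by_contra hne
  have hpos : 0 < |θ g - θ g'| / 2 := by
    have := abs_pos.mpr (sub_ne_zero.mpr hne)
    positivity
  obtain ⟨n, hn⟩ := exists_nat_one_div_lt hpos
  have : g ∈ ⋃ f ∈ s n, N n f := by rw [hs2 n]; trivial
  obtain ⟨f, hf, hg⟩ := mem_iUnion₂.mp this
  have hg' : g' ∈ N n f := hN3 n f g g'
    (h.mono fun x hx => mem_iUnion.mpr ⟨n, mem_biUnion hf hx⟩) hg
  have a1 := abs_lt.mp (hN2 n f g hg)
  have a2 := abs_lt.mp (hN2 n f g' hg')
  have : |θ g - θ g'| < 2 * (1 / ((n : ℝ) + 1)) := by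
    rw [abs_lt]; constructor <;> linarith
  linarith

/-- Countably many continuous functions on `Y` detect disagreement on a countable set. -/
lemma exists_sep_aux {Z : Type*} [TopologicalSpace Z] [LindelofSpace Z] [T35Space Y]
    (p q : Z → Cp X) (hp : Continuous p) (hq : Continuous q)
    (Φ : Cp X → Y) (hΦ : Continuous Φ) (hinj : Function.Injective Φ)
    {A : Set X} (hA : A.Countable) :
    ∃ Ψ : Set C(Y, ℝ), Ψ.Countable ∧
      ∀ z : Z, (∀ ψ ∈ Ψ, ψ (Φ (p z)) = ψ (Φ (q z))) → EqOn (p z).1 (q z).1 A := by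
  have h1 : ∀ (a : X) (n : ℕ), ∃ Ψ : Set C(Y, ℝ), Ψ.Countable ∧
      ∀ z : Z, 1 / ((n : ℝ) + 1) ≤ |(p z).1 a - (q z).1 a| →
        ∃ ψ ∈ Ψ, ψ (Φ (p z)) ≠ ψ (Φ (q z)) := by
    intro a n
    have hc : IsClosed {z : Z | 1 / ((n : ℝ) + 1) ≤ |(p z).1 a - (q z).1 a|} :=
      isClosed_le continuous_const
        (((continuous_ev a).comp hp).sub ((continuous_ev a).comp hq)).abs
    obtain ⟨r, hr, hsub⟩ := hc.isLindelof.elim_countable_subcover
      (fun ψ : C(Y, ℝ) => {z : Z | ψ (Φ (p z)) ≠ ψ (Φ (q z))})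
      (fun ψ => isOpen_ne_fun (by fun_prop) (by fun_prop)) (by
        intro z hz
        have hne : Φ (p z) ≠ Φ (q z) := by
          intro h
          have hz' : 1 / ((n : ℝ) + 1) ≤ |(p z).1 a - (q z).1 a| := hz
          rw [hinj h, sub_self, abs_zero] at hz'
          have : 0 < 1 / ((n : ℝ) + 1) := by positivity
          linarith
        obtain ⟨ψ, hψ, hne'⟩ := separatesPoints_continuous_of_t35Space hne
        exact mem_iUnion.mpr ⟨⟨ψ, hψ⟩, hne'⟩)
    refine ⟨r, hr, fun z hz => ?_⟩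
    obtain ⟨ψ, hψ, h⟩ := mem_iUnion₂.mp (hsub hz)
    exact ⟨ψ, hψ, h⟩
  choose Ψ h2 h3 using h1
  refine ⟨⋃ a ∈ A, ⋃ n, Ψ a n, hA.biUnion fun a _ => countable_iUnion fun n => h2 a n, ?_⟩
  intro z hz a ha
  by_contra hne
  obtain ⟨n, hn⟩ := exists_nat_one_div_lt (abs_pos.mpr (sub_ne_zero.mpr hne))
  obtain ⟨ψ, hψ, h⟩ := h3 a n z hn.le
  exact h (hz ψ (mem_biUnion ha (mem_iUnion.mpr ⟨n, hψ⟩)))

/-- `ψ ∘ Φ` depends only on the values on `A`. -/
def Dep (Φ : Cp X → Y) (A : Set X) (ψ : C(Y, ℝ)) : Prop :=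
  ∀ g g' : Cp X, EqOn g.1 g'.1 A → ψ (Φ g) = ψ (Φ g')

/-- The functions depending only on `A` determine the values of `f` on `A`. -/
def Cl (Φ : Cp X → Y) (A : Set X) (f : Cp X) : Prop :=
  ∀ g : Cp X, (∀ ψ, Dep Φ A ψ → ψ (Φ g) = ψ (Φ f)) → EqOn g.1 f.1 A

lemma Dep.mono {Φ : Cp X → Y} {A A' : Set X} {ψ : C(Y, ℝ)} (h : Dep Φ A ψ) (hA : A ⊆ A') :
    Dep Φ A' ψ := fun g g' hg => h g g' (hg.mono hA)

lemma exists_cl [LindelofSpace (Cp X)] [T35Space Y] (Φ : Cp X → Y) (hΦ : Continuous Φ)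
    (hinj : Function.Injective Φ) {A : Set X} (hA : A.Countable) {S : Set (Cp X)}
    (hS : S.Countable) : ∃ A', A ⊆ A' ∧ A'.Countable ∧ ∀ f ∈ S, Cl Φ A' f := by
  have h1 : ∀ A : {A : Set X // A.Countable}, ∃ A' : {A : Set X // A.Countable}, A.1 ⊆ A'.1 ∧
      ∀ f ∈ S, ∀ g : Cp X, (∀ ψ, Dep Φ A'.1 ψ → ψ (Φ g) = ψ (Φ f)) → EqOn g.1 f.1 A.1 := by
    intro A
    choose Ψ hΨ1 hΨ2 using fun f : Cp X =>
      exists_sep_aux (fun g : Cp X => g) (fun _ => f) continuous_id continuous_const Φ hΦ hinj A.2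
    choose C hC1 hC2 using fun ψ : C(Y, ℝ) => exists_dep (fun g => ψ (Φ g)) (by fun_prop)
    refine ⟨⟨A.1 ∪ ⋃ f ∈ S, ⋃ ψ ∈ Ψ f, C ψ,
      A.2.union (hS.biUnion fun f _ => (hΨ1 f).biUnion fun ψ _ => hC1 ψ)⟩,
      subset_union_left, fun f hf g hg => hΨ2 f g fun ψ hψ => hg ψ ?_⟩
    exact Dep.mono (hC2 ψ) fun x hx => Or.inr (mem_biUnion hf (mem_biUnion hψ hx))
  choose nx h2 h3 using h1
  let T : ℕ → {A : Set X // A.Countable} := fun n => nx^[n] ⟨A, hA⟩
  have hT : ∀ n, T (n + 1) = nx (T n) := fun n => Function.iterate_succ_apply' _ _ _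
  refine ⟨⋃ n, (T n).1, subset_iUnion (fun n => (T n).1) 0, countable_iUnion fun n => (T n).2, ?_⟩
  intro f hf g hg x hx
  obtain ⟨n, hn⟩ := mem_iUnion.mp hx
  refine h3 (T n) f hf g (fun ψ hψ => hg ψ (hψ.mono ?_)) hn
  rw [← hT]
  exact subset_iUnion (fun n => (T n).1) (n + 1)

/-- Continuous functions with values in the unit interval. -/
abbrev Bx (X : Type u) [TopologicalSpace X] : Type u := {f : Cp X // ∀ x, f.1 x ∈ Icc (0 : ℝ) 1}

instance : Nonempty (Bx X) := ⟨⟨⟨fun _ => 0, continuous_const⟩, fun _ => by simp⟩⟩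

lemma lindelof_Bx [LindelofSpace (Cp X)] : LindelofSpace (Bx X) := by
  have : IsClosed {f : Cp X | ∀ x, f.1 x ∈ Icc (0 : ℝ) 1} := by
    simp only [ofPred_forall]
    exact isClosed_iInter fun x => isClosed_Icc.preimage (continuous_ev x)
  exact isLindelof_iff_lindelofSpace.mp this.isLindelof

lemma continuous_evB (x : X) : Continuous fun f : Bx X => f.1.1 x :=
  (continuous_ev x).comp continuous_subtype_val

/-- Coherent chains over closed sets have limits. -/
lemma exists_limit [T2Space Y] (Φ : Cp X → Y) (hsurj : Function.Surjective Φ) {K : Set Y}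
    (hK : IsCompact K) (hB : ∀ f : Bx X, Φ f.1 ∈ K) {I : Type} [LinearOrder I] (a : I)
    (A : I → Set X) (f : I → Bx X) (hA : ∀ j j', j < j' → j' < a → A j ⊆ A j')
    (hf : ∀ j j', j < j' → j' < a → EqOn (f j').1.1 (f j).1.1 (A j))
    (hcl : ∀ j, j < a → Cl Φ (A j) (f j).1) :
    ∃ g : Bx X, ∀ j, j < a → EqOn g.1.1 (f j).1.1 (A j) := by
  rcases isEmpty_or_nonempty (Iio a) with h | h
  · exact ⟨Classical.arbitrary _, fun j hj => (h.false ⟨j, hj⟩).elim⟩
  let t : Iio a → Set Y := fun j => K ∩ {y | ∀ ψ, Dep Φ (A j) ψ → ψ y = ψ (Φ (f j).1)}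
  have hcl' : ∀ j : Iio a, IsClosed {y | ∀ ψ, Dep Φ (A j) ψ → ψ y = ψ (Φ (f j).1)} := by
    intro j
    simp only [ofPred_forall]
    exact isClosed_iInter fun ψ => isClosed_iInter fun _ =>
      isClosed_eq ψ.continuous continuous_const
  have hanti : ∀ j j' : Iio a, j ≤ j' → t j' ⊆ t j := by
    intro j j' hjj
    rcases hjj.eq_or_lt with h | h
    · rw [h]
    · rintro y ⟨hy1, hy2⟩
      refine ⟨hy1, fun ψ hψ => ?_⟩
      rw [hy2 ψ (hψ.mono (hA j j' h j'.2))]
      exact hψ _ _ (hf j j' h j'.2)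
  obtain ⟨y, hy⟩ := IsCompact.nonempty_iInter_of_directed_nonempty_isCompact_isClosed t
    (fun i j => ⟨max i j, hanti _ _ (le_max_left _ _), hanti _ _ (le_max_right _ _)⟩)
    (fun j => ⟨Φ (f j).1, hB _, fun _ _ => rfl⟩) (fun j => hK.inter_right (hcl' j))
    (fun j => hK.isClosed.inter (hcl' j))
  obtain ⟨g, rfl⟩ := hsurj y
  refine ⟨⟨⟨fun x => max 0 (min 1 (g.1 x)), by have := g.2; fun_prop⟩, fun x =>
    ⟨le_max_left _ _, max_le zero_le_one (min_le_left _ _)⟩⟩, fun j hj x hx => ?_⟩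
  have h1 := hcl j hj g (mem_iInter.mp hy ⟨j, hj⟩).2 hx
  have h2 := (f j).2 x
  change max 0 (min 1 (g.1 x)) = _
  rw [h1, min_eq_right h2.2, max_eq_right h2.1]

/-- The escaping step at a point of accumulation. -/
lemma exists_escape [T35Space X] [LindelofSpace (Cp X)] (A : Set X) (z : X)
    (hz : z ∈ closure ((closure A)ᶜ \ {z})) :
    ∃ (C : Set X) (V : ℕ → Set (Bx X)), C.Countable ∧
      (∀ m, IsOpen (V m)) ∧ Monotone V ∧ (∀ f, ∃ m, f ∈ V m) ∧
      (∀ m (f g : Bx X), EqOn f.1.1 g.1.1 C → f ∈ V m → g ∈ V m) ∧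
      ∀ (f : Bx X) m, ∃ g : Bx X, EqOn g.1.1 f.1.1 A ∧ g ∉ V m := by
  have := lindelof_Bx (X := X)
  have hne : Nonempty ↥((closure A)ᶜ \ {z}) := (closure_nonempty_iff.mp ⟨z, hz⟩).to_subtype
  have hop : ∀ x : X, IsOpen {f : Bx X | |f.1.1 x - f.1.1 z| < 1 / 2} := fun x =>
    isOpen_lt ((continuous_evB x).sub (continuous_evB z)).abs continuous_const
  obtain ⟨e, he⟩ := (isLindelof_univ (X := Bx X)).indexed_countable_subcover
    (fun x : ↥((closure A)ᶜ \ {z}) => {f : Bx X | |f.1.1 x - f.1.1 z| < 1 / 2})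
    (fun x => hop x) (by
      intro f _
      have ho : IsOpen {x : X | |f.1.1 x - f.1.1 z| < 1 / 2} :=
        isOpen_lt (f.1.2.sub continuous_const).abs continuous_const
      obtain ⟨x, hx1, hx2⟩ := mem_closure_iff.mp hz _ ho (by simp)
      exact mem_iUnion.mpr ⟨⟨x, hx2⟩, hx1⟩)
  refine ⟨insert z (range fun n => (e n : X)),
    fun m => ⋃ j ∈ Iic m, {f : Bx X | |f.1.1 (e j) - f.1.1 z| < 1 / 2},
    (countable_range _).insert z, fun m => isOpen_biUnion fun j _ => hop _, ?_, ?_, ?_, ?_⟩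
  · intro m m' h
    exact biUnion_subset_biUnion_left (Iic_subset_Iic.mpr h)
  · intro f
    obtain ⟨n, hn⟩ := mem_iUnion.mp (he (mem_univ f))
    exact ⟨n, mem_biUnion (mem_Iic.mpr le_rfl) hn⟩
  · intro m f g h hf
    obtain ⟨j, hj, hf⟩ := mem_iUnion₂.mp hf
    refine mem_biUnion hj ?_
    have h1 := h (mem_insert z _)
    have h2 := h (mem_insert_of_mem z ⟨j, rfl⟩)
    simp only [mem_ofPred_eq] at hf h2 ⊢
    rw [← h1, ← h2]
    exact hf
  · intro f m
    have hC : IsClosed (closure A ∪ {z}) := isClosed_closure.union isClosed_singleton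
    choose w hw1 hw2 hw3 using fun j : ℕ =>
      CompletelyRegularSpace.completely_regular (e j : X) _ hC (by
        rintro (h | h)
        · exact (e j).2.1 h
        · exact (e j).2.2 h)
    let W : X → ℝ := fun x => ∏ j ∈ Finset.range (m + 1), (w j x : ℝ)
    have hWc : Continuous W :=
      continuous_finsetProd _ fun j _ => continuous_subtype_val.comp (hw1 j)
    have hW0 : ∀ x, 0 ≤ W x := fun x => Finset.prod_nonneg fun j _ => (w j x).2.1
    have hW1 : ∀ x, W x ≤ 1 := fun x =>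
      Finset.prod_le_one (fun j _ => (w j x).2.1) fun j _ => (w j x).2.2
    have hWC : ∀ x ∈ closure A ∪ {z}, W x = 1 := fun x hx =>
      Finset.prod_eq_one fun j _ => by rw [hw3 j hx]; rfl
    have hWe : ∀ j, j ≤ m → W (e j) = 0 := fun j hj =>
      Finset.prod_eq_zero (Finset.mem_range.mpr (Nat.lt_succ_of_le hj)) (by rw [hw2 j]; rfl)
    obtain ⟨c, hc0, hc1, hc⟩ : ∃ c : ℝ, 0 ≤ c ∧ c ≤ 1 ∧ 1 / 2 ≤ |c - f.1.1 z| := by
      rcases le_total (f.1.1 z) (1 / 2) with h | h
      · exact ⟨1, zero_le_one, le_rfl, le_abs.mpr (Or.inl (by linarith))⟩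
      · exact ⟨0, le_rfl, zero_le_one, le_abs.mpr (Or.inr (by linarith))⟩
    refine ⟨⟨⟨fun x => W x * f.1.1 x + (1 - W x) * c, by have := f.1.2; fun_prop⟩, fun x => ?_⟩,
      fun x hx => ?_, fun hg => ?_⟩
    · have h1 := (f.2 x).1
      have h2 := (f.2 x).2
      have h3 := hW0 x
      have h4 := hW1 x
      constructor
      · change 0 ≤ W x * f.1.1 x + (1 - W x) * c
        have := mul_nonneg h3 h1
        have := mul_nonneg (sub_nonneg.mpr h4) hc0
        linarith
      · change W x * f.1.1 x + (1 - W x) * c ≤ 1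
        have := mul_le_mul_of_nonneg_left h2 h3
        have := mul_le_mul_of_nonneg_left hc1 (sub_nonneg.mpr h4)
        linarith
    · change W x * f.1.1 x + (1 - W x) * c = _
      rw [hWC x (Or.inl (subset_closure hx))]
      ring
    · obtain ⟨j, hj, hg⟩ := mem_iUnion₂.mp hg
      simp only [mem_ofPred_eq] at hg
      rw [hWe j hj, hWC z (Or.inr rfl)] at hg
      simp only [zero_mul, sub_zero, one_mul, zero_add, sub_self, add_zero] at hg
      linarith

/-- An uncountable clopen discrete set destroys the Lindelöf property. -/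
lemma countable_of_discrete [LindelofSpace (Cp X)] {W : Set X} (hW : IsOpen W)
    (h : ∀ z, z ∉ closure (W \ {z})) : W.Countable := by
  classical
  by_contra hc
  have : Uncountable W := uncountable_iff_not_countable _ |>.mpr hc
  refine not_isLindelof (ι := W) univ (fun x m => {f : Cp X | |f.1 x| < m})
    (fun x m => isOpen_lt (continuous_ev _).abs continuous_const) ?_ ?_ ?_ isLindelof_univ
  · intro x m m' hm f hf
    have hf' : |f.1 x| < (m : ℝ) := hf
    exact lt_of_lt_of_le hf' (Nat.cast_le.mpr hm)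
  · intro f _ x
    exact exists_nat_gt |f.1 x|
  · intro J hJ
    obtain ⟨e, he⟩ := countable_iff_exists_injOn.mp hJ
    refine ⟨e, he, ⟨fun x => if hx : x ∈ W then (e ⟨x, hx⟩ : ℝ) else 0, ?_⟩, trivial, ?_⟩
    · rw [continuous_iff_continuousAt]
      intro z
      have h1 : (closure (W \ {z}))ᶜ ∈ 𝓝 z := isClosed_closure.isOpen_compl.mem_nhds (h z)
      refine (continuousAt_const (y := if hx : z ∈ W then (e ⟨z, hx⟩ : ℝ) else 0)).congr ?_
      by_cases hz : z ∈ W
      · filter_upwards [h1, hW.mem_nhds hz] with x hx1 hx2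
        have : x = z := by
          by_contra hne
          exact hx1 (subset_closure ⟨hx2, hne⟩)
        rw [this]
      · filter_upwards [h1] with x hx1
        have : x ∉ W := fun hx => hx1 (subset_closure ⟨hx, fun h => hz (h ▸ hx)⟩)
        rw [dif_neg hz, dif_neg this]
    · intro x _
      simp

theorem separable_of_ball [T35Space X] [LindelofSpace (Cp X)] [T35Space Y] (Φ : Cp X → Y)
    (hΦ : Continuous Φ) (hbij : Function.Bijective Φ) {K : Set Y} (hK : IsCompact K)
    (hB : ∀ f : Bx X, Φ f.1 ∈ K) : TopologicalSpace.SeparableSpace X := by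
  by_contra hns
  have hacc : ∀ A : Set X, A.Countable → ∃ z, z ∈ closure ((closure A)ᶜ \ {z}) := by
    intro A hA
    by_contra hcon
    push Not at hcon
    have hW := countable_of_discrete isClosed_closure.isOpen_compl hcon
    refine hns ⟨⟨A ∪ (closure A)ᶜ, hA.union hW, fun x => ?_⟩⟩
    by_cases hx : x ∈ closure A
    · exact closure_mono subset_union_left hx
    · exact subset_closure (Or.inr hx)
  have hU : Uncountable (Ordinal.omega.{0} 1).ToType := by
    rw [← Cardinal.aleph0_lt_mk_iff, Cardinal.mk_toType, Ordinal.card_omega]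
    exact Cardinal.aleph0_lt_aleph_one
  have hc : ∀ a : (Ordinal.omega.{0} 1).ToType, (Set.Iio a).Countable := by
    rw [← Cardinal.ord_aleph]
    intro a
    exact (Cardinal.countable_iff_lt_aleph_one _).mpr (Cardinal.mk_Iio_toType_ord_lt a)
  obtain ⟨V, h1, h2, h3, h4⟩ := threads hc (X := X) (B := Bx X)
    (fun A f g => EqOn f.1.1 g.1.1 A) (fun A f g h h1 h2 => h1.trans h2)
    (fun A A' f g h h' => h'.mono h) (fun A f => Cl Φ A f.1) IsOpen
    (fun A hA S hS => by
      obtain ⟨A', a1, a2, a3⟩ := exists_cl Φ hΦ hbij.1 hA (hS.image Subtype.val)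
      exact ⟨A', a1, a2, fun f hf => a3 _ ⟨f, hf, rfl⟩⟩)
    (fun a A f => exists_limit Φ hbij.2 hK hB a A f)
    (fun A hA => by
      obtain ⟨z, hz⟩ := hacc A hA
      exact exists_escape A z hz)
  have := lindelof_Bx (X := X)
  refine not_isLindelof univ V h1 h2 (fun f _ => h3 f) (fun J hJ => ?_) isLindelof_univ
  obtain ⟨e, he, z, hz⟩ := h4 J hJ
  exact ⟨e, he, z, trivial, hz⟩

open BoundedContinuousFunction in
theorem separable [T35Space X] [LindelofSpace (Cp X)] [T35Space Y] [SigmaCompactSpace Y]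
    (φ : Cp X → Y) (hφ : Continuous φ) (hbij : Function.Bijective φ) :
    TopologicalSpace.SeparableSpace X := by
  let ι : (X →ᵇ ℝ) → Cp X := fun u => ⟨u, u.continuous⟩
  have hι : Continuous ι :=
    Continuous.subtype_mk (continuous_pi fun x => continuous_eval_const x) _
  obtain ⟨n, u₀, hu₀⟩ := nonempty_interior_of_iUnion_of_closed
    (f := fun n => (fun u => φ (ι u)) ⁻¹' compactCovering Y n)
    (fun n => (isCompact_compactCovering Y n).isClosed.preimage (hφ.comp hι)) (by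
      rw [← preimage_iUnion, iUnion_compactCovering, preimage_univ])
  obtain ⟨ε, hε, hball⟩ := Metric.mem_nhds_iff.mp (mem_interior_iff_mem_nhds.mp hu₀)
  let T : Cp X → Cp X := fun g => ⟨fun x => u₀ x + ε / 2 * g.1 x, by have := g.2; fun_prop⟩
  have hT : Continuous T := Continuous.subtype_mk (continuous_pi fun x =>
    continuous_const.add (continuous_const.mul (continuous_ev x))) _
  have hTb : Function.Bijective T := by
    constructor
    · intro g g' h
      refine Subtype.ext (funext fun x => ?_)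
      have : u₀ x + ε / 2 * g.1 x = u₀ x + ε / 2 * g'.1 x := congrFun (congrArg Subtype.val h) x
      have h2 : ε / 2 ≠ 0 := by positivity
      exact mul_left_cancel₀ h2 (add_left_cancel this)
    · intro g
      refine ⟨⟨fun x => (g.1 x - u₀ x) / (ε / 2), by have := g.2; fun_prop⟩,
        Subtype.ext (funext fun x => ?_)⟩
      change u₀ x + ε / 2 * ((g.1 x - u₀ x) / (ε / 2)) = g.1 x
      field_simp
      ring
  refine separable_of_ball (φ ∘ T) (hφ.comp hT) (hbij.comp hTb)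
    (isCompact_compactCovering Y n) fun f => ?_
  let b : X →ᵇ ℝ := ofNormedAddCommGroup f.1.1 f.1.2 1 fun x => by
    rw [Real.norm_eq_abs, abs_of_nonneg (f.2 x).1]; exact (f.2 x).2
  have hb : ‖b‖ ≤ 1 := norm_ofNormedAddCommGroup_le _ zero_le_one _
  have : u₀ + (ε / 2) • b ∈ Metric.ball u₀ ε := by
    rw [mem_ball_iff_norm, add_sub_cancel_left, norm_smul, Real.norm_eq_abs,
      abs_of_pos (by positivity)]
    nlinarith
  exact hball this

end Pool.Agent.P.MP_fa84b3_gt
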