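import Mathlib
import Pool.Agent.P.MP_fa84b3_gt.Cp

set_option autoImplicit false
set_option linter.unusedSectionVars false

open Set Topology

namespace Pool.Agent.P.MP_fa84b3_gt

universe u v

variable {X : Type u} [TopologicalSpace X] {Y : Type v} [TopologicalSpace Y]

/-- Countably many continuous functions separating points of a σ-compact space give a
countable network. -/
lemma network_of_sep [SigmaCompactSpace Y] (Ψ : Set C(Y, ℝ)) (hΨ : Ψ.Countable)
    (hsep : ∀ y y' : Y, (∀ ψ ∈ Ψ, ψ y = ψ y') → y = y') :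
    ∃ 𝒩 : Set (Set Y), 𝒩.Countable ∧
      ∀ y : Y, ∀ U : Set Y, IsOpen U → y ∈ U → ∃ N ∈ 𝒩, y ∈ N ∧ N ⊆ U := by
  have := hΨ.to_subtype
  let j : Y → (Ψ → ℝ) := fun y ψ => ψ.1 y
  have hj : Continuous j := continuous_pi fun ψ => ψ.1.continuous
  have hinj : Function.Injective j := fun y y' h => hsep y y' fun ψ hψ => congrFun h ⟨ψ, hψ⟩
  obtain ⟨b, hb1, -, hb2⟩ := TopologicalSpace.exists_countable_basis (Ψ → ℝ)
  refine ⟨image2 (fun n W => compactCovering Y n ∩ j ⁻¹' W) univ b,
    countable_univ.image2 hb1 _, fun y U hU hy => ?_⟩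
  obtain ⟨n, hn⟩ := exists_mem_compactCovering y
  have hc : IsClosed (j '' (compactCovering Y n \ U)) :=
    (((isCompact_compactCovering Y n).diff hU).image hj).isClosed
  have hy' : j y ∈ (j '' (compactCovering Y n \ U))ᶜ := by
    rintro ⟨y', h1, h2⟩
    exact h1.2 (hinj h2 ▸ hy)
  obtain ⟨W, hW1, hW2, hW3⟩ := hb2.exists_subset_of_mem_open hy' hc.isOpen_compl
  refine ⟨_, ⟨n, trivial, W, hW1, rfl⟩, ⟨hn, hW2⟩, fun z hz => ?_⟩
  by_contra hzU
  exact hW3 hz.2 ⟨z, ⟨hz.1, hzU⟩, rfl⟩

lemma eq_of_eqOn {D : Set X} (hD : Dense D) {f g : Cp X} (h : EqOn f.1 g.1 D) : f = g :=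
  Subtype.ext (Continuous.ext_on hD f.2 g.2 h)

theorem isGδ_point [TopologicalSpace.SeparableSpace X] [LindelofSpace (Cp X)] [T35Space Y]
    (φ : Cp X → Y) (hφ : Continuous φ) (hbij : Function.Bijective φ) (y : Y) :
    IsGδ ({y} : Set Y) := by
  obtain ⟨D, hD1, hD2⟩ := TopologicalSpace.exists_countable_dense X
  obtain ⟨f, rfl⟩ := hbij.2 y
  obtain ⟨Ψ, h1, h2⟩ := exists_sep_aux (fun g : Cp X => g) (fun _ => f) continuous_id
    continuous_const φ hφ hbij.1 hD1
  have : ({φ f} : Set Y) = ⋂ ψ ∈ Ψ, ψ ⁻¹' {ψ (φ f)} := by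
    ext y
    obtain ⟨g, rfl⟩ := hbij.2 y
    simp only [mem_singleton_iff, mem_iInter, mem_preimage]
    exact ⟨fun h _ _ => by rw [h], fun h => by rw [eq_of_eqOn hD2 (h2 g h)]⟩
  rw [this]
  exact IsGδ.biInter h1 fun ψ _ => (IsGδ.singleton _).preimage ψ.continuous

theorem cosmic_of_square [TopologicalSpace.SeparableSpace X] [LindelofSpace (Cp X × Cp X)]
    [T35Space Y] [SigmaCompactSpace Y]
    (φ : Cp X → Y) (hφ : Continuous φ) (hbij : Function.Bijective φ) :
    ∃ 𝒩 : Set (Set Y), 𝒩.Countable ∧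
      ∀ y : Y, ∀ U : Set Y, IsOpen U → y ∈ U → ∃ N ∈ 𝒩, y ∈ N ∧ N ⊆ U := by
  obtain ⟨D, hD1, hD2⟩ := TopologicalSpace.exists_countable_dense X
  obtain ⟨Ψ, h1, h2⟩ := exists_sep_aux (Z := Cp X × Cp X) Prod.fst Prod.snd continuous_fst
    continuous_snd φ hφ hbij.1 hD1
  refine network_of_sep Ψ h1 fun y y' h => ?_
  obtain ⟨f, rfl⟩ := hbij.2 y
  obtain ⟨g, rfl⟩ := hbij.2 y'
  exact congrArg φ (eq_of_eqOn hD2 (h2 (f, g) h))

section ZeroDim

variable (hX : ∀ f : X → ℝ, Continuous f →
  ∃ U : Set X, IsClopen U ∧ (∀ x, f x = 0 → x ∈ U) ∧ ∀ x, f x = 1 → x ∉ U)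
include hX

lemma exists_clopen (f : X → ℝ) (hf : Continuous f) {a b : ℝ} (hab : a < b) :
    ∃ U : Set X, IsClopen U ∧ (∀ x, f x ≤ a → x ∈ U) ∧ ∀ x ∈ U, f x < b := by
  obtain ⟨U, h1, h2, h3⟩ := hX (fun x => max 0 (min 1 ((f x - a) / (b - a)))) (by fun_prop)
  have hpos : 0 < b - a := sub_pos.mpr hab
  refine ⟨U, h1, fun x hx => h2 x ?_, fun x hx => ?_⟩
  · refine max_eq_left (min_le_of_right_le ?_)
    exact div_nonpos_of_nonpos_of_nonneg (by linarith) hpos.le
  · by_contra hcon
    refine h3 x ?_ hx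
    have : 1 ≤ (f x - a) / (b - a) := by
      rw [le_div_iff₀ hpos]; linarith
    rw [min_eq_left this, max_eq_right zero_le_one]

lemma exists_digits (f : X → ℝ) (hf : Continuous f) (hb : ∀ x, |f x| ≤ 1) :
    ∃ s : X → ℕ → Bool, Continuous s ∧
      ∀ x, f x = ∑' i, (if s x i then 1 else -1) * ((2 / 3 : ℝ) ^ i / 3) := by
  classical
  have step : ∀ g : {g : X → ℝ // Continuous g ∧ ∀ x, |g x| ≤ 1},
      ∃ (g' : {g : X → ℝ // Continuous g ∧ ∀ x, |g x| ≤ 1}) (s : X → Bool), Continuous s ∧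
        ∀ x, g.1 x = (if s x then 1 else -1) / 3 + 2 / 3 * g'.1 x := by
    intro g
    obtain ⟨U, h1, h2, h3⟩ := exists_clopen hX g.1 g.2.1 (show (-1 / 3 : ℝ) < 1 / 3 by norm_num)
    have hs : Continuous fun x => decide (x ∉ U) := by
      refine continuous_bool_rng true |>.mpr ?_
      convert h1.compl using 1
      ext x
      simp
    have hc : Continuous fun x => (if decide (x ∉ U) = true then (1 : ℝ) else -1) :=
      (continuous_of_discreteTopology (f := fun b : Bool => if b = true then (1 : ℝ) else -1)).comp hs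
    refine ⟨⟨fun x => (g.1 x - (if decide (x ∉ U) = true then 1 else -1) / 3) * (3 / 2),
      ((g.2.1.sub (hc.div_const 3)).mul continuous_const), fun x => ?_⟩, _, hs, fun x => ?_⟩
    · have h4 := abs_le.mp (g.2.2 x)
      by_cases hx : x ∈ U
      · have := h3 x hx
        simp only [hx, not_true, decide_false, Bool.false_eq_true, if_false]
        rw [abs_le]; constructor <;> linarith
      · have : -1 / 3 < g.1 x := lt_of_not_ge fun h => hx (h2 x h)
        simp only [hx, not_false_eq_true, decide_true, if_true]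
        rw [abs_le]; constructor <;> linarith
    · ring
  choose nx s hs1 hs2 using step
  let G : ℕ → {g : X → ℝ // Continuous g ∧ ∀ x, |g x| ≤ 1} := fun n => nx^[n] ⟨f, hf, hb⟩
  have hG : ∀ n, G (n + 1) = nx (G n) := fun n => Function.iterate_succ_apply' _ _ _
  refine ⟨fun x i => s (G i) x, continuous_pi fun i => hs1 _, fun x => ?_⟩
  have hpart : ∀ n, f x = ∑ i ∈ Finset.range n,
      (if s (G i) x then 1 else -1) * ((2 / 3 : ℝ) ^ i / 3) + (2 / 3 : ℝ) ^ n * (G n).1 x := by
    intro n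
    induction n with
    | zero => simp [G]
    | succ n ih =>
      rw [Finset.sum_range_succ, hG, ih, hs2 (G n) x]
      ring
  have hsum : Summable fun i => (if s (G i) x then 1 else -1) * ((2 / 3 : ℝ) ^ i / 3) := by
    refine Summable.of_norm_bounded
      ((summable_geometric_of_lt_one (r := (2 / 3 : ℝ)) (by norm_num) (by norm_num)).div_const 3)
      fun i => ?_
    split_ifs <;> simp
  have h1 := hsum.hasSum.tendsto_sum_nat
  have h2 : Filter.Tendsto (fun n => (2 / 3 : ℝ) ^ n * (G n).1 x) Filter.atTop (𝓝 0) := by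
    refine squeeze_zero_norm (fun n => ?_)
      (tendsto_pow_atTop_nhds_zero_of_lt_one (r := (2 / 3 : ℝ)) (by norm_num) (by norm_num))
    rw [norm_mul, Real.norm_eq_abs, Real.norm_eq_abs, abs_of_nonneg (by positivity)]
    exact mul_le_of_le_one_right (by positivity) ((G n).2.2 x)
  have h3 := h1.add h2
  rw [add_zero] at h3
  refine tendsto_nhds_unique (f := fun _ : ℕ => f x) (l := Filter.atTop) tendsto_const_nhds ?_
  exact h3.congr fun n => (hpart n).symm

lemma exists_scale (h : X → ℝ) (hh : Continuous h) :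
    ∃ n : X → ℕ, Continuous n ∧ ∀ x, h x < n x + 1 := by
  classical
  choose U h1 h2 h3 using fun k : ℕ => exists_clopen hX h hh (lt_add_one (k : ℝ))
  have hex : ∀ x, ∃ k, x ∈ U k := fun x => by
    obtain ⟨k, hk⟩ := exists_nat_ge (h x)
    exact ⟨k, h2 k x hk⟩
  refine ⟨fun x => Nat.find (hex x), ?_, fun x => h3 _ x (Nat.find_spec (hex x))⟩
  refine continuous_discrete_rng.mpr fun k => ?_
  have : (fun x => Nat.find (hex x)) ⁻¹' {k} = U k ∩ ⋂ j ∈ Finset.range k, (U j)ᶜ := by
    ext x
    simp [Nat.find_eq_iff]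
  rw [this]
  exact (h1 k).isOpen.inter (isOpen_biInter_finset fun j _ => (h1 j).compl.isOpen)

omit hX in
lemma exists_closedEmbedding : ∃ j : ℕ × (ℕ → Bool) → ℝ, IsClosedEmbedding j := by
  let c : (ℕ → Bool) → ℝ := fun s => (cantorSetHomeomorphNatToBool.symm s : ℝ)
  have hc : Continuous c := continuous_subtype_val.comp cantorSetHomeomorphNatToBool.symm.continuous
  have hci : Function.Injective c :=
    Subtype.val_injective.comp cantorSetHomeomorphNatToBool.symm.injective
  have hcb : ∀ s, c s ∈ Icc (0 : ℝ) 1 := fun s => cantorSet_subset_unitInterval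
    (cantorSetHomeomorphNatToBool.symm s).2
  have hj : Continuous fun p : ℕ × (ℕ → Bool) => 2 * (p.1 : ℝ) + c p.2 :=
    (continuous_const.mul ((continuous_of_discreteTopology (f := fun n : ℕ => (n : ℝ))).comp
      continuous_fst)).add (hc.comp continuous_snd)
  refine ⟨fun p => 2 * (p.1 : ℝ) + c p.2,
    IsClosedEmbedding.of_continuous_injective_isClosedMap hj ?_ ?_⟩
  · rintro ⟨n, s⟩ ⟨m, t⟩ h
    simp only at h
    have h1 := hcb s
    have h2 := hcb t
    have : n = m := by
      have a1 : (n : ℝ) < m + 1 := by linarith [h1.1, h2.2]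
      have a2 : (m : ℝ) < n + 1 := by linarith [h1.2, h2.1]
      have b1 : n < m + 1 := by exact_mod_cast a1
      have b2 : m < n + 1 := by exact_mod_cast a2
      omega
    subst this
    rw [hci (add_left_cancel h)]
  · refine (isProperMap_iff_isCompact_preimage.mpr ⟨hj, fun K hK => ?_⟩).isClosedMap
    obtain ⟨M, hM⟩ := hK.bddAbove
    obtain ⟨k, hk⟩ := exists_nat_ge M
    refine (((finite_Iic k).isCompact).prod isCompact_univ).of_isClosed_subset
      (hK.isClosed.preimage hj) fun p hp => ⟨?_, trivial⟩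
    have h1 : 2 * (p.1 : ℝ) + c p.2 ≤ M := hM hp
    have h2 := (hcb p.2).1
    have h3 : (0 : ℝ) ≤ p.1 := Nat.cast_nonneg _
    have : (p.1 : ℝ) ≤ k := by linarith
    exact_mod_cast this

theorem lindelof_square [LindelofSpace (Cp X)] : LindelofSpace (Cp X × Cp X) := by
  obtain ⟨j, hj⟩ := exists_closedEmbedding
  let d : (ℕ → Bool) → ℝ := fun s => ∑' i, (if s i then 1 else -1) * ((2 / 3 : ℝ) ^ i / 3)
  have hd : Continuous d := by
    refine continuous_tsum (fun i => ?_)
      ((summable_geometric_of_lt_one (r := (2 / 3 : ℝ)) (by norm_num) (by norm_num)).div_const 3)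
      fun i s => ?_
    · exact ((continuous_of_discreteTopology (f := fun b : Bool =>
        if b = true then (1 : ℝ) else -1)).comp (continuous_apply i)).mul continuous_const
    · split_ifs <;> simp
  have hn : Continuous fun p : ℕ × (ℕ → Bool) => (p.1 : ℝ) + 1 :=
    ((continuous_of_discreteTopology (f := fun n : ℕ => (n : ℝ))).comp continuous_fst).add
      continuous_const
  let p : ℕ → C(ℕ × (ℕ → Bool), ℝ) := fun r => ⟨fun z => ((z.1 : ℝ) + 1) * d fun i => z.2 (2 * i + r),
    hn.mul (hd.comp (continuous_pi fun i => (continuous_apply _).comp continuous_snd))⟩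
  choose q hq using fun r => ContinuousMap.exists_extension' hj (p r)
  let T : ℕ → Cp X → Cp X := fun r h => ⟨q r ∘ h.1, (q r).continuous.comp h.2⟩
  have hT : ∀ r, Continuous (T r) := fun r => Continuous.subtype_mk
    (continuous_pi fun x => (q r).continuous.comp (continuous_ev x)) _
  have hsurj : Function.Surjective fun h => (T 0 h, T 1 h) := by
    rintro ⟨f, g⟩
    obtain ⟨n, hn1, hn2⟩ := exists_scale hX (fun x => |f.1 x| + |g.1 x|) (f.2.abs.add g.2.abs)
    have hnc : Continuous fun x => (n x : ℝ) + 1 :=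
      ((continuous_of_discreteTopology (f := fun n : ℕ => (n : ℝ))).comp hn1).add continuous_const
    have hpos : ∀ x, (0 : ℝ) < n x + 1 := fun x => by positivity
    obtain ⟨s, hs1, hs2⟩ := exists_digits hX (fun x => f.1 x / (n x + 1))
      (f.2.div hnc fun x => (hpos x).ne') fun x => by
        rw [abs_div, abs_of_pos (hpos x), div_le_one (hpos x)]
        linarith [hn2 x, abs_nonneg (g.1 x)]
    obtain ⟨t, ht1, ht2⟩ := exists_digits hX (fun x => g.1 x / (n x + 1))
      (g.2.div hnc fun x => (hpos x).ne') fun x => by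
        rw [abs_div, abs_of_pos (hpos x), div_le_one (hpos x)]
        linarith [hn2 x, abs_nonneg (f.1 x)]
    let w : X → ℕ × (ℕ → Bool) := fun x =>
      (n x, fun i => if i % 2 = 0 then s x (i / 2) else t x (i / 2))
    have hw : Continuous w := by
      refine hn1.prodMk (continuous_pi fun i => ?_)
      split_ifs
      · exact (continuous_apply _).comp hs1
      · exact (continuous_apply _).comp ht1
    refine ⟨⟨j ∘ w, hj.continuous.comp hw⟩, Prod.ext (Subtype.ext (funext fun x => ?_))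
      (Subtype.ext (funext fun x => ?_))⟩
    · change (q 0 ∘ j) (w x) = f.1 x
      rw [hq]
      have : (fun i => (w x).2 (2 * i + 0)) = s x := by
        funext i
        simp [w]
      change ((n x : ℝ) + 1) * d (fun i => (w x).2 (2 * i + 0)) = _
      rw [this]
      change ((n x : ℝ) + 1) * ∑' i, (if s x i then 1 else -1) * ((2 / 3 : ℝ) ^ i / 3) = _
      rw [← hs2 x, mul_div_cancel₀ _ (hpos x).ne']
    · change (q 1 ∘ j) (w x) = g.1 x
      rw [hq]
      have : (fun i => (w x).2 (2 * i + 1)) = t x := by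
        funext i
        have h1 : (2 * i + 1) % 2 = 1 := by omega
        have h2 : (2 * i + 1) / 2 = i := by omega
        simp [w, h1, h2]
      change ((n x : ℝ) + 1) * d (fun i => (w x).2 (2 * i + 1)) = _
      rw [this]
      change ((n x : ℝ) + 1) * ∑' i, (if t x i then 1 else -1) * ((2 / 3 : ℝ) ^ i / 3) = _
      rw [← ht2 x, mul_div_cancel₀ _ (hpos x).ne']
  refine ⟨?_⟩
  rw [← hsurj.range_eq]
  exact isLindelof_range ((hT 0).prodMk (hT 1))

end ZeroDim

end Pool.Agent.P.MP_fa84b3_gt
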