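import Mathlib
import Pool.Agent.P.MP_fa84b3_gt.Cand

/-!
The universal parametrisation.
-/

namespace Pool.Agent.P.MP_fa84b3_gt.Cx

open Set Filter Topology PiNat Real

theorem ex_nn (F : DD → ℝ) (r : R) : ∃ n, IsC F r → r ∈ Cand n F := by
  by_cases h : IsC F r
  · exact h.imp fun _ hn _ => hn
  · exact ⟨0, fun h' => absurd h' h⟩

open Classical in
noncomputable def nn (F : DD → ℝ) (r : R) : ℕ := Nat.find (ex_nn F r)

theorem nn_spec {F : DD → ℝ} {r : R} (h : IsC F r) : r ∈ Cand (nn F r) F := by
  classical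
  exact Nat.find_spec (ex_nn F r) h

def Isg (F : DD → ℝ) (r : R) (x : ℝ) : Prop :=
  (IsC F r → IsgC (nn F r) (eh (tn F) r) (thS (tn F) r) x) ∧ (¬ IsC F r → x = thS (tn F) r)

noncomputable def am (F : DD → ℝ) (r : R) (x : ℝ) : ℝ :=
  amp (nn F r) (eh (tn F) r) (thS (tn F) r) x

open Classical in
noncomputable def wt (F : DD → ℝ) (r : R) (x : ℝ) (j : ℕ) : ℝ :=
  if IsC F r ∧ Isg F r x then (1 + am F r x) / (2 * (sg x).2) else (1 / 2) ^ (j + 1)

theorem sg_snd_pos {x : ℝ} (h : 0 < x) : 0 < (sg x).2 := by simp only [sg]; positivity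

theorem wt_pos (F : DD → ℝ) (r : R) (x : ℝ) (j : ℕ) : 0 < wt F r x j := by
  unfold wt; split_ifs with h
  · have h1 := h.2.1 h.1
    have h2 := (h1.amp_mem (eh_mem _ _)).1
    have h3 := sg_snd_pos (h1.pos (eh_mem _ _))
    unfold am; positivity
  · positivity

section meas

variable {P : Type} [MeasurableSpace P] {F : P → DD → ℝ} {r : P → R} {x : P → ℝ}

theorem measurable_isC (hF : Measurable F) (hr : Measurable r) :
    Measurable fun p => IsC (F p) (r p) :=
  Measurable.exists fun n => (measurable_cand n).comp (hF.prodMk hr)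

theorem measurable_nn (hF : Measurable F) (hr : Measurable r) :
    Measurable fun p => nn (F p) (r p) := by
  classical
  exact measurable_find (p := fun p n => IsC (F p) (r p) → r p ∈ Cand n (F p))
    (fun p => ex_nn (F p) (r p)) fun n =>
      ((measurable_isC hF hr).imp ((measurable_cand n).comp (hF.prodMk hr))).setOf

theorem measurable_eh (hF : Measurable F) (hr : Measurable r) :
    Measurable fun p => eh (tn (F p)) (r p) :=
  continuous_cl.measurable.comp
    (((measurable_LimQ 0).comp ((measurable_tn.comp hF).prodMk hr)).sub measurable_const)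

theorem measurable_th (hF : Measurable F) (hr : Measurable r) :
    Measurable fun p => thS (tn (F p)) (r p) :=
  measurable_thS.comp ((measurable_tn.comp hF).prodMk hr)

variable {n : P → ℕ} {e t : P → ℝ}

theorem measurable_cast (hn : Measurable n) : Measurable fun p => (n p : ℝ) :=
  (measurable_of_countable (Nat.cast : ℕ → ℝ)).comp hn

theorem measurable_be (hn : Measurable n) (he : Measurable e) :
    Measurable fun p => be (n p) (e p) := by
  have := measurable_cast hn
  unfold be; fun_prop

theorem measurable_thN (hn : Measurable n) (he : Measurable e) (ht : Measurable t) :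
    Measurable fun p => thN (n p) (e p) (t p) := by
  have := measurable_cast hn
  exact Measurable.ite (measurableSet_le (by fun_prop) ht) ht (measurable_be hn he)

theorem measurable_isg (hF : Measurable F) (hr : Measurable r) (hx : Measurable x) :
    Measurable fun p => Isg (F p) (r p) (x p) := by
  have h1 := measurable_nn hF hr
  have h2 := measurable_eh hF hr
  have h3 := measurable_th hF hr
  refine ((measurable_isC hF hr).imp (Measurable.or ?_ (Measurable.and ?_
    (Measurable.and ?_ (Measurable.not ?_))))).and ((measurable_isC hF hr).not.imp ?_)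
  · exact measurableSet_setOfPred.1 (measurableSet_eq_fun hx (measurable_thN h1 h2 h3))
  · exact measurableSet_setOfPred.1 (measurableSet_le (measurable_be h1 measurable_const) hx)
  · exact measurableSet_setOfPred.1 (measurableSet_le hx (measurable_be h1 measurable_const))
  · exact measurableSet_setOfPred.1 (measurableSet_eq_fun hx (measurable_be h1 h2))
  · exact measurableSet_setOfPred.1 (measurableSet_eq_fun hx h3)

theorem measurable_wt (hF : Measurable F) (hr : Measurable r) (hx : Measurable x) (j : ℕ) :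
    Measurable fun p => wt (F p) (r p) (x p) j := by
  have h1 := measurable_nn hF hr
  have h2 := measurable_eh hF hr
  have h3 := measurable_th hF hr
  have h4 := measurable_cast h1
  refine Measurable.ite ((measurable_isC hF hr).and (measurable_isg hF hr hx)).setOf
    (Measurable.div (measurable_const.add ?_) (measurable_const.mul ?_)) measurable_const
  · exact Measurable.ite (measurableSet_eq_fun hx (measurable_thN h1 h2 h3)) h2 (by fun_prop)
  · exact (continuous_snd.comp continuous_sg).measurable.comp hx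

end meas

abbrev SS : Type := (DD → ℝ) × (ℕ → ℝ)

section

variable (a : ℕ → (DD → ℝ) → R) (act : ℕ → (DD → ℝ) → Prop)

open Classical in
noncomputable def ww (c : SS) (j : ℕ) : ℝ := if act j c.1 then wt c.1 (a j c.1) (c.2 j) j else 0

noncomputable def GN (c : SS) : NN → ℝ :=
  GG (fun j => a j c.1) (fun j => Isg c.1 (a j c.1) (c.2 j)) c.2 (ww a act c)

def Dom : Set SS := {c | (∀ d, |c.1 d| ≤ 2) ∧ (∃ n, c.1 ∈ Wid n) ∧
  ∀ j, (act j c.1 → 0 ≤ c.2 j) ∧ (¬ act j c.1 → c.2 j = 0)}

def Good : Set SS := {c | atn (tn c.1) = c.1 ∧ c.1 u0 = 0 ∧ StarD (tn c.1) (fun j => a j c.1) ∧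
  ∀ j, act j c.1 → Sat (tn c.1) (a j c.1) (c.2 j)}

def Valid (Bd : Set R) (dd : R → ℝ) (c : SS) : Prop :=
  ∀ j, act j c.1 → (a j c.1 ∉ Bd → Isg c.1 (a j c.1) (c.2 j)) ∧
    (a j c.1 ∈ Bd → dd (a j c.1) = c.2 j)

variable {a act}

theorem ww_ne {c : SS} {j : ℕ} : ww a act c j ≠ 0 ↔ act j c.1 := by
  unfold ww; split_ifs with h
  · exact iff_of_true (wt_pos _ _ _ _).ne' h
  · exact iff_of_false (by simp) h

theorem measurable_GN (ha : ∀ j, Measurable (a j)) (hact : ∀ j, Measurable (act j)) :
    Measurable fun c => tr (GN a act c) := by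
  refine measurable_pi_lambda _ fun d => Measurable.tsum fun j => ?_
  have h1 : Measurable fun c : SS => a j c.1 := (ha j).comp measurable_fst
  have h2 : Measurable fun c : SS => c.2 j := by fun_prop
  exact (Measurable.ite ((hact j).comp measurable_fst).setOf
    (measurable_wt measurable_fst h1 h2 j) measurable_const).mul
    (measurable_cert (measurable_isg measurable_fst h1 h2) h1 h2 d)

theorem measurable_Dom (hact : ∀ j, Measurable (act j)) : MeasurableSet (Dom act) := by
  refine Measurable.setOf (Measurable.and (Measurable.forall fun d => ?_) (Measurable.and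
    (Measurable.exists fun n => ?_) (Measurable.forall fun j =>
      (((hact j).comp measurable_fst).imp ?_).and (((hact j).comp measurable_fst).not.imp ?_))))
  · exact measurableSet_setOfPred.1 (measurableSet_le (by fun_prop) measurable_const)
  · exact measurableSet_setOfPred.1 (measurable_fst (isClosed_Wid n).measurableSet)
  · exact measurableSet_setOfPred.1 (measurableSet_le measurable_const (by fun_prop))
  · exact measurableSet_setOfPred.1 (measurableSet_eq_fun (by fun_prop) measurable_const)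

theorem measurable_Good (ha : ∀ j, Measurable (a j)) (hact : ∀ j, Measurable (act j)) :
    MeasurableSet (Good a act) := by
  have h0 : Measurable fun c : SS => tn c.1 := measurable_tn.comp measurable_fst
  have h1 : ∀ j, Measurable fun c : SS => a j c.1 := fun j => (ha j).comp measurable_fst
  have h2 : ∀ (d : DD) j, Measurable fun c : SS => d.1 (a j c.1) := fun d j => by
    obtain ⟨m, hm⟩ := d.2.1.2
    exact hm.lc.continuous.measurable.comp (h1 j)
  refine Measurable.setOf (Measurable.and ?_ (Measurable.and ?_ (Measurable.and ?_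
    (Measurable.forall fun j => ((hact j).comp measurable_fst).imp ?_))))
  · exact measurableSet_setOfPred.1 (measurableSet_eq_fun (measurable_atn.comp h0) measurable_fst)
  · exact measurableSet_setOfPred.1 (measurableSet_eq_fun (by fun_prop) measurable_const)
  · unfold StarD StarM
    refine Measurable.forall fun m => Measurable.forall fun k => Measurable.exists fun w =>
      Measurable.forall fun d => Measurable.forall fun d' => measurable_const.imp
        (Measurable.imp (Measurable.forall fun n => measurable_const.imp ?_) ?_)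
    · exact measurableSet_setOfPred.1
        (measurableSet_lt ((h2 d n).sub (h2 d' n)).norm measurable_const)
    · exact measurableSet_setOfPred.1 (measurableSet_le (((measurable_pi_apply d).comp h0).sub
        ((measurable_pi_apply d').comp h0)).abs measurable_const)
  · exact measurable_sat.comp ((h0.prodMk (h1 j)).prodMk (by fun_prop : Measurable fun c : SS =>
      c.2 j))

variable (hi : ∀ F j j', act j F → act j' F → a j F = a j' F → j = j')
include hi

theorem summable_ww {c : SS} (hc : c ∈ Dom act) : Summable (ww a act c) := by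
  obtain ⟨n, hn⟩ := hc.2.1
  have hfin : {j | act j c.1 ∧ IsC c.1 (a j c.1)}.Finite :=
    Set.Finite.of_finite_image (f := fun j => a j c.1)
      ((finite_IsC hn).subset (by rintro _ ⟨j, hj, rfl⟩; exact hj.2))
      fun j hj j' hj' e => hi _ j j' hj.1 hj'.1 e
  refine Summable.of_norm_bounded_eventually
    ((summable_nat_add_iff 1).2 summable_geometric_two) ?_
  filter_upwards [hfin.compl_mem_cofinite] with j hj
  unfold ww; split_ifs with h
  · rw [wt, if_neg fun h' => hj ⟨h, h'.1⟩, Real.norm_of_nonneg (by positivity)]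
  · rw [norm_zero]; positivity

theorem inj_ww (c : SS) : ∀ j j', ww a act c j ≠ 0 → ww a act c j' ≠ 0 → a j c.1 = a j' c.1 →
    j = j' := fun j j' h h' => hi _ j j' (ww_ne.1 h) (ww_ne.1 h')

variable {Bd : Set R} {dd : R → ℝ}

theorem GN_mem_iff (hQ : Disjoint Bd Qset) (hdd : ∀ r, 0 ≤ dd r) {c : SS} (hc : c ∈ Dom act) :
    tr (GN a act c) ∈ VV Bd dd ↔ Valid a act Bd dd c := by
  have h1 := GG_mem_iff (b := fun j => Isg c.1 (a j c.1) (c.2 j)) (x := c.2) hQ hdd
    (summable_ww hi hc) (inj_ww hi c) fun j hj => (hc.2.2 j).1 (ww_ne.1 hj)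
  simp only [ww_ne] at h1
  refine Iff.trans ⟨?_, fun h => ⟨_, h, GG_u0, rfl⟩⟩ h1
  rintro ⟨f, hf, -, he⟩
  exact eq_of_tr_eq hf.1 (continuous_GG (summable_ww hi hc)) he ▸ hf

theorem eta_cand {c : SS} (hc : c ∈ Dom act) (hv : Valid a act Bd dd c) {j : ℕ} (hj : act j c.1)
    (hB : a j c.1 ∉ Bd) (hC : IsC c.1 (a j c.1)) :
    eta Bd (tr (GN a act c)) (a j c.1) = am c.1 (a j c.1) (c.2 j) := by
  have h1 := (hv j hj).1 hB
  have h2 := lim_GG_eq (b := fun j => Isg c.1 (a j c.1) (c.2 j)) (x := c.2) (summable_ww hi hc)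
    (inj_ww hi c) (ww_ne.2 hj) h1
  have h3 := (h1.1 hC).amp_mem (eh_mem _ _)
  have h4 := sg_snd_pos ((h1.1 hC).pos (eh_mem _ _))
  rw [eta, if_neg hB, GN, eh_eq h2, ww, if_pos hj, wt, if_pos ⟨hC, h1⟩,
    div_mul_cancel₀ _ (by positivity), add_sub_cancel_left]
  exact cl_of_mem h3.1 h3.2

theorem eta_not {c : SS} (hc : c ∈ Dom act) (hv : Valid a act Bd dd c) {r : R}
    (hC : ¬ IsC c.1 r) : eta Bd (tr (GN a act c)) r = 0 := by
  unfold eta; split_ifs with hB
  · rfl
  by_cases h : ∃ j, act j c.1 ∧ a j c.1 = r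
  · obtain ⟨j, hj, rfl⟩ := h
    have h2 := lim_GG_eq (b := fun j => Isg c.1 (a j c.1) (c.2 j)) (x := c.2) (summable_ww hi hc)
      (inj_ww hi c) (ww_ne.2 hj) ((hv j hj).1 hB)
    rw [GN, eh_eq h2, ww, if_pos hj, wt, if_neg fun h => hC h.1]
    refine cl_of_nonpos ?_
    have h3 : (sg (c.2 j)).2 ≤ 1 :=
      (le_abs_self _).trans ((norm_snd_le (sg (c.2 j))).trans (norm_sg_le _))
    have h4 : (1 / 2 : ℝ) ^ j ≤ 1 := pow_le_one₀ (by norm_num) (by norm_num)
    have h5 : (0 : ℝ) < (1 / 2) ^ j := by positivity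
    rw [pow_succ]
    nlinarith
  · rw [GN, eh_eq (lim_GG_ne (summable_ww hi hc) fun j hj e => h ⟨j, ww_ne.1 hj, e⟩)]
    exact cl_of_nonpos (by norm_num)

end

theorem exists_par {Bd : Set R} {dd : R → ℝ} (hQ : Disjoint Bd Qset) (hdd : ∀ r, 0 ≤ dd r) :
    ∃ (G : SS → DD → ℝ) (Dm Gd : Set SS),
      Par (VV Bd dd) (eta Bd) (⋃ n, KK Bd n) Prod.fst G Dm Gd := by
  obtain ⟨a, act, ha, hact, hi, hC, hS⟩ := exists_slots
  refine ⟨fun c => tr (GN a act c), Dom act, Good a act, measurable_fst, measurable_GN ha hact,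
    measurable_Dom hact, measurable_Good ha hact, ⟨?_, ?_, ?_⟩, ?_⟩
  · rintro c ⟨hc, hv⟩
    rw [GN_mem_iff hi hQ hdd hc] at hv
    refine mem_KK.2 ⟨hc.1, hc.2.1, eta_mem _ _, fun r => ?_⟩
    by_cases hB : r ∈ Bd
    · exact Or.inl (if_pos hB)
    by_cases h : IsC c.1 r
    · exact Or.inr ⟨hB, h⟩
    · exact Or.inl (eta_not hi hc hv h)
  · rintro ⟨F, x⟩ ⟨hc, hv⟩ ⟨F', x'⟩ ⟨hc', hv'⟩ he
    rw [GN_mem_iff hi hQ hdd hc] at hv
    rw [GN_mem_iff hi hQ hdd hc'] at hv'
    obtain ⟨rfl, he⟩ := Prod.mk.inj he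
    refine Prod.ext rfl (funext fun j => ?_)
    by_cases hj : act j F
    · by_cases hB : a j F ∈ Bd
      · exact ((hv j hj).2 hB).symm.trans ((hv' j hj).2 hB)
      by_cases h : IsC F (a j F)
      · refine (((hv j hj).1 hB).1 h).amp_inj (((hv' j hj).1 hB).1 h) ?_
        exact (eta_cand hi hc hv hj hB h).symm.trans
          ((congrFun he _).trans (eta_cand hi hc' hv' hj hB h))
      · exact (((hv j hj).1 hB).2 h).trans (((hv' j hj).1 hB).2 h).symm
    · exact ((hc.2.2 j).2 hj).trans ((hc'.2.2 j).2 hj).symm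
  · rintro ⟨F, η⟩ hp
    obtain ⟨h1, h2, h3, h4⟩ := mem_KK.1 hp
    have h5 : ∀ j, ∃ x : ℝ, (act j F → 0 ≤ x ∧ (a j F ∉ Bd → Isg F (a j F) x ∧
        (IsC F (a j F) → am F (a j F) x = η (a j F))) ∧ (a j F ∈ Bd → dd (a j F) = x)) ∧
        (¬ act j F → x = 0) := by
      intro j
      by_cases hj : act j F
      · by_cases hB : a j F ∈ Bd
        · exact ⟨_, fun _ => ⟨hdd _, fun h => absurd hB h, fun _ => rfl⟩, fun h => absurd hj h⟩
        by_cases h : IsC F (a j F)
        · obtain ⟨x, h6, h7⟩ := amp_surj (nn F (a j F)) (eh (tn F) (a j F)) (thS (tn F) (a j F))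
            (h3 (a j F))
          exact ⟨x, fun _ => ⟨(h6.pos (eh_mem _ _)).le, fun _ =>
            ⟨⟨fun _ => h6, fun h' => absurd h h'⟩, fun _ => h7⟩, fun h' => absurd h' hB⟩,
            fun h' => absurd hj h'⟩
        · exact ⟨_, fun _ => ⟨thS_nonneg _ _, fun _ => ⟨⟨fun h' => absurd h' h, fun _ => rfl⟩,
            fun h' => absurd h' h⟩, fun h' => absurd h' hB⟩, fun h' => absurd hj h'⟩
      · exact ⟨0, fun h => absurd h hj, fun _ => rfl⟩
    choose x hx using h5
    have hc : ((F, x) : SS) ∈ Dom act := ⟨h1, h2, fun j => ⟨fun h => ((hx j).1 h).1, (hx j).2⟩⟩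
    have hv : Valid a act Bd dd (F, x) := fun j hj =>
      ⟨fun h => (((hx j).1 hj).2.1 h).1, ((hx j).1 hj).2.2⟩
    refine ⟨(F, x), ⟨hc, (GN_mem_iff hi hQ hdd hc).2 hv⟩, Prod.ext rfl (funext fun r => ?_)⟩
    by_cases hB : r ∈ Bd
    · exact (if_pos hB).trans ((h4 r).resolve_right fun h => h.1 hB).symm
    by_cases h : IsC F r
    · obtain ⟨j, hj, rfl⟩ := hC F r h2 h
      exact (eta_cand hi hc hv hj hB h).trans ((((hx j).1 hj).2.1 hB).2 h)
    · exact (eta_not hi hc hv h).trans ((h4 r).resolve_right fun h' => h h'.2).symm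
  · rintro ⟨F, x⟩ hc hv
    rw [GN_mem_iff hi hQ hdd hc] at hv
    constructor
    · rintro ⟨h1, h2, h3, h4⟩
      obtain ⟨f, hf, he⟩ := h3.extend
      dsimp only at h1 h2 h3 h4 he
      have hsl : ∀ r, (∃ j, act j F ∧ a j F = r) ∨ ∀ θ, Sat (tr f) r θ := by
        intro r
        refine or_iff_not_imp_left.2 fun h => sat_of_notMem fun m k hm => h ?_
        rw [he] at hm
        exact hS F m k (he ▸ finite_Sset hf m k) r hm
      have hcand : ∀ j, act j F → a j F ∉ Bd → IsC F (a j F) →
          x j = thS (tn F) (a j F) ∧ am F (a j F) (x j) = eh (tn F) (a j F) := by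
        intro j hj hB h
        refine (((hv j hj).1 hB).1 h).of_ge (eh_mem _ _) (not_sat_of_cand ?_ ((hc.2.2 j).1 hj)
          (h4 j hj))
        rw [h1]; exact nn_spec h
      have hmem : f ∈ Cc Bd dd := by
        refine ⟨hf, fun r hr => ?_, fun r hr => ?_⟩
        · rcases hsl r with ⟨j, hj, rfl⟩ | h
          · rw [iso_iff_sat hf, he]
            by_cases h : IsC F (a j F)
            · rw [← (hcand j hj hr h).1]; exact h4 j hj
            · rw [← ((hv j hj).1 hr).2 h]; exact h4 j hj
          · exact iso_of_sat hf h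
        · rcases hsl r with ⟨j, hj, rfl⟩ | h
          · rw [he, (hv j hj).2 hr]; exact h4 j hj
          · exact h _
      have hV : tn F ∈ VV Bd dd := ⟨f, hmem, by
        have := congrFun he u0
        simpa [tr, tn, h2] using this, he⟩
      refine ⟨tn F, hV, h1, funext fun r => ?_⟩
      by_cases hB : r ∈ Bd
      · exact (if_pos hB).trans (if_pos hB).symm
      by_cases h : IsC F r
      · obtain ⟨j, hj, rfl⟩ := hC F r hc.2.1 h
        exact (if_neg hB).trans ((hcand j hj hB h).2.symm.trans (eta_cand hi hc hv hj hB h).symm)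
      · exact ((isC_of_eta hV r).resolve_right fun h' => h (h1 ▸ h'.2)).trans
          (eta_not hi hc hv h).symm
    · rintro ⟨_, ⟨f, hf, h0, rfl⟩, h1, h2⟩
      obtain rfl : atn (tr f) = F := h1
      refine ⟨by simp only [tn_atn], by simp [atn, tr, h0], ?_, fun j hj => ?_⟩
      · simp only [tn_atn] at hS ⊢
        refine starD_of_cont hf.1 fun m k r hr => ?_
        have := hS (atn (tr f)) m k
        rw [tn_atn] at this
        obtain ⟨j, -, hj⟩ := this (finite_Sset hf.1 m k) r hr
        exact ⟨j, hj⟩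
      · simp only [tn_atn] at hj ⊢
        by_cases hB : a j (atn (tr f)) ∈ Bd
        · rw [← show dd _ = x j from (hv j hj).2 hB]; exact hf.2.2 _ hB
        have h3 := (iso_iff_sat hf.1).1 (hf.2.1 _ hB)
        have h4 := (hv j hj).1 hB
        by_cases h : IsC (atn (tr f)) (a j (atn (tr f)))
        · have h5 := (congrFun h2 _).trans (eta_cand hi hc hv hj hB h)
          rw [eta, if_neg hB] at h5
          have h6 := (h4.1 h).amp_eq (by rw [← am, ← h5, tn_atn])
          rw [thN, tn_atn, if_pos (not_sat_of_cand (nn_spec h) (thS_nonneg _ _) h3)] at h6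
          exact (show x j = _ from h6) ▸ h3
        · have h6 := h4.2 h
          rw [tn_atn] at h6
          exact (show x j = _ from h6) ▸ h3

end Pool.Agent.P.MP_fa84b3_gt.Cx
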